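import Pool.Agent.K9h51.D2.Dev2d
import Pool.Agent.K9h51.LC.Mac

/-!
# Project D2: the Poisson-Dirichlet law in the plane at all times `t ≥ (log L)^m`
-/

set_option autoImplicit false

namespace Pool.Agent.K9h51.D2

open Finset Equiv Matrix Q292.LC
open Pool.Agent.Y998.ST (stirExp nnRate)
open Pool.Agent.TH268.PD (top Cyc cyOf pdm)
open Pool.Agent.Y998.LP (bfrac)
open Pool.Agent.K9h51.LC (td_eq step unif qf_nonneg Qb_sub_Qv Qb_le bfrac_nonneg bfrac_le_one)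

/-- the form used for the final statement -/
theorem main2 : ∃ m : ℕ, ∀ (k : ℕ) (f : (Fin k → ℝ) → ℝ), Continuous f →
    (∃ C, ∀ u, |f u| ≤ C) → ∀ η : ℝ, 0 < η → ∃ L₀ : ℕ, ∀ (L : ℕ) [NeZero L], L₀ ≤ L →
      ∀ t : ℝ, (Real.log L) ^ m ≤ t →
      |stirExp (nnRate 2 L) t (fun g => f (fun i => top (bfrac univ g) i)) - pdm f| ≤ η := by
  obtain ⟨m, hDev⟩ := dev2
  refine ⟨m + 1, fun k f hf hb η hη => ?_⟩
  obtain ⟨M₀, hM₀⟩ := hb
  obtain ⟨M, hMd⟩ : ∃ M : ℝ, M = max M₀ 1 := ⟨_, rfl⟩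
  have hM : ∀ u, |f u| ≤ M := fun u => (hM₀ u).trans (by rw [hMd]; exact le_max_left _ _)
  have hM1 : 1 ≤ M := by rw [hMd]; exact le_max_right _ _
  -- local law
  obtain ⟨-, hloc⟩ := Pool.Agent.Results.MP_b817cf_pr.LocalPoissonDirichlet.result 2 (by omega)
  obtain ⟨⟨δ₀, hδ₀, N₀, hloc⟩, -⟩ := hloc k f hf M hM (η / 8) (by positivity)
  obtain ⟨θ, hθ, hu⟩ := unif f hf (η / 8) (by positivity)
  obtain ⟨h, hh⟩ : ∃ h : ℕ, h = ⌈4 / δ₀⌉₊ + 1 := ⟨_, rfl⟩
  have hh1 : 1 ≤ h := by omega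
  have hhδ : 4 / δ₀ ≤ h := by
    refine (Nat.le_ceil _).trans ?_
    have : ⌈4 / δ₀⌉₊ ≤ h := by omega
    exact_mod_cast this
  obtain ⟨L₂, hDev⟩ := hDev h hh1 (η * θ ^ 2 / (8 * M)) (by positivity)
  obtain ⟨L₃, hL₃⟩ : ∃ L₃ : ℕ, L₃ = ⌈Real.exp (max 2 (((N₀ + 2) * h : ℕ) : ℝ) ^ 2 + 2)⌉₊ :=
    ⟨_, rfl⟩
  refine ⟨max (max N₀ L₂) (max 3 L₃), fun L _ hL t ht => ?_⟩
  have hLL1 : N₀ ≤ L := (le_max_left _ _).trans ((le_max_left _ _).trans hL)
  have hLL2 : L₂ ≤ L := (le_max_right _ _).trans ((le_max_left _ _).trans hL)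
  have hLL3 : 3 ≤ L := (le_max_left _ _).trans ((le_max_right _ _).trans hL)
  have hLL4 : L₃ ≤ L := (le_max_right _ _).trans ((le_max_right _ _).trans hL)
  have hL3r : (3 : ℝ) ≤ L := by exact_mod_cast hLL3
  have hLr : (0 : ℝ) < L := by linarith
  have hlogL : max 2 (((N₀ + 2) * h : ℕ) : ℝ) ^ 2 + 2 ≤ Real.log L := by
    rw [Real.le_log_iff_exp_le hLr]
    refine (Nat.le_ceil _).trans ?_
    rw [← hL₃]
    exact_mod_cast hLL4
  obtain ⟨b, hbd⟩ : ∃ b : ℝ, b = max 2 (((N₀ + 2) * h : ℕ) : ℝ) := ⟨_, rfl⟩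
  rw [← hbd] at hlogL
  have hb2 : 2 ≤ b := by rw [hbd]; exact le_max_left _ _
  have hbN : (((N₀ + 2) * h : ℕ) : ℝ) ≤ b := by rw [hbd]; exact le_max_right _ _
  have hlog2 : 2 ≤ Real.log L := by nlinarith [sq_nonneg b]
  have hlog1 : 1 ≤ Real.log L := by linarith
  have hlogm : 1 ≤ (Real.log L) ^ m := one_le_pow₀ hlog1
  have hstep : 2 * (Real.log L) ^ m ≤ (Real.log L) ^ (m + 1) := by
    rw [pow_succ]
    nlinarith
  have ht2 : 2 * (Real.log L) ^ m ≤ t := hstep.trans ht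
  have htb : b ^ 2 + 1 ≤ t := by
    have h1 : Real.log L ≤ (Real.log L) ^ (m + 1) := by
      rw [pow_succ]
      nlinarith
    linarith
  have ht0' : 0 < t := by nlinarith
  have hdiam : ∀ x y : Fin 2 → ZMod L, (td x y : ℝ) ≤ 2 * L := by
    intro x y
    have h1 := Pool.Agent.Results.MP_b817cf_pr.LocalPoissonDirichlet.dist_le x y
    rw [td_eq] at h1
    exact_mod_cast h1
  by_cases hlt : 2 * (L : ℝ) ≤ δ₀ * Real.sqrt t
  · -- the whole torus
    have h1 := hloc L hLL3 t ht0' univ (by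
      rw [Finset.card_univ, Pool.Agent.Q257.LC.card_V]
      exact hLL1.trans (Nat.le_self_pow (by norm_num) L)) (fun x _ y _ => by
        rw [td_eq]
        exact (hdiam x y).trans hlt)
    refine le_trans h1 ?_
    linarith
  · rw [not_le] at hlt
    obtain ⟨K, hKd⟩ : ∃ K : ℕ, K = ⌊t⌋₊ := ⟨_, rfl⟩
    have ht0 : 0 ≤ t := ht0'.le
    have hKt : (K : ℝ) ≤ t := by rw [hKd]; exact Nat.floor_le ht0
    have htK : t < K + 1 := by rw [hKd]; exact Nat.lt_floor_add_one t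
    have hK1 : 1 ≤ K := by
      rw [hKd]
      refine Nat.le_floor ?_
      push_cast
      nlinarith
    have hK1r : (1 : ℝ) ≤ K := by exact_mod_cast hK1
    have ht2K : t ≤ 2 * K := by linarith
    have hlogK : (Real.log L) ^ m ≤ K := by linarith
    have hK2 : K ≤ h ^ 2 * L ^ 2 := by
      have h1 : Real.sqrt t ≤ h * L := by
        have h2 : δ₀ * Real.sqrt t ≤ δ₀ * (h * L) := by
          rw [div_le_iff₀ hδ₀] at hhδ
          have h3 : 4 * (L : ℝ) ≤ h * δ₀ * L := mul_le_mul_of_nonneg_right hhδ hLr.le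
          linarith
        exact le_of_mul_le_mul_left h2 hδ₀
      have h2 : t ≤ (h * L) ^ 2 := by
        have h3 := Real.sq_sqrt ht0
        have h4 := Real.sqrt_nonneg t
        nlinarith
      have h5 : (K : ℝ) ≤ (h : ℝ) ^ 2 * (L : ℝ) ^ 2 := by
        rw [← mul_pow]
        linarith
      exact_mod_cast h5
    obtain ⟨q₀, hq₀⟩ := hDev L K hLL2 hlogK hK2
    obtain ⟨r, hrd⟩ : ∃ r : ℕ, r = Nat.sqrt K / h := ⟨_, rfl⟩
    rw [← hrd] at hq₀
    obtain ⟨σ, hσ⟩ := Pool.Agent.Q297.LC.exists_Per 2 L (by omega)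
    have hrr : 1 ≤ r ∧ r ≤ L := by
      have hq1 : (0 : ℝ) < ((q₀ + 1 : ℕ) : ℝ) := by positivity
      have h1 := hq₀ (q₀ + 1) (by omega) σ hσ (1 / ((q₀ + 1 : ℕ) : ℝ))
        (by rw [div_mul_cancel₀ _ hq1.ne']) (by rw [div_mul_cancel₀ _ hq1.ne']; norm_num)
      exact ⟨h1.1, h1.2.1⟩
    have hdev : stirExp (nnRate 2 L) t (fun g => Qb r g - Qv g) ≤ η * θ ^ 2 / (8 * M) := by
      refine Pool.Agent.Q297.LC.stir_le_of_circuit (by omega) hLL3 hK1 hKt ht2K (fun g => ?_)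
        ⟨q₀, fun q hq σ hσ δ h1 h2 => (hq₀ q hq σ hσ δ h1 h2).2.2⟩
      rw [abs_of_nonneg]
      · exact Qb_le hrr.1 hrr.2 g
      · rw [Qb_sub_Qv hrr.1 hrr.2]
        exact div_nonneg (Finset.sum_nonneg fun z _ => qf_nonneg _ _ _) (by positivity)
    -- the side is large
    have hrN : N₀ ≤ r := by
      rw [hrd, Nat.le_div_iff_mul_le (by omega), Nat.le_sqrt]
      have h1 : ((N₀ * h : ℕ) : ℝ) ≤ b := by
        refine le_trans ?_ hbN
        have : N₀ * h ≤ (N₀ + 2) * h := Nat.mul_le_mul_right h (by omega)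
        exact_mod_cast this
      have h2 : ((N₀ * h : ℕ) : ℝ) * ((N₀ * h : ℕ) : ℝ) ≤ K := by
        have h3 : ((N₀ * h : ℕ) : ℝ) * ((N₀ * h : ℕ) : ℝ) ≤ b * b :=
          mul_le_mul h1 h1 (Nat.cast_nonneg _) (by linarith)
        nlinarith
      exact_mod_cast h2
    have hcard : ∀ z : Fin 2 → ZMod L, N₀ ≤ (Q292.LC.box z r).card := by
      intro z
      rw [Pool.Agent.Q187.LC.Nas.card_box z r hrr.2]
      exact hrN.trans (Nat.le_self_pow (by omega) r)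
    have hrt : (4 * r : ℝ) ≤ δ₀ * Real.sqrt t := by
      have h1 : (r * h : ℕ) ≤ Nat.sqrt K := by
        rw [hrd]
        exact Nat.div_mul_le_self _ _
      have h2 : ((r * h : ℕ) : ℝ) ≤ Real.sqrt t := by
        refine Real.le_sqrt_of_sq_le ?_
        have h3 : (r * h) * (r * h) ≤ K := by
          exact (Nat.mul_le_mul h1 h1).trans (Nat.sqrt_le K)
        have h4 : (((r * h) * (r * h) : ℕ) : ℝ) ≤ K := by exact_mod_cast h3
        rw [sq]
        push_cast at h4 ⊢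
        linarith
      push_cast at h2
      rw [div_le_iff₀ hδ₀] at hhδ
      have h5 : (0 : ℝ) ≤ r := Nat.cast_nonneg _
      calc (4 * r : ℝ) ≤ (h * δ₀) * r := mul_le_mul_of_nonneg_right hhδ h5
        _ = δ₀ * (r * h) := by ring
        _ ≤ δ₀ * Real.sqrt t := mul_le_mul_of_nonneg_left h2 hδ₀.le
    have hbox : ∀ z : Fin 2 → ZMod L,
        |stirExp (nnRate 2 L) t (fun g => f (fun i : Fin k => top (bfrac (Q292.LC.box z r) g) i)) -
          pdm f| ≤ η / 8 := by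
      intro z
      refine hloc L hLL3 t ht0' (Q292.LC.box z r) (hcard z) (fun x hx y hy => ?_)
      refine le_trans ?_ hrt
      rw [td_eq]
      have h1 := Pool.Agent.Q257.LC.box_sub z r hx
      have h2 := Pool.Agent.Q257.LC.box_sub z r hy
      simp only [bal, Finset.mem_filter, Finset.mem_univ, true_and] at h1 h2
      have h3 := Pool.Agent.Q151.LC.td_tri x z y
      rw [Pool.Agent.Q151.LC.td_comm x z] at h3
      have h4 : td x y ≤ 4 * r := by linarith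
      exact_mod_cast h4
    have hfin := step f M hM (η / 8) θ (by positivity) hθ hu hrr.1 hrr.2 t ht0 (pdm f)
      (η * θ ^ 2 / (8 * M)) hbox hdev
    refine hfin.trans ?_
    have e1 : 2 * M / θ ^ 2 * (η * θ ^ 2 / (8 * M)) = η / 4 := by
      field_simp
      ring
    rw [e1]
    linarith

/-- macroscopic cycles from the Poisson-Dirichlet law -/
theorem mac_of (d m : ℕ) (hm : ∀ (k : ℕ) (f : (Fin k → ℝ) → ℝ), Continuous f →
    (∃ C, ∀ u, |f u| ≤ C) → ∀ η : ℝ, 0 < η → ∃ L₀ : ℕ, ∀ (L : ℕ) [NeZero L], L₀ ≤ L →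
      ∀ t : ℝ, (Real.log L) ^ m ≤ t →
      |stirExp (nnRate d L) t (fun g => f (fun i => top (bfrac univ g) i)) - pdm f| ≤ η) :
    (∀ (i : ℕ) (ε : ℝ), ε < 1 / ((i : ℝ) + 1) → ∃ c : ℝ, 0 < c ∧ ∃ L₀ : ℕ,
      ∀ (L : ℕ) [NeZero L], L₀ ≤ L → ∀ t : ℝ, (Real.log L) ^ m ≤ t →
      c ≤ stirExp (nnRate d L) t (fun g => if ε ≤ top (bfrac univ g) i then 1 else 0)) ∧
    ∀ η : ℝ, 0 < η → ∃ k L₀ : ℕ, ∀ (L : ℕ) [NeZero L], L₀ ≤ L →
      ∀ t : ℝ, (Real.log L) ^ m ≤ t →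
      1 - η ≤ ∑ i ∈ Finset.range k, stirExp (nnRate d L) t (fun g => top (bfrac univ g) i) := by
  open Pool.Agent.K9h51.LC in
  refine ⟨fun i ε hε => ?_, fun η hη => ?_⟩
  · obtain ⟨b, hb1, hb2⟩ := exists_between hε
    have hpos := pdm_cut_pos i ε b hb1 hb2
    obtain ⟨c, hc⟩ : ∃ c, c = pdm (fun u : Fin (i + 1) → ℝ => cut ε b (u (Fin.last i))) := ⟨_, rfl⟩
    rw [← hc] at hpos
    obtain ⟨L₀, hL₀⟩ := hm (i + 1) (fun u => cut ε b (u (Fin.last i)))
      ((cut_cont ε b).comp (continuous_apply _))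
      ⟨1, fun u => by rw [abs_of_nonneg (cut_nonneg _ _ _)]; exact cut_le _ _ _⟩ (c / 2)
      (by positivity)
    refine ⟨c / 2, by positivity, L₀ + 3, fun L _ hL t ht => ?_⟩
    have h1 := hL₀ L (by omega) t ht
    have ht0 : 0 ≤ t := (pow_nonneg (Real.log_natCast_nonneg L) m).trans ht
    rw [← hc] at h1
    have h2 := (abs_le.1 h1).1
    have h3 : stirExp (nnRate d L) t (fun g => cut ε b (top (bfrac univ g) (Fin.last i))) ≤
        stirExp (nnRate d L) t (fun g => if ε ≤ top (bfrac univ g) i then 1 else 0) := by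
      refine Pool.Agent.Y998.ST.exp_mono Pool.Agent.Y998.ST.nn_nonneg ht0 fun g => ?_
      rw [Fin.val_last]
      split_ifs with h
      · exact cut_le _ _ _
      · rw [not_le] at h
        rw [cut_lt hb1 h]
    linarith
  · obtain ⟨k, hk⟩ := exists_pow_lt_of_lt_one (show (0 : ℝ) < η / 2 by positivity)
      (show (1 / 2 : ℝ) < 1 by norm_num)
    obtain ⟨L₀, hL₀⟩ := hm k (fun u : Fin k → ℝ => ∑ i, min (max (1 * u i) 0) 1) (by fun_prop)
      ⟨k, fun u => by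
        rw [abs_of_nonneg (Finset.sum_nonneg fun i _ => le_min (le_max_right _ _) zero_le_one)]
        refine (Finset.sum_le_sum fun i _ => min_le_right _ _).trans ?_
        simp⟩ (η / 2) (by positivity)
    refine ⟨k, L₀, fun L _ hL t ht => ?_⟩
    have h1 := hL₀ L hL t ht
    rw [Pool.Agent.TH268.PD.pd_sum k 1 zero_le_one le_rfl, one_mul] at h1
    have h2 := Pool.Agent.TH268.PD.Lim.S_lower k
    have h3 := (abs_le.1 h1).1
    have h4 : stirExp (nnRate d L) t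
        (fun g => ∑ i : Fin k, min (max (1 * top (bfrac univ g) i) 0) 1) =
        ∑ i ∈ Finset.range k, stirExp (nnRate d L) t (fun g => top (bfrac univ g) i) := by
      rw [Pool.Agent.Y998.ST.exp_sum]
      congr 1
      funext g
      rw [← Fin.sum_univ_eq_sum_range (fun i => top (bfrac univ g) i)]
      refine Finset.sum_congr rfl fun i _ => ?_
      rw [one_mul, max_eq_left (Pool.Agent.TH268.PD.top_nonneg _ (fun γ => bfrac_nonneg _ _ γ) i),
        min_eq_left (Pool.Agent.TH268.PD.top_le_one _ (fun γ => bfrac_nonneg _ _ γ)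
          (fun γ => bfrac_le_one _ _ γ) i)]
    rw [h4] at h3
    linarith

end Pool.Agent.K9h51.D2
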