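import Pool.Agent.K9h51.D2.Lap3

/-!
# Project D2: Green function in a good environment in the plane
-/

set_option autoImplicit false

namespace Pool.Agent.K9h51.D2

open Finset Equiv Matrix Q292.LC
open Pool.Agent.Q257.LC (pow_zero_col pow_eq_sdiff pow_bound one_bound ker_nat TT_units sh_ed
  ker_nat)

theorem harm (L N : ℕ) (hL : 1 ≤ L) (w : ℝ) (hw0 : 0 ≤ w) (hw1 : w < 1) (Z : ℝ)
    (hZ : (L : ℝ) ^ 2 ≤ Real.exp Z) :
    ∑ k ∈ range N, w ^ (k + 1) * (1 / ((k : ℝ) + 1)) ≤ 1 + Z + 1 / ((L : ℝ) ^ 2 * (1 - w)) := by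
  have hL0 : (0 : ℝ) < L := by exact_mod_cast hL
  have h1 : ∀ k ∈ range N, w ^ (k + 1) * (1 / ((k : ℝ) + 1)) ≤
      (if k < L ^ 2 then 1 / ((k : ℝ) + 1) else 0) + w ^ k / (L : ℝ) ^ 2 := by
    intro k _
    have hk0 : (0 : ℝ) < (k : ℝ) + 1 := by positivity
    have h2 : w ^ (k + 1) ≤ 1 := pow_le_one₀ hw0 hw1.le
    have h3 : w ^ (k + 1) ≤ w ^ k := pow_le_pow_of_le_one hw0 hw1.le (Nat.le_succ k)
    have h4 : 0 ≤ w ^ k := pow_nonneg hw0 k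
    split_ifs with h
    · have h5 : w ^ (k + 1) * (1 / ((k : ℝ) + 1)) ≤ 1 * (1 / ((k : ℝ) + 1)) :=
        mul_le_mul_of_nonneg_right h2 (by positivity)
      have h6 : 0 ≤ w ^ k / (L : ℝ) ^ 2 := by positivity
      linarith
    · push Not at h
      rw [zero_add, mul_one_div]
      refine div_le_div₀ h4 h3 (by positivity) ?_
      have : ((L ^ 2 : ℕ) : ℝ) ≤ (k : ℝ) := by exact_mod_cast h
      push_cast at this
      linarith
  refine (sum_le_sum h1).trans ?_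
  rw [sum_add_distrib]
  have h2 : ∑ k ∈ range N, w ^ k / (L : ℝ) ^ 2 ≤ 1 / ((L : ℝ) ^ 2 * (1 - w)) := by
    rw [← sum_div]
    have h9 : ∑ k ∈ range N, w ^ k ≤ (1 - w)⁻¹ :=
      sum_le_hasSum _ (fun k _ => pow_nonneg hw0 k) (hasSum_geometric_of_lt_one hw0 hw1)
    calc (∑ k ∈ range N, w ^ k) / (L : ℝ) ^ 2 ≤ (1 - w)⁻¹ / (L : ℝ) ^ 2 :=
          div_le_div_of_nonneg_right h9 (by positivity)
      _ = 1 / ((L : ℝ) ^ 2 * (1 - w)) := by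
          rw [one_div, mul_inv, div_eq_mul_inv, mul_comm]
  have h3 : ∑ k ∈ range N, (if k < L ^ 2 then 1 / ((k : ℝ) + 1) else 0) ≤ 1 + Z := by
    rw [← sum_filter]
    calc ∑ k ∈ (range N).filter (fun k => k < L ^ 2), 1 / ((k : ℝ) + 1)
        ≤ ∑ k ∈ range (L ^ 2), 1 / ((k : ℝ) + 1) := by
          refine sum_le_sum_of_subset_of_nonneg ?_ fun k _ _ => by positivity
          intro k hk
          rw [mem_filter] at hk
          exact mem_range.2 hk.2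
      _ = ((harmonic (L ^ 2) : ℚ) : ℝ) := by
          rw [harmonic]
          push_cast
          refine sum_congr rfl fun k _ => ?_
          rw [one_div]
      _ ≤ 1 + Real.log ((L ^ 2 : ℕ) : ℝ) := harmonic_le_one_add_log _
      _ ≤ 1 + Z := by
          have h5 : Real.log ((L ^ 2 : ℕ) : ℝ) ≤ Z := by
            rw [Real.log_le_iff_le_exp (by positivity)]
            push_cast
            exact hZ
          linarith
  linarith

theorem green2 (a : ℕ → ℝ) (w m0 K z : ℝ) (L : ℕ) (hL : 1 ≤ L) (hw0 : 0 ≤ w) (hw1 : w < 1)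
    (hz : 200 ≤ z) (hm0' : 0 ≤ m0)
    (hm0 : m0 ≤ z / (L : ℝ) ^ 2) (hK : 1 ≤ K) (hLz : (L : ℝ) ^ 2 ≤ Real.exp z)
    (ha : ∀ k, a k ≤ m0 + (1 / (32 * z ^ 39) * K / 3 * ((k : ℝ) + 1)) ^ (-(((2 : ℕ) : ℝ) / 2)))
    (N : ℕ) :
    ∑ k ∈ range N, w ^ (k + 1) * a k ≤ z ^ 41 * (1 / K + 1 / ((L : ℝ) ^ 2 * (1 - w))) := by
  have hz0 : 0 < z := by linarith
  have hL0 : (0 : ℝ) < L := by exact_mod_cast hL
  have hw : 0 < 1 - w := by linarith
  have h1 : ∀ k ∈ range N, w ^ (k + 1) * a k ≤ m0 * w ^ k +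
      96 * z ^ 39 / K * (w ^ (k + 1) * (1 / ((k : ℝ) + 1))) := by
    intro k _
    have hk0 : (0 : ℝ) < (k : ℝ) + 1 := by positivity
    have h4 : (1 / (32 * z ^ 39) * K / 3 * ((k : ℝ) + 1)) ^ (-(((2 : ℕ) : ℝ) / 2)) =
        96 * z ^ 39 / K * (1 / ((k : ℝ) + 1)) := by
      have e2 : (-(((2 : ℕ) : ℝ) / 2)) = -1 := by norm_num
      rw [e2, Real.rpow_neg_one]
      field_simp
      ring
    have h5 : w ^ (k + 1) ≤ w ^ k := pow_le_pow_of_le_one hw0 hw1.le (Nat.le_succ k)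
    have h7 : 0 ≤ w ^ (k + 1) := pow_nonneg hw0 _
    calc w ^ (k + 1) * a k ≤ w ^ (k + 1) * (m0 + 96 * z ^ 39 / K * (1 / ((k : ℝ) + 1))) := by
          rw [← h4]
          exact mul_le_mul_of_nonneg_left (ha k) h7
      _ = w ^ (k + 1) * m0 + 96 * z ^ 39 / K * (w ^ (k + 1) * (1 / ((k : ℝ) + 1))) := by ring
      _ ≤ _ := by
          have := mul_le_mul_of_nonneg_right h5 hm0'
          linarith
  refine (sum_le_sum h1).trans ?_
  rw [sum_add_distrib, ← mul_sum, ← mul_sum]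
  have h9 : ∑ k ∈ range N, w ^ k ≤ (1 - w)⁻¹ :=
    sum_le_hasSum _ (fun k _ => pow_nonneg hw0 k) (hasSum_geometric_of_lt_one hw0 hw1)
  have h10 := harm L N hL w hw0 hw1 z hLz
  obtain ⟨g, hg⟩ : ∃ g : ℝ, g = 1 / ((L : ℝ) ^ 2 * (1 - w)) := ⟨_, rfl⟩
  have hg0 : 0 < g := by rw [hg]; positivity
  have h11 : m0 * ∑ k ∈ range N, w ^ k ≤ z * g := by
    calc m0 * ∑ k ∈ range N, w ^ k ≤ (z / (L : ℝ) ^ 2) * (1 - w)⁻¹ :=
          mul_le_mul hm0 h9 (sum_nonneg fun k _ => pow_nonneg hw0 k) (by positivity)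
      _ = z * g := by
          rw [hg, one_div, mul_inv]
          ring
  have h12 : 96 * z ^ 39 / K * ∑ k ∈ range N, w ^ (k + 1) * (1 / ((k : ℝ) + 1)) ≤
      96 * z ^ 39 / K * (1 + z + g) := by
    rw [hg]
    exact mul_le_mul_of_nonneg_left h10 (by positivity)
  have h13 : 96 * z ^ 39 / K * (1 + z + g) ≤ z ^ 41 * (1 / K) + 96 * z ^ 39 * g := by
    have e1 : 96 * z ^ 39 / K * (1 + z + g) = 96 * z ^ 39 * (1 + z) * (1 / K) +
        96 * z ^ 39 / K * g := by ring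
    rw [e1]
    have h14 : 96 * z ^ 39 * (1 + z) ≤ z ^ 41 := by
      have e2 : z ^ 41 = z ^ 39 * z ^ 2 := by ring
      rw [e2]
      have : 96 * (1 + z) ≤ z ^ 2 := by nlinarith
      calc 96 * z ^ 39 * (1 + z) = z ^ 39 * (96 * (1 + z)) := by ring
        _ ≤ z ^ 39 * z ^ 2 := mul_le_mul_of_nonneg_left this (by positivity)
    have h15 : 96 * z ^ 39 / K ≤ 96 * z ^ 39 := div_le_self (by positivity) hK
    have h16 : 0 ≤ 1 / K := by positivity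
    exact add_le_add (mul_le_mul_of_nonneg_right h14 h16) (mul_le_mul_of_nonneg_right h15 hg0.le)
  have h17 : z * g + 96 * z ^ 39 * g ≤ z ^ 41 * g := by
    have h18 : z ≤ z ^ 39 := le_self_pow₀ (by linarith) (by norm_num)
    have h19 : z + 96 * z ^ 39 ≤ z ^ 41 := by
      have e2 : z ^ 41 = z ^ 2 * z ^ 39 := by ring
      rw [e2]
      have : (97 : ℝ) ≤ z ^ 2 := by nlinarith
      have h20 : 0 < z ^ 39 := by positivity
      nlinarith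
    calc z * g + 96 * z ^ 39 * g = (z + 96 * z ^ 39) * g := by ring
      _ ≤ z ^ 41 * g := mul_le_mul_of_nonneg_right h19 hg0.le
  rw [← hg, mul_add]
  linarith

theorem ker2 : ∃ C : ℕ, 1 ≤ C ∧ ∀ Z : ℕ, C ≤ Z →
    ∀ (L K lam r ρ κ₀ : ℕ) [NeZero L], lam ≤ Z → ρ ≤ Z → κ₀ + 1 ≤ Z → (L : ℝ) ^ 2 ≤ Real.exp Z →
    Z ^ 46 ≤ r → 8 * Z ^ 46 ≤ L → Z ^ 46 ≤ K → ∃ q₀ : ℕ, ∀ q ≥ q₀,
    ∀ σ : ℕ → (Fin 2 → ZMod L) × Fin 2, Per σ → ∀ δ : ℝ, 1 ≤ δ * q → δ * q ≤ 2 →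
    ∀ (ω : ℕ → Bool) (R : Finset (Fin 2 → ZMod L)), Gd σ q K lam r ρ κ₀ ω R →
    ∀ (w : ℝ) (U : Finset (Fin 2 → ZMod L)) (x y : Fin 2 → ZMod L), 0 ≤ w → w < 1 →
    Disjoint U R → x ∉ R → x ∉ U → y ∉ U → ∀ N : ℕ,
    ∑ k ∈ Finset.range N, w ^ (k + 1) * (TT (ed ∘ σ) ω R δ (K * (q * ms 2 L)) *
      (dg U * TT (ed ∘ σ) ω R δ (K * (q * ms 2 L))) ^ k) x y ≤
      (Z : ℝ) ^ 41 * (1 / K + 1 / ((L : ℝ) ^ 2 * (1 - w))) := by
  obtain ⟨Cl, hCl, hlap⟩ := lap2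
  have hB1 := Pool.Agent.Q68.LC.bas1
  have hB2 := Pool.Agent.Q68.LC.bas2
  have hGE := Pool.Agent.Q277.LC.ge
  have hSUB := Pool.Agent.Q277.LC.sub
  have hREV := Pool.Agent.Q187.LC.Rev.rev
  refine ⟨Cl + 200, by omega, ?_⟩
  intro Z hZ L K lam r ρ κ₀ _ hlam hρ hκ hLd hr hL hK
  have hZ0 : 0 < Z := by omega
  obtain ⟨n1, n2, n3, n4, n5, n6, hL3, n8, n9, n10⟩ :=
    ker_nat Z 44 r ρ K L (by omega) hρ hr hL hK
  have hp43 : Z ^ 43 ≤ Z ^ 44 := Nat.pow_le_pow_right hZ0 (by norm_num)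
  obtain ⟨q1, hq1⟩ := hlap Z (by omega) L K lam (r - ρ) ρ (κ₀ + 1) hlam hρ hκ hLd
    (hp43.trans n1) (by omega) n4
  obtain ⟨q2, hq2⟩ := hlap Z (by omega) L (K / 2) lam (r - ρ) ρ (κ₀ + 1) hlam hρ hκ hLd
    (hp43.trans n1) (by omega) n5
  obtain ⟨q3, hq3⟩ := hlap Z (by omega) L (K - K / 2) lam (r - ρ) ρ (κ₀ + 1) hlam hρ hκ hLd
    (hp43.trans n1) (by omega) n6
  refine ⟨q1 + q2 + q3 + 2, ?_⟩
  intro q hq σ hσ δ h1 h2 ω R hGd w U x y hw0 hw1 hUR hxR hxU hyU N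
  have hqr : (2 : ℝ) ≤ q := by
    have : 2 ≤ q := by omega
    exact_mod_cast this
  have hδ : 0 < δ := by
    by_contra h
    push Not at h
    nlinarith
  have hδ1 : δ ≤ 1 := by nlinarith
  have hEv : Ev σ q K lam (r - ρ) ρ (κ₀ + 1) ω R :=
    hGE 2 L hL3 σ hσ q K lam (r - ρ) ρ κ₀ ω R (by omega) n10 (by rw [n2]; exact hGd)
  obtain ⟨hσr, hEvr, hTr⟩ := hREV 2 L (by norm_num) hL3 σ hσ q K lam (r - ρ) ρ (κ₀ + 1) ω R δ
  have hB := hB2 _ (ed ∘ σ) ω R δ hδ.le hδ1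
  obtain ⟨T, hT⟩ : ∃ T, T = TT (ed ∘ σ) ω R δ (K * (q * ms 2 L)) := ⟨_, rfl⟩
  obtain ⟨R', hR'⟩ : ∃ R', R' = R.image (gp (ed ∘ σ) ω (K * (q * ms 2 L))) := ⟨_, rfl⟩
  have hT0 : ∀ x y, 0 ≤ T x y := by
    rw [hT]
    exact hB.1 _
  have hrow : ∀ x, ∑ y, T x y = 1 := by
    rw [hT]
    exact hB.2.1 _
  have hcol : ∀ y, ∑ x, T x y = 1 := by
    rw [hT]
    exact hB.2.2.1 _
  have hz : ∀ a, a ∉ R → ∀ b ∈ R', T a b = 0 := by
    rw [hT, hR']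
    exact hB.2.2.2.2.1 _
  have hL0 : (0 : ℝ) < L := by
    have : 0 < L := by omega
    exact_mod_cast this
  have hK0 : (0 : ℝ) < K := by exact_mod_cast n10
  have hZr : (200 : ℝ) ≤ Z := by
    have : 200 ≤ Z := by omega
    exact_mod_cast this
  have hZpos : (0 : ℝ) < Z := by linarith
  obtain ⟨c, hc⟩ : ∃ c : ℝ, c = 1 / (32 * (Z : ℝ) ^ 39) := ⟨_, rfl⟩
  have hc0 : 0 < c := by rw [hc]; positivity
  obtain ⟨m0, hm0⟩ : ∃ m0 : ℝ, m0 = Cl / (L : ℝ) ^ 2 := ⟨_, rfl⟩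
  have hm0n : 0 ≤ m0 := by
    rw [hm0]
    positivity
  rw [← hT]
  have hw : 0 < 1 - w := by linarith
  by_cases hy : y ∈ R'
  · have h3 : ∀ k ∈ range N, w ^ (k + 1) * (T * (dg U * T) ^ k) x y = 0 := fun k _ => by
      rw [pow_zero_col T R R' U hUR hz k x hxR y hy, mul_zero]
    rw [sum_eq_zero h3]
    positivity
  · -- the kernel of all powers
    have hUR2 : Disjoint (U \ R') R := disjoint_of_subset_left sdiff_subset hUR
    have hUR3 : Disjoint (U \ R') R' := sdiff_disjoint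
    have hLap1 : ∀ f : (Fin 2 → ZMod L) → ℝ, (∀ x, 0 ≤ f x) → (∀ x ∈ R, f x = 0) →
        ∑ x, f x ≤ 1 → ∑ x, (vecMul f T x) ^ 2 ≤
        max m0 (((∑ x, (f x) ^ 2) ^ (-(2 / ((2 : ℕ) : ℝ))) + c * K) ^ (-(((2 : ℕ) : ℝ) / 2))) := by
      rw [hT, hm0, hc]
      exact hq1 q (by omega) σ hσ δ h1 h2 ω R hEv
    have hLap2 : ∀ f : (Fin 2 → ZMod L) → ℝ, (∀ x, 0 ≤ f x) → (∀ x ∈ R', f x = 0) →
        ∑ x, f x ≤ 1 → ∑ x, (vecMul f Tᵀ x) ^ 2 ≤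
        max m0 (((∑ x, (f x) ^ 2) ^ (-(2 / ((2 : ℕ) : ℝ))) + c * K) ^ (-(((2 : ℕ) : ℝ) / 2))) := by
      rw [hT, hR', hm0, hc, ← hTr]
      exact hq1 q (by omega) (rvs σ) hσr δ h1 h2 _ _ (hEvr hEv)
    have hpow : ∀ k : ℕ, (T * (dg U * T) ^ k) x y ≤
        m0 + (c * K / 3 * ((k : ℝ) + 1)) ^ (-(((2 : ℕ) : ℝ) / 2)) := by
      intro k
      rcases Nat.eq_zero_or_pos k with hk | hk
      · subst hk
        rw [pow_zero, Matrix.mul_one]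
        -- two halves
        obtain ⟨K1, hK1⟩ : ∃ K1, K1 = K / 2 := ⟨_, rfl⟩
        obtain ⟨K2, hK2⟩ : ∃ K2, K2 = K - K / 2 := ⟨_, rfl⟩
        have hKK : K = K1 + K2 := by omega
        obtain ⟨T1, hT1⟩ : ∃ T1, T1 = TT (ed ∘ σ) ω R δ (K1 * (q * ms 2 L)) := ⟨_, rfl⟩
        obtain ⟨ω1, hω1⟩ : ∃ ω1 : ℕ → Bool, ω1 = sh (K1 * (q * ms 2 L)) ω := ⟨_, rfl⟩
        obtain ⟨R1, hR1⟩ : ∃ R1, R1 = R.image (gp (ed ∘ σ) ω (K1 * (q * ms 2 L))) := ⟨_, rfl⟩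
        obtain ⟨T2, hT2⟩ : ∃ T2, T2 = TT (ed ∘ σ) ω1 R1 δ (K2 * (q * ms 2 L)) := ⟨_, rfl⟩
        have hTT : T = T1 * T2 := by
          rw [hT, hT1, hT2, hω1, hR1, hKK]
          exact TT_units hB2 hσ ω R hδ.le hδ1 q K1 K2
        have hE1 : Ev σ q K1 lam (r - ρ) ρ (κ₀ + 1) ω R := by
          have h4 := (hSUB 2 L hL3 σ hσ q K lam (r - ρ) ρ (κ₀ + 1) ω R hEv 0 K1 (by omega)).2
          have h5 : sh (0 * (q * ms 2 L)) ω = ω := by
            funext k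
            simp [sh]
          have h6 : R.image (gp (ed ∘ σ) ω (0 * (q * ms 2 L))) = R := by
            rw [Nat.zero_mul]
            simp [gp]
          rw [h5, h6] at h4
          exact h4
        have hE2 : Ev σ q K2 lam (r - ρ) ρ (κ₀ + 1) ω1 R1 := by
          rw [hω1, hR1]
          exact (hSUB 2 L hL3 σ hσ q K lam (r - ρ) ρ (κ₀ + 1) ω R hEv K1 K2 (by omega)).2
        obtain ⟨-, hEvr2, hTr2⟩ := hREV 2 L (by norm_num) hL3 σ hσ q K2 lam (r - ρ) ρ (κ₀ + 1) ω1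
          R1 δ
        have hB1' := hB2 _ (ed ∘ σ) ω R δ hδ.le hδ1
        have hB2' := hB2 _ (ed ∘ σ) ω1 R1 δ hδ.le hδ1
        have hy2 : y ∉ R1.image (gp (ed ∘ σ) ω1 (K2 * (q * ms 2 L))) := by
          intro h7
          apply hy
          rw [hR1, image_image] at h7
          rw [hR', hKK, add_mul, (hB1 _ (ed ∘ σ) ω).1, sh_ed hσ, ← hω1]
          obtain ⟨a, ha, hay⟩ := mem_image.1 h7
          exact mem_image.2 ⟨a, ha, hay⟩
        rw [hTT]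
        refine one_bound T1 T2 ?_ ?_ ?_ ?_ ?_ ?_ R
          (R1.image (gp (ed ∘ σ) ω1 (K2 * (q * ms 2 L)))) 2 (by norm_num) m0 c K K1 K2 hc0 hK0
          ?_ ?_ hm0n ?_ ?_ x y hxR hy2
        · rw [hT1]
          exact hB1'.1 _
        · rw [hT1]
          exact hB1'.2.1 _
        · rw [hT1]
          exact hB1'.2.2.1 _
        · rw [hT2]
          exact hB2'.1 _
        · rw [hT2]
          exact hB2'.2.1 _
        · rw [hT2]
          exact hB2'.2.2.1 _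
        · rw [hK1]
          exact_mod_cast n8
        · rw [hK2]
          exact_mod_cast n9
        · rw [hT1, hm0, hK1, hc]
          rw [hK1] at hE1
          exact hq2 q (by omega) σ hσ δ h1 h2 ω R hE1
        · rw [hT2, hm0, ← hTr2, hc]
          have hE3 := hEvr2 hE2
          subst hK2
          exact hq3 q (by omega) (rvs σ) hσr δ h1 h2 _ _ hE3
      · rw [pow_eq_sdiff T R R' U hUR hz k x hxR y]
        exact pow_bound T hT0 hrow hcol R R' (U \ R') hUR2 hUR3 2 (by norm_num) m0 c K hc0 hK0 hm0n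
          hLap1 hLap2 x y hxR hy k hk
    rw [hc] at hpow
    refine green2 (fun k => (T * (dg U * T) ^ k) x y) w m0 K Z L (by omega) hw0 hw1 hZr hm0n ?_
      (by exact_mod_cast n10) hLd hpow N
    rw [hm0]
    refine div_le_div_of_nonneg_right ?_ (by positivity)
    exact_mod_cast (by omega : Cl ≤ Z)

end Pool.Agent.K9h51.D2
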