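import Pool.Agent.K9h51.D2.Omp2
import Pool.Agent.K9h51.D2.Ker2

/-!
# Project D2: marked particles are sparse in the plane
-/

set_option autoImplicit false
set_option linter.unusedSectionVars false
set_option linter.unusedVariables false

namespace Pool.Agent.K9h51.D2

open Finset Equiv Matrix Q292.LC
open Pool.Agent.Q277.LC (bd_of_ker del_pos gd_of_om PE_ind peb mrk omr card_bal_le ms_pos')
open Pool.Agent.Q151.LC (sig_per mem_bal)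
open Pool.Agent.Q68.LC (EE_congr EE_const EE_add EE_smul EE_mono EE_succ)

/-- the hypothesis on the bordered determinants -/
theorem bd2 : ∃ C : ℕ, 1 ≤ C ∧ ∀ Z : ℕ, C ≤ Z →
    ∀ (L K lam r ρ κ₀ : ℕ) [NeZero L], lam ≤ Z → ρ ≤ Z → κ₀ + 1 ≤ Z → (L : ℝ) ^ 2 ≤ Real.exp Z →
    Z ^ 46 ≤ r → 8 * Z ^ 46 ≤ L → Z ^ 46 ≤ K → ∃ q₀ : ℕ, ∀ q ≥ q₀,
    ∀ σ : ℕ → (Fin 2 → ZMod L) × Fin 2, Per σ → ∀ δ : ℝ, 1 ≤ δ * q → δ * q ≤ 2 →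
    ∀ w : ℝ, w < 1 → ∀ κ : ℝ, (Z : ℝ) ^ 41 * (1 / K + 1 / ((L : ℝ) ^ 2 * (1 - w))) ≤ κ →
    ∀ (ω : ℕ → Bool) (R : Finset (Fin 2 → ZMod L)), Gd σ q K lam r ρ κ₀ ω R →
      ∀ w' : ℝ, 0 ≤ w' → w' ≤ w → ∀ U : Finset (Fin 2 → ZMod L), Disjoint U R →
      ∀ x, x ∉ R → x ∉ U → ∀ y, y ∉ U →
      bd w' U (TT (ed ∘ σ) ω R δ (K * (q * ms 2 L))) x y -
        dS w' U (TT (ed ∘ σ) ω R δ (K * (q * ms 2 L))) ≤
        κ * dS w' U (TT (ed ∘ σ) ω R δ (K * (q * ms 2 L))) := by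
  obtain ⟨C1, hC1, hK1⟩ := ker2
  refine ⟨C1, hC1, ?_⟩
  intro Z hZ L K lam r ρ κ₀ _ h1 h2 h3 h4 h5 h6 h7
  obtain ⟨q1, hq1⟩ := hK1 Z hZ L K lam r ρ κ₀ h1 h2 h3 h4 h5 h6 h7
  refine ⟨max q1 2, ?_⟩
  intro q hq σ hσ δ hδ1 hδ2 w hw1 κ hκ
  have e1 : q1 ≤ q := le_trans (le_max_left _ _) hq
  have e4 : 2 ≤ q := le_trans (le_max_right _ _) hq
  obtain ⟨hδ0, hδle⟩ := del_pos e4 hδ1 hδ2
  have hL0 : 0 < L := Nat.pos_of_ne_zero (NeZero.ne L)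
  have hpow : (K : ℝ) ^ (-(((2 : ℕ) : ℝ) / 2)) = 1 / K := by
    have : (-(((2 : ℕ) : ℝ) / 2)) = -1 := by norm_num
    rw [this, Real.rpow_neg_one, one_div]
  refine bd_of_ker σ q K lam r ρ κ₀ ((Z : ℝ) ^ 41) δ w κ (by positivity) hδ0.le hδle hw1 hL0 ?_ ?_
  · rw [hpow]
    exact hκ
  · intro ω R hG w'' U x y hw0 hw1' hUR hx hxU hy N
    rw [hpow]
    exact hq1 q e1 σ hσ δ hδ1 hδ2 ω R hG w'' U x y hw0 hw1' hUR hx hxU hy N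

open Classical in
theorem btl2 : ∃ C : ℕ, 1 ≤ C ∧ ∀ Z : ℕ, C ≤ Z →
    ∀ (L K Y lam r ρ κ₀ : ℕ) [NeZero L], lam ≤ Z → ρ ≤ Z → 2 * κ₀ + 1 ≤ Z → 1 ≤ Y → Y ≤ Z →
    (L : ℝ) ^ 2 ≤ Real.exp Y → Z ^ 46 ≤ r → 8 * Z ^ 46 ≤ L → Z ^ 46 ≤ K → K ≤ L ^ 2 * Y →
    ∃ q₀ : ℕ, ∀ q ≥ q₀,
    ∀ σ : ℕ → (Fin 2 → ZMod L) × Fin 2, Per σ → ∀ δ : ℝ, 1 ≤ δ * q → δ * q ≤ 2 →
    ∀ w : ℝ, 0 ≤ w → w < 1 → ∀ κ : ℝ,
    κ = (Z : ℝ) ^ 41 * (1 / K + 1 / ((L : ℝ) ^ 2 * (1 - w))) → (lam + 2) * κ ≤ 1 →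
    PW (ed ∘ σ) (K * (q * ms 2 L)) δ w (fun ω A => ¬ Gd σ q K lam r ρ (2 * κ₀) ω A) ≤
      C * Y * ((L : ℝ) ^ 4 * Real.exp (-(ρ : ℝ)) + (L : ℝ) ^ 4 * (1 / 2) ^ (κ₀ / (C * Y))) +
      K * (L : ℝ) ^ 4 * (lam + 1) * ((2 * r + 1 : ℕ) : ℝ) ^ 2 *
        (((2 * r + 1 : ℕ) : ℝ) ^ 2 * ((lam + 2) * κ)) ^ lam ∧
    ∀ x, PW (ed ∘ σ) (K * (q * ms 2 L)) δ w
      (fun ω A => x ∈ A ∧ Gd σ q K lam r ρ (2 * κ₀) ω A) ≤ κ := by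
  obtain ⟨C1, hC1, hK1⟩ := bd2
  obtain ⟨C3, hC3, hO3⟩ := omp2
  obtain ⟨C, hC⟩ : ∃ C, C = max C1 C3 := ⟨_, rfl⟩
  have c1 : C1 ≤ C := by rw [hC]; exact le_max_left _ _
  have c3 : C3 ≤ C := by rw [hC]; exact le_max_right _ _
  refine ⟨C, by omega, ?_⟩
  intro Z hZ L K Y lam r ρ κ₀ _ h1 h2 h3 hY1 hYZ h4 h5 h6 h7 h8
  have hZ1 : 1 ≤ Z := by omega
  have hZm : 1 ≤ Z ^ 46 := Nat.one_le_pow _ _ hZ1
  have hL3 : 3 ≤ L := by omega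
  have hLZ : (L : ℝ) ^ 2 ≤ Real.exp Z := h4.trans (Real.exp_le_exp.2 (by exact_mod_cast hYZ))
  obtain ⟨q1, hq1⟩ := hK1 Z (by omega) L K lam r ρ (2 * κ₀) h1 h2 h3 hLZ h5 h6 h7
  obtain ⟨q3, hq3⟩ := hO3 L hL3 K Y hY1 h4 h8 ρ κ₀
  refine ⟨max (max q1 2) q3, ?_⟩
  intro q hq σ hσ δ hδ1 hδ2 w hw0 hw1 κ hκ hlκ
  have e1 : q1 ≤ q := le_trans (le_trans (le_max_left _ _) (le_max_left _ _)) hq
  have e3 : q3 ≤ q := le_trans (le_max_right _ _) hq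
  have e4 : 2 ≤ q := le_trans (le_trans (le_max_right _ _) (le_max_left _ _)) hq
  obtain ⟨hδ0, hδle⟩ := del_pos e4 hδ1 hδ2
  have hL0 : 0 < L := Nat.pos_of_ne_zero (NeZero.ne L)
  have hLp : (0 : ℝ) < (L : ℝ) ^ 2 := by
    have : (0 : ℝ) < L := by exact_mod_cast hL0
    positivity
  have hbr : 0 ≤ (1 / (K : ℝ) + 1 / ((L : ℝ) ^ 2 * (1 - w))) := by
    have : 0 < 1 - w := by linarith
    positivity
  have hκ0 : 0 ≤ κ := by rw [hκ]; positivity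
  have hK1' : 0 < K := by omega
  have hms : 0 < ms 2 L := ms_pos' (by omega)
  have hU : 0 < q * ms 2 L := Nat.mul_pos (by omega) hms
  obtain ⟨P1, P2, P3, P4, P5, P6⟩ := peb (Fin 2 → ZMod L) (ed ∘ σ) (K * (q * ms 2 L)) δ w
    hδ0.le hδle hw0 hw1
  obtain ⟨g1, g2⟩ := Pool.Agent.Q154.LC.gdm 2 L σ q K lam r ρ (2 * κ₀)
  constructor
  · have hbad := Pool.Agent.Q257.LC.badp (Fin 2 → ZMod L) (ed ∘ σ) (q * ms 2 L) K lam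
      ((2 * r + 1) ^ 2) δ w κ (fun v => bal v r) (fun ω => Om σ q K ρ κ₀ ω)
      (fun ω R => Gd σ q K lam r ρ (2 * κ₀) ω R) hδ0.le hδle hw0 hw1 hκ0 hlκ hU hK1'
      (fun k => by simp only [Function.comp_apply]; rw [sig_per hσ])
      (fun v => card_bal_le v r) g1 g2
      (hq1 q e1 σ hσ δ hδ1 hδ2 w hw1 κ hκ.ge)
      (fun ω hOm j hj R hR => omr 2 L (by omega) hL3 σ hσ q K lam r ρ κ₀ j ω (by omega) hj hOm R hR)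
    have hcard : (Fintype.card (Fin 2 → ZMod L) : ℝ) = (L : ℝ) ^ 2 := by
      rw [Fintype.card_fun, Fintype.card_fin, ZMod.card]
      push_cast
      rfl
    rw [hcard] at hbad
    obtain ⟨b, hb⟩ : ∃ b : ℕ, b = (2 * r + 1) ^ 2 := ⟨_, rfl⟩
    have hbR : ((2 * r + 1 : ℕ) : ℝ) ^ 2 = (b : ℝ) := by rw [hb]; push_cast; ring
    rw [← hb] at hbad
    rw [hbR]
    have hch : (b.choose (lam + 1) : ℝ) ≤ (b : ℝ) ^ (lam + 1) := by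
      exact_mod_cast Nat.choose_le_pow b (lam + 1)
    have t2 : PW (ed ∘ σ) (K * (q * ms 2 L)) δ w (fun ω A => Om σ q K ρ κ₀ ω ∧
        viol (ed ∘ σ) (q * ms 2 L) K (fun v => bal v r) lam ω A) ≤
        K * (L : ℝ) ^ 4 * (lam + 1) * (b : ℝ) * ((b : ℝ) * ((lam + 2) * κ)) ^ lam := by
      refine le_trans hbad ?_
      have hx0 : 0 ≤ ((lam : ℝ) + 2) * κ := by positivity
      calc (K : ℝ) * ((L : ℝ) ^ 2) ^ 2 * (b.choose (lam + 1) : ℝ) * (lam + 1) * ((lam + 2) * κ) ^ lam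
          ≤ (K : ℝ) * ((L : ℝ) ^ 2) ^ 2 * (b : ℝ) ^ (lam + 1) * (lam + 1) * ((lam + 2) * κ) ^ lam := by
            have h8 : 0 ≤ ((lam : ℝ) + 2) * κ := hx0
            gcongr
        _ = K * (L : ℝ) ^ 4 * (lam + 1) * (b : ℝ) * ((b : ℝ) * ((lam + 2) * κ)) ^ lam := by
            rw [mul_pow (b : ℝ), pow_succ]
            ring
    have t3 := hq3 q e3 σ hσ δ hδ1 hδ2
    rw [← P5]
    refine le_trans (P4 _ (fun ω A =>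
          (if Om σ q K ρ κ₀ ω then (0 : ℝ) else 1) +
          (if Om σ q K ρ κ₀ ω ∧ viol (ed ∘ σ) (q * ms 2 L) K (fun v => bal v r) lam ω A
            then (1 : ℝ) else 0)) ?_) ?_
    · intro ω A _
      by_cases ho : Om σ q K ρ κ₀ ω
      · by_cases hv : viol (ed ∘ σ) (q * ms 2 L) K (fun v => bal v r) lam ω A
        · simp only [ho, hv, and_self, if_true]
          split_ifs <;> norm_num
        · have hGd := gd_of_om σ q K lam r ρ κ₀ ω A ho hv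
          simp only [hGd, ho, hv, not_true_eq_false, and_false, if_true, if_false]
          norm_num
      · simp only [ho, false_and, if_false]
        split_ifs <;> norm_num
    rw [P2, P1, PE_ind]
    refine add_le_add ?_ t2
    refine le_trans t3 ?_
    have hYp : (0 : ℝ) < Y := by exact_mod_cast hY1
    have s1 : (1 / 2 : ℝ) ^ (κ₀ / (C3 * Y)) ≤ (1 / 2) ^ (κ₀ / (C * Y)) := by
      refine pow_le_pow_of_le_one (by norm_num) (by norm_num) ?_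
      exact Nat.div_le_div_left (Nat.mul_le_mul_right _ c3) (Nat.mul_pos (by omega) hY1)
    have s2 : (C3 : ℝ) ≤ C := by exact_mod_cast c3
    have s3 : 0 ≤ Real.exp (-(ρ : ℝ)) := (Real.exp_pos _).le
    have s4 : (0 : ℝ) ≤ (L : ℝ) ^ 4 := by positivity
    calc (C3 : ℝ) * Y * ((L : ℝ) ^ 4 * Real.exp (-(ρ : ℝ)) +
          (L : ℝ) ^ 4 * (1 / 2) ^ (κ₀ / (C3 * Y)))
        ≤ (C : ℝ) * Y * ((L : ℝ) ^ 4 * Real.exp (-(ρ : ℝ)) +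
          (L : ℝ) ^ 4 * (1 / 2) ^ (κ₀ / (C3 * Y))) :=
          mul_le_mul_of_nonneg_right (mul_le_mul_of_nonneg_right s2 hYp.le) (by positivity)
      _ ≤ _ := by
          refine mul_le_mul_of_nonneg_left ?_ (by positivity)
          have := mul_le_mul_of_nonneg_left s1 s4
          linarith
  · intro x
    refine mrk (Fin 2 → ZMod L) (ed ∘ σ) (K * (q * ms 2 L)) δ w κ
      (fun ω A => Gd σ q K lam r ρ (2 * κ₀) ω A) hδ0.le hδle hw0 hw1 hκ0 g1 g2 ?_ x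
    intro ω R hG U hUR x hxR hxU y hyU
    exact hq1 q e1 σ hσ δ hδ1 hδ2 w hw1 κ hκ.ge ω R hG w hw0 le_rfl U hUR x hxR hxU y hyU

end Pool.Agent.K9h51.D2
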