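import Pool.Agent.K9h51.D2.Near2
import Pool.Agent.Q257.LC.KerU

/-!
# Project D2: one window in a sparse environment in the plane
-/

set_option autoImplicit false

namespace Pool.Agent.K9h51.D2

open Finset Equiv Matrix Q292.LC
open Pool.Agent.Q257.LC (td_comm td_self td_tri mem_bal bal_mono cc_nonneg Aj fj fj_nonneg fj_sum
  fj_zero fj_add fj_mono card_V SMOb NASb FREb smooth vecMul_sq_le sum_vecMul_sq_le)
open Pool.Agent.Q277.LC (card_bal_le)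

section pieces

variable {L : ℕ} [NeZero L]

/-- points far from the particles have a small contact number -/
theorem cc_far (hL : 3 ≤ L) (σ : ℕ → (Fin 2 → ZMod L) × Fin 2) (hσ : Per σ) (ω : ℕ → Bool)
    (A : Finset (Fin 2 → ZMod L)) {δ τ : ℝ} {q u ρ lam r κ₀ D' D : ℕ}
    (hδ : 0 < δ) (h2 : 4 * δ ≤ 1) (h3 : δ * q ≤ 2) (hτ : 0 ≤ τ)
    (hE : Ev σ q u lam r ρ κ₀ ω A)
    (htail : ∀ k ≤ u * (q * ms 2 L), ∀ y, ∑ x ∈ univ.filter (fun x => D' < td x y),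
      PP (ed ∘ σ) δ k x y ≤ τ)
    (hD : D' + ρ + 1 + ρ * u ≤ D) (x : Fin 2 → ZMod L) (hx : x ∉ nbh A D) :
    x ∉ A ∧ cc (ed ∘ σ) ω A δ (u * (q * ms 2 L)) x ≤ (8 * ρ + 32) * (u * (τ * (L : ℝ) ^ 2)) := by
  obtain ⟨-, hE2, -⟩ := hE
  have hxA : x ∉ A := fun h => hx ((mem_nbh _ _ _).2 ⟨x, h, by rw [td_self]; exact Nat.zero_le _⟩)
  refine ⟨hxA, ?_⟩
  have hδ1 : δ ≤ 1 := by linarith
  have h4 := (Pool.Agent.Q151.LC.con2 Pool.Agent.Q187.LC.Tch.tch) 2 L (by norm_num) hL σ hσ ω A δ τ q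
    u ρ 0 D' x hδ (by push_cast; linarith) h3 hτ hE2 htail
  have h5 : cc (ed ∘ σ) ω A δ (u * (q * ms 2 L)) x ≤
      ∑ x' ∈ bal x 0, cc (ed ∘ σ) ω A δ (u * (q * ms 2 L)) x' := by
    refine Finset.single_le_sum (f := fun x' => cc (ed ∘ σ) ω A δ (u * (q * ms 2 L)) x')
      (fun x' _ => cc_nonneg Pool.Agent.Q68.LC.bas2 _ ω A hδ.le hδ1 _ x') ?_
    rw [mem_bal, td_self]
  refine h5.trans (h4.trans ?_)
  have h6 : ∀ j ∈ Finset.range u, ((((A.image (gp (ed ∘ σ) ω (j * (q * ms 2 L)))) ∩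
      bal x (0 + D' + ρ + 1)).card : ℝ) + τ * A.card) ≤ τ * (L : ℝ) ^ 2 := by
    intro j hj
    rw [Finset.mem_range] at hj
    have h7 : (A.image (gp (ed ∘ σ) ω (j * (q * ms 2 L)))) ∩ bal x (0 + D' + ρ + 1) = ∅ := by
      rw [Finset.eq_empty_iff_forall_notMem]
      intro y hy
      rw [mem_inter, mem_image, mem_bal] at hy
      obtain ⟨⟨a, ha, rfl⟩, hy2⟩ := hy
      apply hx
      rw [mem_nbh]
      refine ⟨a, ha, ?_⟩
      have h8 := Pool.Agent.Q151.LC.jumps_units (ed ∘ σ) ω a (q * ms 2 L) ρ u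
        (fun j hj => hE2 j hj a ha)
      have h9 := Pool.Agent.Q151.LC.td_zero σ ω (j * (q * ms 2 L)) (u * (q * ms 2 L)) (ρ * u) a
        (Nat.mul_le_mul_right _ hj.le) h8
      have h10 := td_tri x (gp (ed ∘ σ) ω (j * (q * ms 2 L)) a) a
      omega
    rw [h7, Finset.card_empty, Nat.cast_zero, zero_add]
    refine mul_le_mul_of_nonneg_left ?_ hτ
    have h11 : A.card ≤ L ^ 2 := by
      rw [← card_V (d := 2) (L := L)]
      exact card_le_univ _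
    exact_mod_cast h11
  calc ((8 : ℝ) * ρ + 16 * ((2 : ℕ) : ℝ)) * ∑ j ∈ Finset.range u,
        ((((A.image (gp (ed ∘ σ) ω (j * (q * ms 2 L)))) ∩ bal x (0 + D' + ρ + 1)).card : ℝ) +
          τ * A.card)
      ≤ ((8 : ℝ) * ρ + 16 * ((2 : ℕ) : ℝ)) * ∑ _j ∈ Finset.range u, τ * (L : ℝ) ^ 2 :=
        mul_le_mul_of_nonneg_left (sum_le_sum h6) (by positivity)
    _ = (8 * ρ + 32) * (u * (τ * (L : ℝ) ^ 2)) := by
        rw [sum_const, card_range, nsmul_eq_mul]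
        push_cast
        ring

/-- decrease of the square norm in a window -/
theorem diss (hL : 3 ≤ L) (σ : ℕ → (Fin 2 → ZMod L) × Fin 2) (hσ : Per σ) (ω : ℕ → Bool)
    (A : Finset (Fin 2 → ZMod L)) {δ p : ℝ} {n D : ℕ} (hδ : 0 ≤ δ) (hδ1 : δ ≤ 1) (hp : 0 < p)
    (hpp : ∀ x y, td x y ≤ 2 → p ≤ PP (ed ∘ σ) δ n x y)
    (hfar : ∀ x, x ∉ nbh A D → x ∉ A ∧ cc (ed ∘ σ) ω A δ n x ≤ p / 8)
    (f : (Fin 2 → ZMod L) → ℝ) :
    p ^ 2 / 16 * Eg A D f ≤ ∑ x, f x ^ 2 - ∑ x, (vecMul f (TT (ed ∘ σ) ω A δ n) x) ^ 2 := by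
  have hb1 : (1 : ℝ) ≤ (bal (0 : Fin 2 → ZMod L) 1).card := by
    have h9 : (0 : Fin 2 → ZMod L) ∈ bal (0 : Fin 2 → ZMod L) 1 := by
      rw [mem_bal, td_self]
      exact Nat.zero_le _
    exact_mod_cast Finset.card_pos.2 ⟨_, h9⟩
  have h := (Pool.Agent.Q151.LC.nea 2 L (by norm_num) hL σ hσ ω A (nbh A D) δ (p / 8) p n 1 hδ hδ1
    hp (by positivity) (fun x y hxy => hpp x y (by omega)) hfar (by nlinarith) f).1
  have hE0 : 0 ≤ Eg A D f := by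
    unfold Eg
    refine sum_nonneg fun x _ => sum_nonneg fun y _ => ?_
    split_ifs
    · exact sq_nonneg _
    · exact le_rfl
  have h2 : p ^ 2 / 16 * Eg A D f ≤ p ^ 2 * (bal (0 : Fin 2 → ZMod L) 1).card / 16 *
      ∑ x, ∑ y, (if x ∉ nbh A D ∧ y ∉ nbh A D ∧ td x y ≤ 1 then (f x - f y) ^ 2 else 0) := by
    have e1 : ∑ x, ∑ y, (if x ∉ nbh A D ∧ y ∉ nbh A D ∧ td x y ≤ 1 then (f x - f y) ^ 2 else 0) =
        Eg A D f := by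
      unfold Eg
      refine sum_congr rfl fun x _ => sum_congr rfl fun y _ => ?_
      congr 1
    rw [e1]
    refine mul_le_mul_of_nonneg_right ?_ hE0
    have : 0 ≤ p ^ 2 := sq_nonneg p
    nlinarith
  linarith

/-- the damaged set has small square norm -/
theorem smo_part {Cs : ℕ} (hSMO : SMOb 2 Cs) (hL : 3 ≤ L)
    {σ : ℕ → (Fin 2 → ZMod L) × Fin 2} (hσ : Per σ) {ω : ℕ → Bool}
    {A : Finset (Fin 2 → ZMod L)} {δ N : ℝ} {q K u0 u2 ρ lam r κ₀ R : ℕ}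
    (hδ : 0 < δ) (hδ1 : δ ≤ 1) (hC : Cs * δ ≤ 1) (h1 : 1 ≤ δ * q) (h3 : δ * q ≤ 2)
    (hE : Ev σ q K lam r ρ κ₀ ω A) (hu2 : 1 ≤ u2) (hr : R + ρ * u2 + 4 ≤ r)
    (h4 : 4 * lam ^ 2 * κ₀ ≤ u2) (h5 : 4 * lam * ρ ≤ q) (h6 : Cs * (lam * ρ + 1) * u2 ≤ R)
    (h7 : 4 * R + 8 ≤ L) (Dm : ℕ → Finset (Fin 2 → ZMod L))
    (hN : ∀ j, j + u0 ≤ K → ∀ z, ((Dm j ∩ bal z R).card : ℝ) ≤ N)
    (hsm : Real.sqrt (N * (20 / Real.sqrt u2)) + Real.exp (-(u2 : ℝ)) ≤ 1 / 8)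
    {f : (Fin 2 → ZMod L) → ℝ} (hf : ∀ x ∈ A, f x = 0) (j : ℕ)
    (hj : u2 ≤ j) (hjK : j + u0 ≤ K) :
    ∑ x ∈ Dm j, fj σ q ω A δ f j x ^ 2 ≤ (∑ x, fj σ q ω A δ f (j - u2) x ^ 2) / 8 := by
  obtain ⟨i, rfl⟩ : ∃ i, j = i + u2 := ⟨j - u2, by omega⟩
  rw [Nat.add_sub_cancel]
  have hE1 := (Pool.Agent.Q277.LC.sub 2 L hL σ hσ q K lam r ρ κ₀ ω A hE i u2 (by omega)).2
  have hB := Pool.Agent.Q68.LC.bas2 _ (ed ∘ σ) (sh (i * (q * ms 2 L)) ω) (Aj σ q ω A i) δ hδ.le hδ1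
  set T := TT (ed ∘ σ) (sh (i * (q * ms 2 L)) ω) (Aj σ q ω A i) δ (u2 * (q * ms 2 L)) with hT
  set S := Dm (i + u2) with hS
  rw [fj_add Pool.Agent.Q68.LC.bas2 hσ q ω A hδ.le hδ1 f i u2]
  calc ∑ x ∈ S, vecMul (fj σ q ω A δ f i) T x ^ 2
      ≤ ∑ x ∈ S, ∑ z, fj σ q ω A δ f i z ^ 2 * T z x :=
        sum_le_sum fun x _ => vecMul_sq_le T _ (hB.1 _) (fun y => (hB.2.2.1 _ y).le) x
    _ = ∑ z, fj σ q ω A δ f i z ^ 2 * ∑ x ∈ S, T z x := by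
        rw [sum_comm]
        exact sum_congr rfl fun z _ => by rw [mul_sum]
    _ ≤ ∑ z, fj σ q ω A δ f i z ^ 2 * (1 / 8) := by
        refine sum_le_sum fun z _ => ?_
        by_cases hz : z ∈ Aj σ q ω A i
        · rw [fj_zero Pool.Agent.Q68.LC.bas2 σ q ω A hδ.le hδ1 hf i z hz]
          simp
        · refine mul_le_mul_of_nonneg_left ?_ (sq_nonneg _)
          refine le_trans ?_ hsm
          exact smooth Pool.Agent.Q68.LC.bas2 hSMO hL σ hσ _ _ z hδ hδ1 hC h1 h3 hz hu2 hE1 hr h4 h5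
            h6 h7 S N (hN _ hjK z)
    _ = (∑ x, fj σ q ω A δ f i x ^ 2) / 8 := by
        rw [← sum_mul]
        ring

end pieces

end Pool.Agent.K9h51.D2
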