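import Pool.Agent.K9h51.D2.Core2

/-!
# Project D2: one window in a sparse environment in the plane, parameters
-/

set_option autoImplicit false

namespace Pool.Agent.K9h51.D2

open Finset Equiv Matrix Q292.LC
open Pool.Agent.Q257.LC (td_comm td_self td_tri mem_bal bal_mono cc_nonneg Aj fj fj_nonneg fj_sum
  fj_zero fj_add fj_mono card_V SMOb NASb FREb smooth vecMul_sq_le sum_vecMul_sq_le)
open Pool.Agent.Q277.LC (card_bal_le)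

/-- near pairs -/
noncomputable def E4 {L : ℕ} [NeZero L] (Dm : Finset (Fin 2 → ZMod L)) (b : ℕ)
    (f : (Fin 2 → ZMod L) → ℝ) : ℝ :=
  ∑ x, ∑ y, if x ∉ Dm ∧ y ∉ Dm ∧ td x y ≤ 2 * 2 * b then (f x - f y) ^ 2 else 0

theorem num_a (Z Cs lam ρ κ₀ L r : ℕ) (hZ : 1000 ≤ Z) (hZCs : 2 * Cs ≤ Z)
    (hlam : lam ≤ Z) (hρ : ρ ≤ Z) (hκ : κ₀ ≤ Z) (hr : Z ^ 43 ≤ r) (hL : 8 * Z ^ 43 ≤ L) :
    lam * (2 * (3 * Z ^ 3) + 1) < 7 * Z ^ 4 + 1 ∧ 7 * Z ^ 4 < L ∧ 9 * (7 * Z ^ 4) ≤ Z ^ 5 ∧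
    3 * Z ^ 3 + 7 * Z ^ 4 ≤ 8 * Z ^ 4 ∧ 9 * Z ^ 5 + 7 * Z ^ 4 + 3 * Z ^ 3 ≤ Z ^ 6 ∧
    Z ^ 3 + ρ + 1 + ρ * Z ^ 2 ≤ 3 * Z ^ 3 ∧ 4 * lam ^ 2 * κ₀ ≤ Z ^ 39 ∧
    Cs * (lam * ρ + 1) * Z ^ 39 + ρ * Z ^ 39 + 4 ≤ r ∧
    Cs * (lam * ρ + 1) * Z ^ 39 + 8 * Z ^ 4 ≤ r ∧
    4 * (Cs * (lam * ρ + 1) * Z ^ 39) + 8 ≤ L ∧ Z ^ 2 ≤ L ^ 2 ∧ 3 ≤ L ∧ Z ^ 6 ≤ r ∧
    4 * lam * ρ ≤ 4 * Z ^ 2 := by
  have hZ0 : 0 < Z := by omega
  have hp : ∀ {i j : ℕ}, i ≤ j → Z ^ i ≤ Z ^ j := fun h => Nat.pow_le_pow_right hZ0 h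
  have hs : ∀ i : ℕ, 1000 * Z ^ i ≤ Z ^ (i + 1) := fun i => by
    rw [pow_succ' Z i]
    exact Nat.mul_le_mul_right _ hZ
  have h3 : 1 ≤ Z ^ 3 := Nat.one_le_pow _ _ hZ0
  have e1 : 1000 * Z ^ 3 ≤ Z ^ 4 := hs 3
  have e2 : 1000 * Z ^ 4 ≤ Z ^ 5 := hs 4
  have e3 : 1000 * Z ^ 5 ≤ Z ^ 6 := hs 5
  have e0 : 1000 * Z ^ 2 ≤ Z ^ 3 := hs 2
  have e00 : 1000 * Z ^ 1 ≤ Z ^ 2 := hs 1
  have e42 : 1000 * Z ^ 42 ≤ Z ^ 43 := hs 42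
  have g1 := hp (show 4 ≤ 43 by norm_num)
  have g2 := hp (show 4 ≤ 42 by norm_num)
  have g3 := hp (show 6 ≤ 43 by norm_num)
  have g4 := hp (show 4 ≤ 39 by norm_num)
  have g5 := hp (show 1 ≤ 43 by norm_num)
  rw [pow_one] at e00 g5
  have hR : Cs * (lam * ρ + 1) * Z ^ 39 ≤ Z ^ 42 := by
    have h4 : lam * ρ + 1 ≤ 2 * Z ^ 2 := by
      have h5 : lam * ρ ≤ Z * Z := Nat.mul_le_mul hlam hρ
      have h6 : 1 ≤ Z ^ 2 := Nat.one_le_pow _ _ hZ0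
      nlinarith
    calc Cs * (lam * ρ + 1) * Z ^ 39 ≤ Cs * (2 * Z ^ 2) * Z ^ 39 :=
          Nat.mul_le_mul_right _ (Nat.mul_le_mul_left _ h4)
      _ = (2 * Cs) * Z ^ 41 := by ring
      _ ≤ Z * Z ^ 41 := Nat.mul_le_mul_right _ hZCs
      _ = Z ^ 42 := by ring
  have hρ39 : ρ * Z ^ 39 ≤ Z ^ 42 := by
    calc ρ * Z ^ 39 ≤ Z * Z ^ 39 := Nat.mul_le_mul_right _ hρ
      _ = Z ^ 40 := by ring
      _ ≤ Z ^ 42 := hp (by norm_num)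
  have hρ2 : ρ * Z ^ 2 ≤ Z ^ 3 := by
    calc ρ * Z ^ 2 ≤ Z * Z ^ 2 := Nat.mul_le_mul_right _ hρ
      _ = Z ^ 3 := by ring
  have hl1 : lam * (2 * (3 * Z ^ 3) + 1) ≤ 6 * Z ^ 4 + Z := by
    calc lam * (2 * (3 * Z ^ 3) + 1) ≤ Z * (2 * (3 * Z ^ 3) + 1) := Nat.mul_le_mul_right _ hlam
      _ = 6 * Z ^ 4 + Z := by ring
  have hZ4 : Z ≤ Z ^ 4 := Nat.le_self_pow (by norm_num) Z
  have hLL : Z ^ 2 ≤ L ^ 2 := Nat.pow_le_pow_left (by omega) 2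
  refine ⟨by omega, by omega, by omega, by omega, by omega, by omega, ?_, by omega, by omega,
    by omega, hLL, by omega, by omega, ?_⟩
  · calc 4 * lam ^ 2 * κ₀ ≤ 4 * Z ^ 2 * Z :=
          Nat.mul_le_mul (Nat.mul_le_mul_left _ (Nat.pow_le_pow_left hlam 2)) hκ
      _ = 4 * Z ^ 3 := by ring
      _ ≤ Z ^ 4 := by omega
      _ ≤ Z ^ 39 := g4
  · calc 4 * lam * ρ ≤ 4 * Z * Z := Nat.mul_le_mul (Nat.mul_le_mul_left _ hlam) hρ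
      _ = 4 * Z ^ 2 := by ring

/-- size of the damaged set -/
theorem num_b (Z lam : ℕ) (hZ : 1000 ≤ Z) (hlam : lam ≤ Z) :
    lam * (2 * (8 * Z ^ 4) + 1) ^ 2 ≤ 289 * Z ^ 9 := by
  have hZ0 : 0 < Z := by omega
  have h1 : 2 * (8 * Z ^ 4) + 1 ≤ 17 * Z ^ 4 := by
    have := Nat.one_le_pow 4 Z hZ0
    omega
  calc lam * (2 * (8 * Z ^ 4) + 1) ^ 2 ≤ Z * (17 * Z ^ 4) ^ 2 :=
        Nat.mul_le_mul hlam (Nat.pow_le_pow_left h1 2)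
    _ = 289 * Z ^ 9 := by ring

theorem num_c (z Cf : ℝ) (hCf : 1 ≤ Cf) (hz : 57153600 * Cf ^ 2 ≤ z) (b X Y : ℝ) (hb : b = z ^ 5)
    (hX : X ≤ 16 * Cf ^ 2 * z ^ 4 * Y) (hY : 0 ≤ Y) :
    (9 * b) ^ 2 * (10 * b) ^ 2 * (21 * b) ^ 2 * X ≤ z ^ 35 * Y := by
  have hz0 : 0 < z := by nlinarith
  rw [hb]
  calc (9 * z ^ 5) ^ 2 * (10 * z ^ 5) ^ 2 * (21 * z ^ 5) ^ 2 * X
      ≤ (9 * z ^ 5) ^ 2 * (10 * z ^ 5) ^ 2 * (21 * z ^ 5) ^ 2 * (16 * Cf ^ 2 * z ^ 4 * Y) :=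
        mul_le_mul_of_nonneg_left hX (by positivity)
    _ = (57153600 * Cf ^ 2) * (z ^ 34 * Y) := by ring
    _ ≤ z * (z ^ 34 * Y) := mul_le_mul_of_nonneg_right hz (by positivity)
    _ = z ^ 35 * Y := by ring

theorem num_d (Cf z ρ L2 : ℝ) (hCf1 : 1 ≤ Cf) (hz : 230400 * Cf ^ 2 ≤ z) (hρ0 : 0 ≤ ρ)
    (hρ : ρ ≤ z) (hL0 : 0 ≤ L2) (hL : L2 ≤ Real.exp z) :
    (8 * ρ + 32) * (z ^ 2 * (Cf * Real.exp (-(z ^ 2 / Cf)) * L2)) ≤ 1 / (Cf * z ^ 2) / 8 := by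
  have hCf0 : 0 < Cf := by linarith
  have hz1 : 230400 ≤ z := by nlinarith
  have hz0 : 0 < z := by linarith
  have g3 : 2 * z ≤ z ^ 2 / Cf := by
    rw [le_div_iff₀ hCf0]
    nlinarith
  have g4 : Real.exp (-(z ^ 2 / Cf)) * L2 ≤ Real.exp (-z) := by
    calc Real.exp (-(z ^ 2 / Cf)) * L2 ≤ Real.exp (-(2 * z)) * Real.exp z :=
          mul_le_mul (Real.exp_le_exp.2 (by linarith)) hL hL0 (Real.exp_pos _).le
      _ = Real.exp (-z) := by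
          rw [← Real.exp_add]
          congr 1
          ring
  have g5 : Real.exp (-z) ≤ 720 / z ^ 6 := by
    rw [Real.exp_neg, ← one_div, div_le_div_iff₀ (Real.exp_pos _) (by positivity)]
    have := Real.pow_div_factorial_le_exp z hz0.le 6
    rw [div_le_iff₀ (by positivity)] at this
    have h6 : ((Nat.factorial 6 : ℕ) : ℝ) = 720 := by norm_num [Nat.factorial]
    rw [h6] at this
    linarith
  have g6 : 8 * ρ + 32 ≤ 40 * z := by linarith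
  calc (8 * ρ + 32) * (z ^ 2 * (Cf * Real.exp (-(z ^ 2 / Cf)) * L2))
      = (8 * ρ + 32) * (z ^ 2 * (Cf * (Real.exp (-(z ^ 2 / Cf)) * L2))) := by ring
    _ ≤ (40 * z) * (z ^ 2 * (Cf * (720 / z ^ 6))) := by
        refine mul_le_mul g6 ?_ (by positivity) (by positivity)
        refine mul_le_mul_of_nonneg_left ?_ (by positivity)
        refine mul_le_mul_of_nonneg_left (g4.trans g5) hCf0.le
    _ = (28800 * Cf) / z ^ 3 := by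
        field_simp
        ring
    _ ≤ 1 / (Cf * z ^ 2) / 8 := by
        rw [div_div, div_le_div_iff₀ (by positivity) (by positivity)]
        have h7 : 28800 * Cf * (Cf * z ^ 2 * 8) = (230400 * Cf ^ 2) * z ^ 2 := by ring
        rw [h7]
        calc (230400 * Cf ^ 2) * z ^ 2 ≤ z * z ^ 2 := mul_le_mul_of_nonneg_right hz (by positivity)
          _ = 1 * z ^ 3 := by ring

theorem num_e (z x : ℝ) (hz0 : 1 ≤ z) (b3 : 1479680 ≤ z) (hx : 15 ≤ x) :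
    Real.sqrt (289 * z ^ 9 * (20 / Real.sqrt (z ^ 39))) + Real.exp (-x) ≤ 1 / 8 := by
  have hz : 0 < z := by linarith
  have hs : z ^ 10 ≤ Real.sqrt (z ^ 39) := by
    apply Real.le_sqrt_of_sq_le
    rw [← pow_mul]
    exact pow_le_pow_right₀ hz0 (by norm_num)
  have g1 : 289 * z ^ 9 * (20 / Real.sqrt (z ^ 39)) ≤ (1 / 16) ^ 2 := by
    calc 289 * z ^ 9 * (20 / Real.sqrt (z ^ 39)) ≤ 289 * z ^ 9 * (20 / z ^ 10) := by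
          refine mul_le_mul_of_nonneg_left ?_ (by positivity)
          exact div_le_div_of_nonneg_left (by norm_num) (by positivity) hs
      _ = 5780 / z := by
          field_simp
          norm_num
      _ ≤ (1 / 16) ^ 2 := by
          rw [div_le_iff₀ hz]
          linarith
  have g3 : Real.sqrt (289 * z ^ 9 * (20 / Real.sqrt (z ^ 39))) ≤ 1 / 16 :=
    Real.sqrt_le_iff.2 ⟨by norm_num, g1⟩
  have g5 : Real.exp (-x) ≤ 1 / 16 := by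
    rw [Real.exp_neg, ← one_div]
    have g6 := Real.add_one_le_exp x
    exact one_div_le_one_div_of_le (by norm_num) (by linarith)
  linarith

/-- The basic facts on the evolution in a sparse environment. -/
theorem core2 : ∃ C : ℕ, 1 ≤ C ∧ ∀ Z : ℕ, C ≤ Z →
    ∀ (L K lam r ρ κ₀ : ℕ) [NeZero L], lam ≤ Z → ρ ≤ Z → κ₀ ≤ Z → (L : ℝ) ^ 2 ≤ Real.exp Z →
    Z ^ 43 ≤ r → 8 * Z ^ 43 ≤ L → Z ^ 2 ≤ K → ∃ q₀ : ℕ, ∀ q ≥ q₀,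
    ∀ σ : ℕ → (Fin 2 → ZMod L) × Fin 2, Per σ → ∀ δ : ℝ, 1 ≤ δ * q → δ * q ≤ 2 →
    ∀ (ω : ℕ → Bool) (A : Finset (Fin 2 → ZMod L)), Ev σ q K lam r ρ κ₀ ω A →
    0 < δ ∧ δ ≤ 1 ∧
    ∀ f : (Fin 2 → ZMod L) → ℝ, (∀ x ∈ A, f x = 0) →
    (∀ j, j + Z ^ 2 ≤ K → E4 (nbh (Aj σ q ω A j) (8 * Z ^ 4)) (Z ^ 5) (fj σ q ω A δ f j) ≤
      (Z : ℝ) ^ 35 * (∑ x, fj σ q ω A δ f j x ^ 2 - ∑ x, fj σ q ω A δ f (j + Z ^ 2) x ^ 2)) ∧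
    (∀ j, Z ^ 39 ≤ j → j + Z ^ 2 ≤ K → ∑ x ∈ nbh (Aj σ q ω A j) (8 * Z ^ 4),
      fj σ q ω A δ f j x ^ 2 ≤ (∑ x, fj σ q ω A δ f (j - Z ^ 39) x ^ 2) / 8) ∧
    (∀ j, j + Z ^ 2 ≤ K → ∀ z B, B + 8 * Z ^ 4 ≤ r →
      (nbh (Aj σ q ω A j) (8 * Z ^ 4) ∩ bal z B).card ≤ 289 * Z ^ 9) := by
  obtain ⟨Cf, hCf1, hf⟩ := Pool.Agent.Q257.LC.fre 2 (by norm_num)
  obtain ⟨Cs, hCs1, hs⟩ := Pool.Agent.Q257.LC.smo 2 le_rfl
  have hFb : FREb 2 Cf := hf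
  have hSb : SMOb 2 Cs := hs
  have hCf0 : 0 < Cf := by linarith
  refine ⟨⌈57153600 * Cf ^ 2⌉₊ + 2 * Cs + 10000000, by omega, ?_⟩
  intro Z hZ L K lam r ρ κ₀ _ hlam hρ hκ hLd hr hL hK
  have hZ1 : 1000 ≤ Z := by omega
  have hZCs : 2 * Cs ≤ Z := by omega
  have hZ0 : 0 < Z := by omega
  obtain ⟨z, hz⟩ : ∃ z : ℝ, z = (Z : ℝ) := ⟨_, rfl⟩
  have hz1 : 57153600 * Cf ^ 2 ≤ z := by
    rw [hz]
    refine (Nat.le_ceil _).trans ?_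
    exact_mod_cast (by omega : ⌈57153600 * Cf ^ 2⌉₊ ≤ Z)
  have hz2 : (10000000 : ℝ) ≤ z := by
    rw [hz]
    exact_mod_cast (by omega : 10000000 ≤ Z)
  have hz0 : 0 < z := by linarith
  have hz3 : 1 ≤ z := by linarith
  obtain ⟨n1, n2, n3, n4, n5, n6, n7, n8, n9, n10, n11, hL3, n13, n14⟩ :=
    num_a Z Cs lam ρ κ₀ L r hZ1 hZCs hlam hρ hκ hr hL
  obtain ⟨qf, hqf⟩ := hFb L hL3 K
  refine ⟨qf + 4 * Z ^ 2 + 2 * Cs + 8 + 2, ?_⟩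
  intro q hq σ hσ δ h1 h2 ω A hE
  have hq1 : qf ≤ q := by omega
  have hq2 : 4 * Z ^ 2 ≤ q := by omega
  have hq3 : 2 * (Cs : ℝ) ≤ q := by
    have : 2 * Cs ≤ q := by omega
    exact_mod_cast this
  have hq4 : 4 * (2 : ℝ) ≤ q := by
    have : 4 * 2 ≤ q := by omega
    exact_mod_cast this
  have hq5 : (2 : ℝ) ≤ q := by
    have : 2 ≤ q := by omega
    exact_mod_cast this
  obtain ⟨hδ, hδ1, hCsδ, hdδ⟩ := Pool.Agent.Q257.LC.num_del δ q Cs 2 h1 h2 hq3 hq4 hq5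
  refine ⟨hδ, hδ1, ?_⟩
  intro f hfA
  obtain ⟨-, hfb, hfc⟩ := hqf q hq1 σ hσ δ h1 h2
  have hu01 : 1 ≤ Z ^ 2 := Nat.one_le_pow _ _ hZ0
  have hsq0 : Real.sqrt ((Z ^ 2 : ℕ) : ℝ) = z := by
    push_cast
    rw [← hz, Real.sqrt_sq hz0.le]
  have hu0c : ((Z ^ 2 : ℕ) : ℝ) = z ^ 2 := by
    rw [hz]
    push_cast
    ring
  -- lower bound of the free kernel
  obtain ⟨p0, hp0⟩ : ∃ p0 : ℝ, p0 = 1 / (Cf * z ^ 2) := ⟨_, rfl⟩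
  have hp0p : 0 < p0 := by
    rw [hp0]
    positivity
  have hpp : ∀ x y : Fin 2 → ZMod L, td x y ≤ 2 →
      p0 ≤ PP (ed ∘ σ) δ (Z ^ 2 * (q * ms 2 L)) x y := by
    intro x y hxy
    have h3 := hfc (Z ^ 2) hu01 hK n11 x y (by
      rw [hsq0]
      have h4 : (td x y : ℝ) ≤ 2 := by exact_mod_cast hxy
      refine h4.trans ?_
      rw [le_div_iff₀ hCf0]
      nlinarith)
    refine le_trans (le_of_eq ?_) h3
    rw [hu0c, hp0]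
    have e1 : (-(((2 : ℕ) : ℝ) / 2)) = -1 := by norm_num
    rw [e1, Real.rpow_neg_one, one_div, mul_inv, div_eq_mul_inv, mul_comm]
  -- tails
  obtain ⟨τ, hτ⟩ : ∃ τ : ℝ, τ = Cf * Real.exp (-(z ^ 2 / Cf)) := ⟨_, rfl⟩
  have hτ0 : 0 ≤ τ := by
    rw [hτ]
    positivity
  have htail : ∀ k ≤ Z ^ 2 * (q * ms 2 L), ∀ y : Fin 2 → ZMod L,
      ∑ x ∈ univ.filter (fun x => Z ^ 3 < td x y), PP (ed ∘ σ) δ k x y ≤ τ := by
    intro k hk y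
    refine (hfb (Z ^ 2) hu01 hK k hk (Z ^ 3) y).trans (le_of_eq ?_)
    rw [hsq0, hτ]
    congr 3
    push_cast
    rw [← hz]
    field_simp
  -- environments of the windows
  have hEw : ∀ j, j + Z ^ 2 ≤ K → Ev σ q (Z ^ 2) lam r ρ κ₀ (sh (j * (q * ms 2 L)) ω)
      (Aj σ q ω A j) := fun j hj =>
    (Pool.Agent.Q277.LC.sub 2 L hL3 σ hσ q K lam r ρ κ₀ ω A hE j (Z ^ 2) hj).2
  have hsparse : ∀ j, j + Z ^ 2 ≤ K → ∀ v, (Aj σ q ω A j ∩ bal v r).card ≤ lam := by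
    intro j hj v
    exact hE.1 j (by omega) v
  have hsize : ∀ j, j + Z ^ 2 ≤ K → ∀ z B, B + 8 * Z ^ 4 ≤ r →
      (nbh (Aj σ q ω A j) (8 * Z ^ 4) ∩ bal z B).card ≤ 289 * Z ^ 9 := by
    intro j hj v B hB
    exact (nbh_card _ lam _ r B v (hsparse j hj v) hB).trans (num_b Z lam hZ1 hlam)
  refine ⟨?_, ?_, hsize⟩
  · intro j hj
    have hfar := cc_far hL3 σ hσ (sh (j * (q * ms 2 L)) ω) (Aj σ q ω A j) hδ (by linarith) h2 hτ0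
      (hEw j hj) htail n6
    have hfar2 : ∀ x, x ∉ nbh (Aj σ q ω A j) (3 * Z ^ 3) → x ∉ Aj σ q ω A j ∧
        cc (ed ∘ σ) (sh (j * (q * ms 2 L)) ω) (Aj σ q ω A j) δ (Z ^ 2 * (q * ms 2 L)) x ≤
          p0 / 8 := by
      intro x hx
      refine ⟨(hfar x hx).1, (hfar x hx).2.trans ?_⟩
      rw [hτ, hp0, hu0c]
      have hρz : (ρ : ℝ) ≤ z := by
        rw [hz]
        exact_mod_cast hρ
      refine num_d Cf z ρ _ hCf1 ?_ (Nat.cast_nonneg _) hρz (by positivity) (by rw [hz]; exact hLd)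
      have : 0 ≤ Cf ^ 2 := by positivity
      linarith
    have hdiss := diss hL3 σ hσ (sh (j * (q * ms 2 L)) ω) (Aj σ q ω A j) hδ.le hδ1 hp0p hpp hfar2
      (fj σ q ω A δ f j)
    rw [← fj_add Pool.Agent.Q68.LC.bas2 hσ q ω A hδ.le hδ1 f j (Z ^ 2)] at hdiss
    have hnear := near_sum (Aj σ q ω A j) lam (3 * Z ^ 3) (Z ^ 6) (7 * Z ^ 4) (8 * Z ^ 4) (Z ^ 5)
      (fun v => (card_le_card (inter_subset_inter_left (bal_mono v n13))).trans (hsparse j hj v))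
      n1 n2 n3 n4 n5 (fj σ q ω A δ f j)
    have hY : 0 ≤ ∑ x, fj σ q ω A δ f j x ^ 2 - ∑ x, fj σ q ω A δ f (j + Z ^ 2) x ^ 2 := by
      refine le_trans ?_ hdiss
      refine mul_nonneg (by positivity) ?_
      unfold Eg
      refine sum_nonneg fun x _ => sum_nonneg fun y _ => ?_
      split_ifs
      · exact sq_nonneg _
      · exact le_rfl
    have hX : Eg (Aj σ q ω A j) (3 * Z ^ 3) (fj σ q ω A δ f j) ≤ 16 * Cf ^ 2 * z ^ 4 *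
        (∑ x, fj σ q ω A δ f j x ^ 2 - ∑ x, fj σ q ω A δ f (j + Z ^ 2) x ^ 2) := by
      have e1 : p0 ^ 2 / 16 = 1 / (16 * Cf ^ 2 * z ^ 4) := by
        rw [hp0]
        field_simp
      rw [e1, div_mul_eq_mul_div, one_mul, div_le_iff₀ (by positivity)] at hdiss
      linarith
    have hmain := num_c z Cf hCf1 hz1 (z ^ 5) _ _ rfl hX hY
    rw [hz] at hmain
    refine le_trans ?_ hmain
    refine le_trans (le_of_eq ?_) (hnear.trans ?_)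
    · unfold E4
      refine sum_congr rfl fun x _ => sum_congr rfl fun y _ => ?_
      have e2 : 2 * 2 * Z ^ 5 = 4 * Z ^ 5 := by ring
      rw [e2]
    · refine mul_le_mul_of_nonneg_right ?_ ?_
      · have hb1 : 1 ≤ Z ^ 5 := Nat.one_le_pow _ _ hZ0
        have g1 : ((8 * Z ^ 5 + 1 : ℕ) : ℝ) ≤ 9 * (Z : ℝ) ^ 5 := by
          exact_mod_cast (by omega : 8 * Z ^ 5 + 1 ≤ 9 * Z ^ 5)
        have g2 : ((20 * Z ^ 5 + 1 : ℕ) : ℝ) ≤ 21 * (Z : ℝ) ^ 5 := by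
          exact_mod_cast (by omega : 20 * Z ^ 5 + 1 ≤ 21 * Z ^ 5)
        have g3 : (10 * ((Z ^ 5 : ℕ) : ℝ)) = 10 * (Z : ℝ) ^ 5 := by push_cast; ring
        rw [g3]
        gcongr
      · unfold Eg
        refine sum_nonneg fun x _ => sum_nonneg fun y _ => ?_
        split_ifs
        · exact sq_nonneg _
        · exact le_rfl
  · intro j hj hjK
    obtain ⟨R, hR⟩ : ∃ R, R = Cs * (lam * ρ + 1) * Z ^ 39 := ⟨_, rfl⟩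
    rw [← hR] at n8 n9 n10
    refine smo_part (N := 289 * z ^ 9) hSb hL3 hσ hδ hδ1 hCsδ h1 h2 hE (Nat.one_le_pow _ _ hZ0) n8 n7
      (n14.trans hq2) hR.ge n10 (fun j => nbh (Aj σ q ω A j) (8 * Z ^ 4)) ?_ ?_ hfA j hj hjK
    · intro i hi v
      have h3 := hsize i hi v R n9
      rw [hz]
      exact_mod_cast h3
    · have e1 : ((Z ^ 39 : ℕ) : ℝ) = z ^ 39 := by
        rw [hz]
        push_cast
        ring
      rw [e1]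
      refine num_e z _ hz3 (by linarith) ?_
      have h4 : z ≤ z ^ 39 := le_self_pow₀ hz3 (by norm_num)
      linarith

end Pool.Agent.K9h51.D2
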