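import Pool.Agent.K9h51.D2.Tlc2
import Pool.Agent.Q292.LC.FinT

/-!
# Project D2: long cycles in the plane
-/

set_option autoImplicit false
set_option linter.unusedSectionVars false
set_option linter.unusedVariables false

namespace Pool.Agent.K9h51.D2

open Finset Equiv Matrix Q292.LC
open Pool.Agent.Q277.LC (del_pos peb)
open Pool.Agent.Q297.LC (exists_root pow_exp PW_split stir_le_of_circuit stir_smul)
open Pool.Agent.Y998.ST (stirExp nnRate)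

/-- choice of the parameters from `K` and `L` -/
theorem choose2 (Ce M : ℕ) (hCe : 1 ≤ Ce) (hM : 1 ≤ M) : ∃ m : ℕ, ∀ (L K : ℕ) [NeZero L],
    m ≤ K → K ≤ L ^ 2 → (Real.log L) ^ m ≤ K → ∃ (Z Y : ℕ), Ce ≤ Z ∧ 1 ≤ Y ∧
    (L : ℝ) ^ 2 ≤ Real.exp Y ∧ Ce * Y ^ 2 ≤ Z ∧ Z ^ M ≤ K ∧ K < (Z + 1) ^ M ∧ K ≤ L ^ 2 * Y := by
  obtain ⟨B, hB⟩ : ∃ B : ℕ, B = ⌈Real.exp (2 * (9 * Ce + 1))⌉₊ := ⟨_, rfl⟩
  refine ⟨3 * M + (Ce + 1) ^ M + B, ?_⟩
  intro L K _ hmK hKL hlogK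
  have hLpos : 1 ≤ L := Nat.pos_of_ne_zero (NeZero.ne L)
  have hLr : (0 : ℝ) < L := by exact_mod_cast hLpos
  obtain ⟨Z, hZ1, hZ2⟩ := exists_root M K hM
  obtain ⟨ℓ, hℓ⟩ : ∃ ℓ, ℓ = Real.log L := ⟨_, rfl⟩
  rw [← hℓ] at hlogK
  have hℓC : 9 * (Ce : ℝ) + 1 ≤ ℓ := by
    have h1 : Real.exp (2 * (9 * Ce + 1)) ≤ (L : ℝ) ^ 2 := by
      have h2 : Real.exp (2 * (9 * Ce + 1)) ≤ B := by rw [hB]; exact Nat.le_ceil _
      have h3 : (B : ℝ) ≤ K := by exact_mod_cast (by omega : B ≤ K)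
      have h4 : (K : ℝ) ≤ (L : ℝ) ^ 2 := by exact_mod_cast hKL
      linarith
    rw [pow_exp hLpos, Real.exp_le_exp, ← hℓ] at h1
    push_cast at h1
    linarith
  have hCer : (1 : ℝ) ≤ Ce := by exact_mod_cast hCe
  have hℓ1 : 1 ≤ ℓ := by linarith
  have hZCe : Ce ≤ Z := by
    have h1 : (Ce + 1) ^ M < (Z + 1) ^ M := by omega
    have h2 := lt_of_pow_lt_pow_left₀ M (Nat.zero_le _) h1
    omega
  obtain ⟨Y, hY⟩ : ∃ Y : ℕ, Y = ⌈2 * ℓ⌉₊ := ⟨_, rfl⟩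
  have hY1 : 2 * ℓ ≤ Y := by rw [hY]; exact Nat.le_ceil _
  have hY2 : (Y : ℝ) ≤ 3 * ℓ := by
    have : (Y : ℝ) < 2 * ℓ + 1 := by rw [hY]; exact Nat.ceil_lt_add_one (by linarith)
    linarith
  have hYpos : 1 ≤ Y := by
    have : (1 : ℝ) ≤ Y := by linarith
    exact_mod_cast this
  refine ⟨Z, Y, hZCe, hYpos, ?_, ?_, hZ1, hZ2, ?_⟩
  · rw [pow_exp hLpos, Real.exp_le_exp, ← hℓ]
    push_cast
    exact hY1
  · have h1 : (ℓ ^ 3) ^ M < ((Z : ℝ) + 1) ^ M := by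
      have h2 : (ℓ ^ 3) ^ M ≤ ℓ ^ (3 * M + (Ce + 1) ^ M + B) := by
        rw [← pow_mul]
        exact pow_le_pow_right₀ hℓ1 (by omega)
      have h3 : (K : ℝ) < ((Z : ℝ) + 1) ^ M := by exact_mod_cast hZ2
      linarith
    have h4 : ℓ ^ 3 < (Z : ℝ) + 1 := lt_of_pow_lt_pow_left₀ M (by positivity) h1
    have h5 : (Ce : ℝ) * Y ^ 2 ≤ Z := by
      have h6 : (Y : ℝ) ^ 2 ≤ (3 * ℓ) ^ 2 := pow_le_pow_left₀ (by positivity) hY2 2
      have h7 : (Ce : ℝ) * Y ^ 2 ≤ Ce * (3 * ℓ) ^ 2 := mul_le_mul_of_nonneg_left h6 (by linarith)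
      have h8 : (1 : ℝ) ≤ ℓ ^ 2 := one_le_pow₀ hℓ1
      have h9 : (Ce : ℝ) * (3 * ℓ) ^ 2 + 1 ≤ ℓ ^ 3 := by
        have e1 : ℓ ^ 3 = ℓ * ℓ ^ 2 := by ring
        have e2 : (9 * (Ce : ℝ) + 1) * ℓ ^ 2 ≤ ℓ * ℓ ^ 2 :=
          mul_le_mul_of_nonneg_right hℓC (by positivity)
        have e3 : (Ce : ℝ) * (3 * ℓ) ^ 2 = 9 * Ce * ℓ ^ 2 := by ring
        rw [e1, e3]
        linarith
      linarith
    exact_mod_cast h5
  · exact hKL.trans (Nat.le_mul_of_pos_right _ hYpos)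

/-- cycles are long, for circuits -/
theorem tlc2 (M : ℕ) (hM : 141 ≤ M) : ∃ m : ℕ, ∀ (L K : ℕ) [NeZero L] (w : ℝ),
    m ≤ K → K ≤ L ^ 2 → (Real.log L) ^ m ≤ K → 0 ≤ w → w < 1 →
    1 / ((L : ℝ) ^ 2 * (1 - w)) ≤ 2 / K →
    ∃ q₀ : ℕ, ∀ q ≥ q₀, ∀ σ : ℕ → (Fin 2 → ZMod L) × Fin 2, Per σ → ∀ δ : ℝ,
    1 ≤ δ * q → δ * q ≤ 2 → ∀ x,
    EE (K * (q * ms 2 L)) δ (fun ω => w ^ (cyc (gp (ed ∘ σ) ω (K * (q * ms 2 L))) x).card) ≤
      (K : ℝ) ^ (42 / M : ℝ) * (1 / K + 1 / ((L : ℝ) ^ 2 * (1 - w))) := by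
  obtain ⟨Ce, hCe, hE⟩ := env2
  obtain ⟨m, hm⟩ := choose2 Ce M (by omega) (by omega)
  refine ⟨m, ?_⟩
  intro L K _ w hmK hKL hlogK hw0 hw1 hwK
  obtain ⟨Z, Y, hZ, hY, hLY, hYZ, hZ1, hZ2, hKY⟩ := hm L K hmK hKL hlogK
  have hZ1000 : 1000 ≤ Z := by omega
  have hZr : (1000 : ℝ) ≤ Z := by exact_mod_cast hZ1000
  have hZK : Z ^ (1 + 140) ≤ K := (Nat.pow_le_pow_right (by omega) (by omega)).trans hZ1
  obtain ⟨-, -, q₀, hq₀⟩ := hE 1 Z L K Y hZ hY hLY hYZ hZK hKY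
  have hKpos : 0 < K := lt_of_lt_of_le (by positivity) hZK
  have hKr : (0 : ℝ) < K := by exact_mod_cast hKpos
  have hLpos : 1 ≤ L := Nat.pos_of_ne_zero (NeZero.ne L)
  have hLr : (0 : ℝ) < L := by exact_mod_cast hLpos
  refine ⟨max q₀ 2, fun q hq σ hσ δ h1 h2 x => ?_⟩
  obtain ⟨hδ0, hδ1⟩ := del_pos ((le_max_right _ _).trans hq) h1 h2
  have hwK' : 1 / ((L : ℝ) ^ 2 * (1 - w)) ≤ (Z : ℝ) ^ 1 / K := by
    refine hwK.trans ?_
    rw [pow_one]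
    exact div_le_div_of_nonneg_right (by linarith) hKr.le
  obtain ⟨b1, b2⟩ := hq₀ q ((le_max_left _ _).trans hq) σ hσ δ h1 h2 w hw0 hw1 hwK'
  have b3 := b2 x
  have b5 := (peb _ (ed ∘ σ) (K * (q * ms 2 L)) δ w hδ0.le hδ1 hw0 hw1).2.2.2.2.2 x
  have b6 := PW_split peb (ed ∘ σ) (K * (q * ms 2 L)) δ w hδ0.le hδ1 hw0 hw1 (fun _ A => x ∈ A)
    (fun ω A => Gd σ q K Z (Z ^ 46) Z (2 * ((Z - 1) / 2)) ω A)
  rw [b5] at b6
  have h1w : 0 < 1 - w := by linarith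
  have b7 : Real.exp (-(Y : ℝ)) ≤ 1 / ((L : ℝ) ^ 2 * (1 - w)) := by
    have e1 : Real.exp (-(Y : ℝ)) ≤ 1 / (L : ℝ) ^ 2 := by
      rw [Real.exp_neg, one_div]
      exact inv_anti₀ (by positivity) hLY
    refine e1.trans ?_
    refine one_div_le_one_div_of_le (by positivity) ?_
    have : 0 ≤ (L : ℝ) ^ 2 := by positivity
    nlinarith
  obtain ⟨X, hX⟩ : ∃ X, X = (1 / (K : ℝ) + 1 / ((L : ℝ) ^ 2 * (1 - w))) := ⟨_, rfl⟩
  have hX0 : 1 / ((L : ℝ) ^ 2 * (1 - w)) ≤ X := by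
    rw [hX]
    have : 0 ≤ 1 / (K : ℝ) := by positivity
    linarith
  have hXp : 0 ≤ X := le_trans (by positivity) hX0
  rw [← hX] at b3 ⊢
  have hpw : (Z : ℝ) ^ 42 ≤ (K : ℝ) ^ (42 / M : ℝ) := by
    have hM0 : (0 : ℝ) < M := by exact_mod_cast (by omega : 0 < M)
    have e1 : ((Z : ℝ) ^ M) ^ (42 / M : ℝ) ≤ (K : ℝ) ^ (42 / M : ℝ) :=
      Real.rpow_le_rpow (by positivity) (by exact_mod_cast hZ1) (by positivity)
    have e2 : ((Z : ℝ) ^ M) ^ (42 / M : ℝ) = (Z : ℝ) ^ 42 := by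
      rw [← Real.rpow_natCast, ← Real.rpow_mul (by positivity), ← Real.rpow_natCast]
      congr 1
      push_cast
      field_simp
    rw [← e2]
    exact e1
  calc EE (K * (q * ms 2 L)) δ (fun ω => w ^ (cyc (gp (ed ∘ σ) ω (K * (q * ms 2 L))) x).card)
      ≤ (Z : ℝ) ^ 41 * X + 3 * Real.exp (-(Y : ℝ)) := b6.trans (add_le_add b3 b1)
    _ ≤ (Z : ℝ) ^ 41 * X + 3 * X := by linarith
    _ = ((Z : ℝ) ^ 41 + 3) * X := by ring
    _ ≤ (Z : ℝ) ^ 42 * X := by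
        refine mul_le_mul_of_nonneg_right ?_ hXp
        have e3 : (1 : ℝ) ≤ (Z : ℝ) ^ 41 := one_le_pow₀ (by linarith)
        have e4 : (Z : ℝ) ^ 42 = Z * (Z : ℝ) ^ 41 := by ring
        rw [e4]
        nlinarith
    _ ≤ (K : ℝ) ^ (42 / M : ℝ) * X := mul_le_mul_of_nonneg_right hpw hXp

/-- cycles are long, for stirring, polylogarithmic times -/
theorem tls2 (ε : ℝ) (hε : 0 < ε) : ∃ m : ℕ, ∀ (L N : ℕ) [NeZero L] (t : ℝ),
    (m : ℝ) ≤ t → (Real.log L) ^ m ≤ t → 1 ≤ N → N * t ≤ (L : ℝ) ^ 2 → ∀ x : Fin 2 → ZMod L,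
    stirExp (nnRate 2 L) t (fun g => if (cyc g x).card ≤ N then 1 else 0) ≤
      4 * t ^ ε * (1 / t + N / (L : ℝ) ^ 2) := by
  obtain ⟨M, hM⟩ : ∃ M : ℕ, M = ⌈42 / ε⌉₊ + 141 := ⟨_, rfl⟩
  obtain ⟨m₁, hT⟩ := tlc2 M (by omega)
  refine ⟨2 ^ (m₁ + 1) + m₁ + 10, ?_⟩
  intro L N _ t hmt hlog hN hNt x
  have pw1 : 0 < 2 ^ (m₁ + 1) := by positivity
  obtain ⟨m, hm⟩ : ∃ m, m = 2 ^ (m₁ + 1) + m₁ + 10 := ⟨_, rfl⟩
  rw [← hm] at hmt hlog
  have hLpos : 0 < L := Nat.pos_of_ne_zero (NeZero.ne L)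
  have hN' : (1 : ℝ) ≤ N := by exact_mod_cast hN
  have hLd : (0 : ℝ) < (L : ℝ) ^ 2 := by positivity
  have hm10 : (10 : ℝ) ≤ m := by exact_mod_cast (by omega : 10 ≤ m)
  have ht1 : 1 ≤ t := by linarith
  have htL : t ≤ (L : ℝ) ^ 2 := by nlinarith
  obtain ⟨K, hK⟩ : ∃ K : ℕ, K = ⌊t⌋₊ := ⟨_, rfl⟩
  have hKt : (K : ℝ) ≤ t := by rw [hK]; exact Nat.floor_le (by linarith)
  have hK1 : 1 ≤ K := by rw [hK]; exact Nat.le_floor (by rw [Nat.cast_one]; exact ht1)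
  have hK1' : (1 : ℝ) ≤ K := by exact_mod_cast hK1
  have htK : t < K + 1 := by rw [hK]; exact Nat.lt_floor_add_one t
  have ht2K : t ≤ 2 * K := by linarith
  have hL3 : 3 ≤ L := by
    by_contra hcon
    have h1 : L ≤ 2 := by omega
    have h2 : (L : ℝ) ≤ 2 := by exact_mod_cast h1
    have h3 : (L : ℝ) ^ 2 ≤ 2 ^ 2 := pow_le_pow_left₀ (by positivity) h2 2
    linarith
  have hKL : K ≤ L ^ 2 := by
    have : (K : ℝ) ≤ ((L ^ 2 : ℕ) : ℝ) := by push_cast; linarith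
    exact_mod_cast this
  have hmK : m₁ ≤ K := by
    have h1 : (m₁ : ℝ) + 1 ≤ t := by
      have : m₁ + 1 ≤ m := by omega
      have h2 : ((m₁ + 1 : ℕ) : ℝ) ≤ m := by exact_mod_cast this
      push_cast at h2
      linarith
    have h3 : (m₁ : ℝ) < (K : ℝ) + 1 := by linarith
    have h4 : m₁ < K + 1 := by exact_mod_cast h3
    omega
  have hlogK : (Real.log L) ^ m₁ ≤ K := by
    have hℓ : 0 ≤ Real.log L := Real.log_natCast_nonneg L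
    have hK2 : t / 2 ≤ K := by linarith
    refine le_trans ?_ hK2
    rcases le_total (Real.log L) 2 with h | h
    · have h1 : (Real.log L) ^ m₁ ≤ 2 ^ m₁ := pow_le_pow_left₀ hℓ h _
      have h2 : ((2 ^ (m₁ + 1) : ℕ) : ℝ) ≤ m := by
        have : 2 ^ (m₁ + 1) ≤ m := by omega
        exact_mod_cast this
      push_cast at h2
      rw [pow_succ] at h2
      linarith
    · have h1 : (Real.log L) ^ (m₁ + 1) ≤ (Real.log L) ^ m :=
        pow_le_pow_right₀ (by linarith) (by omega)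
      have h2 : (Real.log L) ^ m₁ * 2 ≤ (Real.log L) ^ (m₁ + 1) := by
        rw [pow_succ]
        exact mul_le_mul_of_nonneg_left h (by positivity)
      linarith
  -- the marking parameter
  have hNpos : (0 : ℝ) < N := by linarith
  obtain ⟨w, hw⟩ : ∃ w : ℝ, w = 1 - 1 / (2 * N) := ⟨_, rfl⟩
  have hw2 : 1 / (2 * (N : ℝ)) ≤ 1 / 2 := by
    rw [div_le_div_iff₀ (by positivity) (by norm_num)]; linarith
  have hw0 : 0 ≤ w := by rw [hw]; linarith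
  have hw1 : w < 1 := by
    rw [hw]
    have : 0 < 1 / (2 * (N : ℝ)) := by positivity
    linarith
  have hwd : 1 / ((L : ℝ) ^ 2 * (1 - w)) = 2 * N / (L : ℝ) ^ 2 := by
    rw [hw]; field_simp; ring
  have hwK : 1 / ((L : ℝ) ^ 2 * (1 - w)) ≤ 2 / K := by
    rw [hwd, div_le_div_iff₀ hLd (by linarith)]
    nlinarith
  obtain ⟨q₀, hq₀⟩ := hT L K w (by exact_mod_cast hmK) hKL hlogK hw0 hw1 hwK
  have hF : ∀ g : Perm (Fin 2 → ZMod L), |w ^ (cyc g x).card| ≤ 1 := by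
    intro g
    rw [abs_of_nonneg (by positivity)]
    exact pow_le_one₀ hw0 hw1.le
  have h1 : stirExp (nnRate 2 L) t (fun g => w ^ (cyc g x).card) ≤
      (K : ℝ) ^ (42 / M : ℝ) * (1 / K + 1 / ((L : ℝ) ^ 2 * (1 - w))) := by
    refine stir_le_of_circuit (by omega) hL3 hK1 hKt ht2K hF ⟨q₀, fun q hq σ hσ δ h1 h2 => ?_⟩
    exact hq₀ q hq σ hσ δ h1 h2 x
  -- Bernoulli
  have h2 : ∀ g : Perm (Fin 2 → ZMod L), (if (cyc g x).card ≤ N then (1 : ℝ) else 0) ≤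
      2 * w ^ (cyc g x).card := by
    intro g
    split_ifs with h
    · have h3 : w ^ N ≤ w ^ (cyc g x).card := pow_le_pow_of_le_one hw0 hw1.le h
      have h4 : 1 + (N : ℝ) * (-(1 / (2 * N))) ≤ (1 + -(1 / (2 * (N : ℝ)))) ^ N :=
        one_add_mul_le_pow (by linarith) N
      have h5 : 1 + (N : ℝ) * (-(1 / (2 * N))) = 1 / 2 := by field_simp; ring
      have h6 : (1 + -(1 / (2 * (N : ℝ)))) = w := by rw [hw]; ring
      rw [h5, h6] at h4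
      linarith
    · positivity
  have h3 := Pool.Agent.Y998.ST.exp_mono (J := nnRate 2 L) Pool.Agent.Y998.ST.nn_nonneg
    (t := t) (by linarith) h2
  rw [stir_smul] at h3
  refine h3.trans ?_
  have h4 : 1 / (K : ℝ) ≤ 2 / t := by
    rw [div_le_div_iff₀ (by linarith) (by linarith)]
    linarith
  have hM0 : (0 : ℝ) < M := by exact_mod_cast (by omega : 0 < M)
  have hMε : 42 / (M : ℝ) ≤ ε := by
    have e1 : 42 / ε ≤ M := by
      have : (⌈42 / ε⌉₊ : ℝ) ≤ M := by exact_mod_cast (by omega : ⌈42 / ε⌉₊ ≤ M)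
      exact (Nat.le_ceil _).trans this
    rw [div_le_iff₀ hε] at e1
    rw [div_le_iff₀ hM0]
    linarith
  have h5 : (K : ℝ) ^ (42 / M : ℝ) ≤ t ^ ε := by
    calc (K : ℝ) ^ (42 / M : ℝ) ≤ t ^ (42 / M : ℝ) :=
          Real.rpow_le_rpow (by linarith) hKt (by positivity)
      _ ≤ t ^ ε := Real.rpow_le_rpow_of_exponent_le ht1 hMε
  have h6 : 0 ≤ (N : ℝ) / (L : ℝ) ^ 2 := by positivity
  have h7 : 0 ≤ t ^ ε := Real.rpow_nonneg (by linarith) _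
  rw [hwd] at h1
  calc 2 * stirExp (nnRate 2 L) t (fun g => w ^ (cyc g x).card)
      ≤ 2 * ((K : ℝ) ^ (42 / M : ℝ) * (1 / K + 2 * N / (L : ℝ) ^ 2)) :=
        mul_le_mul_of_nonneg_left h1 (by norm_num)
    _ ≤ 2 * (t ^ ε * (2 / t + 2 * N / (L : ℝ) ^ 2)) := by
        refine mul_le_mul_of_nonneg_left ?_ (by norm_num)
        refine mul_le_mul h5 (by linarith) (by positivity) h7
    _ = 4 * t ^ ε * (1 / t + N / (L : ℝ) ^ 2) := by ring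

/-- The cycle of a point of the plane: upper bound for its tail. -/
theorem tail2 (ε : ℝ) (hε : 0 < ε) : ∃ (C c t₀ : ℝ) (m : ℕ),
    0 < c ∧ 1 ≤ t₀ ∧ 1 ≤ C ∧ ∀ (t : ℝ), t₀ ≤ t → ∀ (L : ℕ) [NeZero L] (n : ℕ), 1 ≤ n →
    (n : ℝ) * t ≤ (L : ℝ) ^ 2 → ((n : ℝ) ≤ Real.exp (t ^ c) ∨ (Real.log L) ^ m ≤ t) →
    ∀ x : Fin 2 → ZMod L,
    stirExp (nnRate 2 L) t (fun g => if (cyc g x).card ≤ n then 1 else 0) ≤
      C * t ^ ε * (1 / t + n / (L : ℝ) ^ 2) := by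
  obtain ⟨m, h1⟩ := tls2 ε hε
  obtain ⟨C₂, hC₂, h2⟩ := all_lcs 2 (by omega)
  obtain ⟨m', hm'⟩ : ∃ m' : ℕ, m' = m + 1 := ⟨_, rfl⟩
  obtain ⟨t₁, ht₁, h3⟩ := tail_params 2 m' (by omega) C₂ hC₂
  refine ⟨9, 1 / (2 * m'), max t₁ (max (m : ℝ) 3 + 2), m', by rw [hm']; positivity,
    ht₁.trans (le_max_left _ _), by norm_num, ?_⟩
  intro t ht L _ n hn hnt hcase x
  have ht1 : t₁ ≤ t := (le_max_left _ _).trans ht
  have htm : (m : ℝ) ≤ t := by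
    have : (max (m : ℝ) 3 + 2) ≤ t := (le_max_right _ _).trans ht
    have h4 : (m : ℝ) ≤ max (m : ℝ) 3 := le_max_left _ _
    linarith
  have ht3 : (3 : ℝ) ≤ t := by
    have : (max (m : ℝ) 3 + 2) ≤ t := (le_max_right _ _).trans ht
    have h4 : (3 : ℝ) ≤ max (m : ℝ) 3 := le_max_right _ _
    linarith
  have ht0 : 0 < t := by linarith
  have htε : 1 ≤ t ^ ε := Real.one_le_rpow (by linarith) hε.le
  have hpow : t ^ (-(((2 : ℕ) : ℝ) / 2)) = 1 / t := by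
    have : (-(((2 : ℕ) : ℝ) / 2)) = -1 := by norm_num
    rw [this, Real.rpow_neg_one, one_div]
  have htp : 0 ≤ 1 / t := by positivity
  have hm'0 : (0 : ℝ) < m' := by rw [hm']; positivity
  have hL0 : (0 : ℝ) < L := by exact_mod_cast Nat.pos_of_ne_zero (NeZero.ne L)
  -- the polylogarithmic case
  have hpoly : ∀ (L' : ℕ) [NeZero L'], (Real.log L') ^ m' ≤ t → (n : ℝ) * t ≤ (L' : ℝ) ^ 2 →
      ∀ x' : Fin 2 → ZMod L',
      stirExp (nnRate 2 L') t (fun g => if (cyc g x').card ≤ n then 1 else 0) ≤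
      4 * t ^ ε * (1 / t + n / (L' : ℝ) ^ 2) := by
    intro L' _ hlog hnt' x'
    refine h1 L' n t htm ?_ hn hnt' x'
    by_cases h : Real.log L' ≤ 1
    · have hlog0 : 0 ≤ Real.log L' := by
        apply Real.log_nonneg
        exact_mod_cast Nat.one_le_iff_ne_zero.2 (NeZero.ne L')
      have : (Real.log L') ^ m ≤ 1 := pow_le_one₀ hlog0 h
      linarith
    · rw [not_le] at h
      refine le_trans ?_ hlog
      exact pow_le_pow_right₀ h.le (by omega)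
  by_cases hbig : (Real.log L) ^ m' ≤ t
  · refine (hpoly L hbig hnt x).trans ?_
    have : 0 ≤ t ^ ε * (1 / t + n / (L : ℝ) ^ 2) := by positivity
    nlinarith
  · have hn2 : (n : ℝ) ≤ Real.exp (t ^ (1 / (2 * m') : ℝ)) := by
      rcases hcase with h | h
      · exact h
      · exact absurd h hbig
    obtain ⟨L₀, R₀, D, hL₀, hLe, hLge, hR, hD, hnt0, hnL, herr⟩ := h3 t ht1 n hn hn2
    rw [hpow] at hnL herr
    haveI : NeZero L₀ := ⟨hL₀⟩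
    have hL00 : (1 : ℝ) ≤ L₀ := by exact_mod_cast Nat.one_le_iff_ne_zero.2 hL₀
    -- L₀ ≤ L
    have hLL : L₀ ≤ L := by
      rw [not_le] at hbig
      have hlog0 : 0 ≤ Real.log L := by
        apply Real.log_nonneg
        exact_mod_cast Nat.one_le_iff_ne_zero.2 (NeZero.ne L)
      have e1 : t ^ (1 / m' : ℝ) ≤ Real.log L := by
        have e2 : t ^ (1 / m' : ℝ) ≤ ((Real.log L) ^ m') ^ (1 / m' : ℝ) :=
          Real.rpow_le_rpow ht0.le hbig.le (by positivity)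
        refine e2.trans (le_of_eq ?_)
        rw [← Real.rpow_natCast, ← Real.rpow_mul hlog0]
        rw [show (m' : ℝ) * (1 / m') = 1 by field_simp, Real.rpow_one]
      have e3 : (L₀ : ℝ) ≤ L := by
        calc (L₀ : ℝ) ≤ Real.exp (t ^ (1 / m' : ℝ)) := hLe
          _ ≤ Real.exp (Real.log L) := Real.exp_le_exp.2 e1
          _ = L := Real.exp_log hL0
      exact_mod_cast e3
    have hlogL₀ : (Real.log L₀) ^ m' ≤ t := by
      have e1 : Real.log L₀ ≤ t ^ (1 / m' : ℝ) := by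
        rw [← Real.log_exp (t ^ (1 / m' : ℝ))]
        exact Real.log_le_log (by linarith) hLe
      have e2 : (Real.log L₀) ^ m' ≤ (t ^ (1 / m' : ℝ)) ^ m' :=
        pow_le_pow_left₀ (Real.log_nonneg hL00) e1 m'
      refine e2.trans (le_of_eq ?_)
      rw [← Real.rpow_natCast, ← Real.rpow_mul ht0.le]
      rw [show 1 / (m' : ℝ) * m' = 1 by field_simp, Real.rpow_one]
    have hpw : (L₀ : ℝ) ^ (1 : ℕ) ≤ (L₀ : ℝ) ^ 2 := pow_le_pow_right₀ hL00 (by omega)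
    have h5 := hpoly L₀ hlogL₀ (hnt0.trans hpw) 0
    have h6 := h2 L L₀ R₀ hR hLL t n D (by linarith) hD x 0
    refine h6.trans ?_
    have h7 : (n : ℝ) / (L₀ : ℝ) ^ 2 ≤ 1 / t := by
      refine le_trans ?_ hnL
      apply div_le_div_of_nonneg_left (by positivity) (by linarith)
      simpa using hpw
    have h8 : 0 ≤ (n : ℝ) / (L : ℝ) ^ 2 := by positivity
    have h9 : 4 * t ^ ε * (1 / t + n / (L₀ : ℝ) ^ 2) ≤ 8 * (t ^ ε * (1 / t)) := by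
      have : 4 * t ^ ε * (1 / t + n / (L₀ : ℝ) ^ 2) ≤ 4 * t ^ ε * (1 / t + 1 / t) :=
        mul_le_mul_of_nonneg_left (by linarith) (by positivity)
      refine this.trans (le_of_eq ?_)
      ring
    have h10 : 0 ≤ 9 * t ^ ε * (n / (L : ℝ) ^ 2) := by positivity
    have h11 : 1 / t ≤ t ^ ε * (1 / t) := le_mul_of_one_le_left htp htε
    have h12 : 9 * t ^ ε * (1 / t + n / (L : ℝ) ^ 2) =
        9 * (t ^ ε * (1 / t)) + 9 * t ^ ε * (n / (L : ℝ) ^ 2) := by ring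
    rw [h12]
    linarith [h5, h9, herr, h10, h11]

end Pool.Agent.K9h51.D2
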