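import Pool.Agent.K9h51.D2.Dva2
import Pool.Agent.K9h51.D2.Tls2

/-!
# Project D2: boxes of side `√K / h` see the same fractions as the torus, in the plane
-/

set_option autoImplicit false

namespace Pool.Agent.K9h51.D2

open Finset Equiv Matrix Q292.LC
open Pool.Agent.Q277.LC (del_pos)
open Pool.Agent.Q297.LC (pow_exp)

theorem par2 (C b : ℕ) (T : ℝ) : ∃ L₀ : ℕ, ∀ L K : ℕ, L₀ ≤ L →
    (Real.log L) ^ (2 * b + 1) ≤ K → ∃ Y : ℕ, T ≤ Y ∧ 1 ≤ Y ∧ (L : ℝ) ^ 2 ≤ Real.exp Y ∧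
      (C * Y ^ 2) ^ b ≤ K := by
  obtain ⟨B, hB⟩ : ∃ B : ℝ, B = (9 * (C : ℝ)) ^ b + |T| + 1 := ⟨_, rfl⟩
  have hC0 : 0 ≤ (9 * (C : ℝ)) ^ b := by positivity
  have hT0 : 0 ≤ |T| := abs_nonneg T
  refine ⟨⌈Real.exp B⌉₊, fun L K hL hK => ?_⟩
  have h1 : Real.exp B ≤ L := (Nat.le_ceil _).trans (by exact_mod_cast hL)
  have hLr : (0 : ℝ) < L := lt_of_lt_of_le (Real.exp_pos B) h1
  have hL1 : 1 ≤ L := by
    have : 0 < L := by exact_mod_cast hLr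
    omega
  obtain ⟨ℓ, hℓ⟩ : ∃ ℓ, ℓ = Real.log L := ⟨_, rfl⟩
  rw [← hℓ] at hK
  have h2 : B ≤ ℓ := by
    rw [hℓ, Real.le_log_iff_exp_le hLr]
    exact h1
  have h3 : 1 ≤ ℓ := by linarith
  obtain ⟨Y, hY⟩ : ∃ Y : ℕ, Y = ⌈2 * ℓ⌉₊ := ⟨_, rfl⟩
  have hY1 : 2 * ℓ ≤ Y := by rw [hY]; exact Nat.le_ceil _
  have hY2 : (Y : ℝ) ≤ 3 * ℓ := by
    have : (Y : ℝ) < 2 * ℓ + 1 := by rw [hY]; exact Nat.ceil_lt_add_one (by linarith)
    linarith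
  refine ⟨Y, ?_, ?_, ?_, ?_⟩
  · have := le_abs_self T
    linarith
  · have : (1 : ℝ) ≤ Y := by linarith
    exact_mod_cast this
  · rw [pow_exp hL1, Real.exp_le_exp, ← hℓ]
    push_cast
    exact hY1
  · have h4 : ((C : ℝ) * (Y : ℝ) ^ 2) ^ b ≤ K := by
      refine le_trans ?_ hK
      calc ((C : ℝ) * (Y : ℝ) ^ 2) ^ b ≤ ((C : ℝ) * (3 * ℓ) ^ 2) ^ b := by gcongr
        _ = (9 * (C : ℝ)) ^ b * ℓ ^ (2 * b) := by
            rw [pow_mul, ← mul_pow]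
            congr 1
            ring
        _ ≤ ℓ * ℓ ^ (2 * b) := mul_le_mul_of_nonneg_right (by linarith) (by positivity)
        _ = ℓ ^ (2 * b + 1) := by ring
    exact_mod_cast h4

/-- numerical estimates -/
theorem num_d2 (Z K L2 h R η Y w : ℝ) (hZ : 1000 ≤ Z) (hYZ : Y ≤ Z) (hK : 0 < K)
    (hZK : Z ^ 202 ≤ K) (hh : h ^ 2 ≤ Z) (hR : 0 < R) (hKR : K ≤ 16 * R ^ 2 * h ^ 2)
    (hη : 0 < η) (hY : 1000 / η ≤ Y) (hY1 : 1 ≤ Y) (hw : L2 * (1 - w) = K / Z ^ 62) :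
    3 * (L2 * ((1 - w) * (4 / R ^ 2 + Z ^ 60 / K))) +
      26 * (Z ^ 41 * (1 / K + 1 / (L2 * (1 - w)))) + 3 * Real.exp (-Y) ≤ η := by
  have hZ0 : 0 < Z := by linarith
  have hh0 : 0 ≤ h ^ 2 := sq_nonneg h
  have h1 : 4 / R ^ 2 ≤ Z ^ 60 / K := by
    rw [div_le_div_iff₀ (by positivity) hK]
    have h2 : 64 * h ^ 2 ≤ Z ^ 60 := by
      have h3 : Z ^ 2 ≤ Z ^ 60 := pow_le_pow_right₀ (by linarith) (by norm_num)
      nlinarith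
    calc 4 * K ≤ 4 * (16 * R ^ 2 * h ^ 2) := by linarith
      _ = (64 * h ^ 2) * R ^ 2 := by ring
      _ ≤ Z ^ 60 * R ^ 2 := mul_le_mul_of_nonneg_right h2 (by positivity)
  have t1 : 3 * (L2 * ((1 - w) * (4 / R ^ 2 + Z ^ 60 / K))) ≤ 6 / Z := by
    have e1 : 3 * (L2 * ((1 - w) * (4 / R ^ 2 + Z ^ 60 / K))) =
        3 * (K / Z ^ 62) * (4 / R ^ 2 + Z ^ 60 / K) := by rw [← hw]; ring
    rw [e1]
    calc 3 * (K / Z ^ 62) * (4 / R ^ 2 + Z ^ 60 / K) ≤ 3 * (K / Z ^ 62) * (2 * (Z ^ 60 / K)) := by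
          refine mul_le_mul_of_nonneg_left (by linarith) (by positivity)
      _ = 6 / Z ^ 2 := by
          field_simp
          norm_num
      _ ≤ 6 / Z := by
          refine div_le_div_of_nonneg_left (by norm_num) hZ0 ?_
          exact le_self_pow₀ (by linarith) (by norm_num)
  have t2 : 26 * (Z ^ 41 * (1 / K + 1 / (L2 * (1 - w)))) ≤ 52 / Z := by
    rw [hw]
    have e1 : 1 / (K / Z ^ 62) = Z ^ 62 / K := by rw [one_div, inv_div]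
    rw [e1]
    have h2 : (1 : ℝ) ≤ Z ^ 62 := one_le_pow₀ (by linarith)
    have h3 : 1 / K + Z ^ 62 / K ≤ 2 * Z ^ 62 / K := by
      rw [← add_div]
      exact div_le_div_of_nonneg_right (by linarith) hK.le
    calc 26 * (Z ^ 41 * (1 / K + Z ^ 62 / K)) ≤ 26 * (Z ^ 41 * (2 * Z ^ 62 / K)) := by gcongr
      _ = 52 * Z ^ 103 / K := by ring
      _ ≤ 52 / Z := by
          rw [div_le_div_iff₀ hK hZ0]
          have h4 : Z ^ 104 ≤ Z ^ 202 := pow_le_pow_right₀ (by linarith) (by norm_num)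
          have e2 : 52 * Z ^ 103 * Z = 52 * Z ^ 104 := by ring
          rw [e2]
          linarith
  have t3 : 3 * Real.exp (-Y) ≤ 3 / Y := by
    rw [Real.exp_neg, div_eq_mul_inv]
    have h2 : Y ≤ Real.exp Y := by linarith [Real.add_one_le_exp Y]
    have h3 := inv_anti₀ (by linarith : 0 < Y) h2
    linarith
  have h5 : 58 / Z ≤ 58 / Y := div_le_div_of_nonneg_left (by norm_num) (by linarith) hYZ
  have h6 : 61 / Y ≤ η := by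
    rw [div_le_iff₀ (by linarith)]
    rw [div_le_iff₀ hη] at hY
    nlinarith
  have e3 : 6 / Z + 52 / Z = 58 / Z := by ring
  have e4 : 58 / Y + 3 / Y = 61 / Y := by ring
  linarith

theorem dev2 : ∃ m : ℕ, ∀ h : ℕ, 1 ≤ h → ∀ η : ℝ, 0 < η → ∃ L₀ : ℕ,
    ∀ (L K : ℕ) [NeZero L], L₀ ≤ L → (Real.log L) ^ m ≤ K → K ≤ h ^ 2 * L ^ 2 →
    ∃ q₀ : ℕ, ∀ q ≥ q₀, ∀ σ : ℕ → (Fin 2 → ZMod L) × Fin 2, Per σ → ∀ δ : ℝ,
    1 ≤ δ * q → δ * q ≤ 2 →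
    1 ≤ Nat.sqrt K / h ∧ Nat.sqrt K / h ≤ L ∧
    EE (K * (q * ms 2 L)) δ (fun ω => Qb (Nat.sqrt K / h) (gp (ed ∘ σ) ω (K * (q * ms 2 L))) -
      Qv (gp (ed ∘ σ) ω (K * (q * ms 2 L)))) ≤ η := by
  obtain ⟨Ce, hCe, hE⟩ := env2
  obtain ⟨Cr, hCr, hRes⟩ := res2
  refine ⟨2 * 202 + 1, fun h hh η hη => ?_⟩
  obtain ⟨C, hC⟩ : ∃ C, C = Ce + Cr := ⟨_, rfl⟩
  obtain ⟨L₀, hL₀⟩ := par2 C 202 (1000 / η + (h : ℝ) ^ 2)
  refine ⟨L₀, fun L K _ hL hlogK hKL => ?_⟩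
  obtain ⟨Y, hYT, hY1, hLY, hZK⟩ := hL₀ L K hL hlogK
  obtain ⟨Z, hZ⟩ : ∃ Z, Z = C * Y ^ 2 := ⟨_, rfl⟩
  rw [← hZ] at hZK
  have hY2 : 1 ≤ Y ^ 2 := Nat.one_le_pow _ _ hY1
  have hCZ : C ≤ Z := by rw [hZ]; exact Nat.le_mul_of_pos_right _ hY2
  have hZ1000 : 1000 ≤ Z := by omega
  have hZ0 : 0 < Z := by omega
  have hYZ : Y ≤ Z := by
    rw [hZ]
    calc Y ≤ Y ^ 2 := Nat.le_self_pow (by norm_num) _
      _ ≤ C * Y ^ 2 := Nat.le_mul_of_pos_left _ (by omega)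
  have hhY : h ^ 2 ≤ Y := by
    have h1 : (0 : ℝ) ≤ 1000 / η := by positivity
    have h2 : (h : ℝ) ^ 2 ≤ Y := by linarith
    exact_mod_cast h2
  have hKY : K ≤ L ^ 2 * Y := by
    calc K ≤ h ^ 2 * L ^ 2 := hKL
      _ ≤ Y * L ^ 2 := Nat.mul_le_mul_right _ hhY
      _ = L ^ 2 * Y := mul_comm _ _
  have hKZ : K ≤ L ^ 2 * Z := hKY.trans (Nat.mul_le_mul_left _ hYZ)
  obtain ⟨hL8, hLZ, q0, hq0⟩ := hE 62 Z L K Y (by omega) hY1 hLY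
    (by rw [hZ]; exact Nat.mul_le_mul_right _ (by omega)) hZK hKY
  have hZK46 : Z ^ 46 ≤ K := (Nat.pow_le_pow_right hZ0 (by norm_num)).trans hZK
  obtain ⟨q1, hq1⟩ := hRes Z (by omega) L K Z (Z ^ 46) Z (2 * ((Z - 1) / 2)) le_rfl le_rfl
    (by omega) hLZ le_rfl hL8 hZK46 hKZ
  have hLpos : 0 < L := Nat.pos_of_ne_zero (NeZero.ne L)
  have hL0 : (0 : ℝ) < L := by exact_mod_cast hLpos
  have hKpos : 0 < K := lt_of_lt_of_le (by positivity) hZK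
  have hK0 : (0 : ℝ) < K := by exact_mod_cast hKpos
  have hZr : (1000 : ℝ) ≤ Z := by exact_mod_cast hZ1000
  have hZr0 : (0 : ℝ) < Z := by linarith
  -- the side
  obtain ⟨s, hs⟩ : ∃ s, s = Nat.sqrt K := ⟨_, rfl⟩
  obtain ⟨R, hR⟩ : ∃ R, R = s / h := ⟨_, rfl⟩
  rw [← hs, ← hR]
  have hZleK : Z ≤ K := (Nat.le_self_pow (by norm_num) Z).trans hZK
  have hhs : h ≤ s := by
    rw [hs, Nat.le_sqrt, ← sq]
    omega
  have hR1 : 1 ≤ R := by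
    rw [hR, Nat.le_div_iff_mul_le (by omega)]
    omega
  have hs1 : 1 ≤ s := by omega
  have hRL : R ≤ L := by
    rw [hR]
    refine Nat.div_le_of_le_mul ?_
    rw [hs]
    have h1 : Nat.sqrt K * Nat.sqrt K ≤ K := Nat.sqrt_le K
    by_contra hcon
    push Not at hcon
    have h2 : (h * L) * (h * L) < Nat.sqrt K * Nat.sqrt K := Nat.mul_lt_mul'' hcon hcon
    have h3 : (h * L) * (h * L) = h ^ 2 * L ^ 2 := by ring
    omega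
  have hKR : K ≤ 16 * R ^ 2 * h ^ 2 := by
    have h1 : K < (s + 1) * (s + 1) := by rw [hs]; exact Nat.lt_succ_sqrt K
    have h2 : (s + 1) * (s + 1) ≤ (2 * s) * (2 * s) := Nat.mul_le_mul (by omega) (by omega)
    have h3 : s < h * (R + 1) := by
      rw [hR]
      exact Nat.lt_mul_div_succ s (by omega)
    have h4 : s ≤ 2 * R * h := by
      have h5 : h * (R + 1) ≤ h * (2 * R) := Nat.mul_le_mul_left _ (by omega)
      have h6 : h * (2 * R) = 2 * R * h := by ring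
      omega
    have h5 : (2 * s) * (2 * s) ≤ (2 * (2 * R * h)) * (2 * (2 * R * h)) :=
      Nat.mul_le_mul (by omega) (by omega)
    have h6 : (2 * (2 * R * h)) * (2 * (2 * R * h)) = 16 * R ^ 2 * h ^ 2 := by ring
    omega
  -- the marking parameter
  obtain ⟨w, hw⟩ : ∃ w : ℝ, w = 1 - K / ((L : ℝ) ^ 2 * (Z : ℝ) ^ 62) := ⟨_, rfl⟩
  have hw1 : w < 1 := by
    have : 0 < K / ((L : ℝ) ^ 2 * (Z : ℝ) ^ 62) := by positivity
    linarith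
  have hw0 : 0 ≤ w := by
    have h1 : K / ((L : ℝ) ^ 2 * (Z : ℝ) ^ 62) ≤ 1 := by
      rw [div_le_one (by positivity)]
      have h2 : (K : ℝ) ≤ (L : ℝ) ^ 2 * Z := by exact_mod_cast hKZ
      refine h2.trans (mul_le_mul_of_nonneg_left ?_ (by positivity))
      exact le_self_pow₀ (by linarith) (by norm_num)
    linarith
  have hLw : (L : ℝ) ^ 2 * (1 - w) = K / (Z : ℝ) ^ 62 := by
    rw [hw]
    field_simp
    ring
  have hwK : 1 / ((L : ℝ) ^ 2 * (1 - w)) ≤ (Z : ℝ) ^ 62 / K := by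
    rw [hLw, one_div, inv_div]
  refine ⟨max (max q0 q1) 2, fun q hq σ hσ δ hδ1 hδ2 => ?_⟩
  obtain ⟨hδ0, hδle⟩ := del_pos ((le_max_right _ _).trans hq) hδ1 hδ2
  have hqq0 : q0 ≤ q := (le_max_left _ _).trans ((le_max_left _ _).trans hq)
  have hqq1 : q1 ≤ q := (le_max_right _ _).trans ((le_max_left _ _).trans hq)
  refine ⟨hR1, hRL, ?_⟩
  obtain ⟨b1, b2⟩ := hq0 q hqq0 σ hσ δ hδ1 hδ2 w hw0 hw1 hwK
  have hR0 : (0 : ℝ) < R := by exact_mod_cast hR1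
  have hsplit := dev_split2 (L := L) (ed ∘ σ) (K * (q * ms 2 L)) δ w
    (4 / (R : ℝ) ^ 2 + (Z : ℝ) ^ 60 / K) _ _ R
    (fun ω A => Gd σ q K Z (Z ^ 46) Z (2 * ((Z - 1) / 2)) ω A) hδ0.le hδle hw0 hw1
    (by positivity) hR1 hRL
    (fun A => (Pool.Agent.Q154.LC.gdm 2 L σ q K Z (Z ^ 46) Z (2 * ((Z - 1) / 2))).1 A)
    (fun ω A hG hI hA z => hq1 q hqq1 σ hσ δ hδ1 hδ2 ω A hG hI hA R hR1 hRL z w hw0 hw1)
    b1 b2
  refine hsplit.trans ?_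
  have h2 : (0 : ℝ) ≤ (h : ℝ) ^ 2 := by positivity
  exact num_d2 Z K ((L : ℝ) ^ 2) h R η Y w hZr (by exact_mod_cast hYZ) hK0 (by exact_mod_cast hZK)
    (by exact_mod_cast hhY.trans hYZ) hR0 (by exact_mod_cast hKR) hη (by linarith)
    (by exact_mod_cast hY1) hLw

end Pool.Agent.K9h51.D2
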