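import Pool.Agent.K9h51.D2.Res2
import Pool.Agent.K9h51.LC.Dev

/-!
# Project D2: boxes and the torus, with a mean zero decomposition
-/

set_option autoImplicit false

namespace Pool.Agent.K9h51.D2

open Finset Equiv Matrix Q292.LC
open Pool.Agent.K9h51.LC (al al_nonneg al_sum al_cover qf CS qf_nonneg qf_eq qf_split qf_three
  qf_diff Qb_sub_Qv Qb_le card_V Lpos card_cyc_pos cyc_eq mem_cyc)

variable {L : ℕ} [NeZero L]

/-- the test functions -/
noncomputable def psA (R : ℕ) (A : Finset (Fin 2 → ZMod L)) (z x : Fin 2 → ZMod L) : ℝ :=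
  if 2 * A.card ≤ L ^ 2 then phA R A z x else 0

theorem dva2 (g : Perm (Fin 2 → ZMod L)) (A : Finset (Fin 2 → ZMod L)) (r : ℕ) (hr : 1 ≤ r)
    (hrL : r ≤ L) (hA : Inv g A) :
    Qb r g - Qv g ≤ 3 * ∑ z, ∑ x ∈ univ \ A,
      ((∑ y ∈ cyc g x, psA r A z y) / ((cyc g x).card : ℝ)) ^ 2 + 26 * (A.card / (L : ℝ) ^ 2) := by
  have hL : (0 : ℝ) < (L : ℝ) ^ 2 := pow_pos Lpos _
  have hL00 : (L : ℝ) ≠ 0 := Lpos.ne'
  have hsq : 0 ≤ ∑ z, ∑ x ∈ univ \ A,
      ((∑ y ∈ cyc g x, psA r A z y) / ((cyc g x).card : ℝ)) ^ 2 :=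
    Finset.sum_nonneg fun z _ => Finset.sum_nonneg fun x _ => sq_nonneg _
  by_cases hcard : 2 * A.card ≤ L ^ 2
  swap
  · have h1 := Qb_le hr hrL g
    have h2 : (L : ℝ) ^ 2 ≤ 2 * A.card := by
      have : L ^ 2 ≤ 2 * A.card := by omega
      exact_mod_cast this
    have h3 : 1 ≤ 2 * (A.card / (L : ℝ) ^ 2) := by
      rw [← mul_div_assoc, le_div_iff₀ hL]
      linarith
    have h4 : 0 ≤ (A.card : ℝ) / (L : ℝ) ^ 2 := by positivity
    linarith
  have hps : ∀ z x, psA r A z x = phA r A z x := by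
    intro z x
    unfold psA
    rw [if_pos hcard]
  simp only [hps]
  have hAC : CS g A := fun x y h => ⟨fun h1 => Pool.Agent.Q153.LC.inv_same g A hA x y h1 h,
      fun h1 => Pool.Agent.Q153.LC.inv_same g A hA y x h1 h.symm⟩
  have hUC : CS g (univ \ A) := fun x y h => by
    simp only [mem_sdiff, mem_univ, true_and]
    exact not_congr (hAC x y h)
  obtain ⟨β, hβ⟩ : ∃ β : ℝ, β = A.card / (L : ℝ) ^ 2 := ⟨_, rfl⟩
  have hβ0 : 0 ≤ β := by rw [hβ]; positivity
  have hβ1 : β ≤ 1 / 2 := by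
    rw [hβ, div_le_iff₀ hL]
    have : (2 : ℝ) * A.card ≤ (L : ℝ) ^ 2 := by exact_mod_cast hcard
    linarith
  have hU : ((univ \ A).card : ℝ) = (L : ℝ) ^ 2 * (1 - β) := by
    have h3 : (univ \ A).card + A.card = L ^ 2 := by
      rw [Finset.card_sdiff_add_card_eq_card (Finset.subset_univ A), Finset.card_univ,
        Pool.Agent.Q257.LC.card_V]
    have h4 : ((univ \ A).card : ℝ) + A.card = (L : ℝ) ^ 2 := by exact_mod_cast h3
    have h5 : (L : ℝ) ^ 2 * (1 - β) = (L : ℝ) ^ 2 - A.card := by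
      rw [hβ]
      field_simp
    rw [h5]
    linarith
  have hone : ∀ z, qf g univ (fun x => al r z x - 1 / (L : ℝ) ^ 2) ≤
      13 * (∑ x ∈ A, al r z x + β) +
      3 * ((L : ℝ) ^ 2 * ∑ x ∈ univ \ A,
        ((∑ y ∈ cyc g x, phA r A z y) / ((cyc g x).card : ℝ)) ^ 2) := by
    intro z
    obtain ⟨α, hα⟩ : ∃ α : ℝ, α = ∑ x ∈ A, al r z x := ⟨_, rfl⟩
    have hα0 : 0 ≤ α := by rw [hα]; exact Finset.sum_nonneg fun x _ => al_nonneg r z x
    have hα1 : α ≤ 1 := by
      rw [hα, ← al_sum hr hrL z]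
      exact Finset.sum_le_sum_of_subset_of_nonneg (Finset.subset_univ _)
        fun x _ _ => al_nonneg r z x
    have hch : ∑ y, chA r A z y = 1 - α := by
      have e1 : ∀ y, chA r A z y = al r z y - if y ∈ A then al r z y else 0 := by
        intro y
        unfold chA
        split_ifs <;> ring
      simp only [e1]
      rw [Finset.sum_sub_distrib, al_sum hr hrL z, ← Finset.sum_filter,
        Finset.filter_mem_eq_inter, Finset.univ_inter, ← hα]
    have hpart1 : qf g A (fun x => al r z x - 1 / (L : ℝ) ^ 2) ≤ α + β := by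
      refine (qf_diff g A hAC (al r z) (fun _ => 1 / (L : ℝ) ^ 2) (al_nonneg r z)
        (fun _ => by positivity) (al_sum hr hrL z).le ?_).trans ?_
      · rw [Finset.sum_const, Finset.card_univ, nsmul_eq_mul, card_V]
        exact le_of_eq (by field_simp)
      · rw [Finset.sum_const, nsmul_eq_mul, ← hα, hβ]
        exact le_of_eq (by ring)
    obtain ⟨k, hk⟩ : ∃ k : ℝ, k = (1 - α) / ((L : ℝ) ^ 2 * (1 - β)) - 1 / (L : ℝ) ^ 2 := ⟨_, rfl⟩
    obtain ⟨b, hb⟩ : ∃ b : (Fin 2 → ZMod L) → ℝ,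
      b = fun x => al r z x - 1 / (L : ℝ) ^ 2 - phA r A z x := ⟨_, rfl⟩
    have hbk : ∀ x, x ∉ A → b x = k := by
      intro x hx
      rw [hb]
      unfold phA
      beta_reduce
      rw [if_neg hx, hch, hU, hk]
      unfold chA
      rw [if_neg hx]
      ring
    have hk2 : ((L : ℝ) ^ 2 * k) ^ 2 ≤ 4 * (α + β) := by
      have h1 : (L : ℝ) ^ 2 * k = (β - α) / (1 - β) := by
        have : 1 - β ≠ 0 := by linarith
        rw [hk]
        field_simp
        ring
      rw [h1, div_pow, div_le_iff₀ (by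
        have : 0 < 1 - β := by linarith
        positivity)]
      have h2 : (1 : ℝ) / 4 ≤ (1 - β) ^ 2 := by nlinarith
      have h3 : (β - α) ^ 2 ≤ α + β := by nlinarith
      have h4 : (α + β) * (1 / 4) ≤ (α + β) * (1 - β) ^ 2 :=
        mul_le_mul_of_nonneg_left h2 (by linarith)
      linarith
    have hpart2 : qf g (univ \ A) b ≤ 4 * (α + β) := by
      refine le_trans ?_ hk2
      unfold qf
      have h1 : ∀ x ∈ univ \ A, (∑ y ∈ cyc g x, b y) ^ 2 / ((cyc g x).card : ℝ) ≤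
          (L : ℝ) ^ 2 * k ^ 2 := by
        intro x hx
        have hc : (0 : ℝ) < ((cyc g x).card : ℝ) := by exact_mod_cast card_cyc_pos g x
        have hc2 : ((cyc g x).card : ℝ) ≤ (L : ℝ) ^ 2 := by
          rw [← card_V (d := 2) (L := L)]
          exact_mod_cast Finset.card_le_univ _
        have h2 : ∑ y ∈ cyc g x, b y = (cyc g x).card * k := by
          rw [Finset.sum_congr rfl fun y hy => hbk y (by
            have h3 := (hUC x y ((mem_cyc g x y).1 hy)).1 hx
            simpa using h3), Finset.sum_const, nsmul_eq_mul]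
        rw [h2]
        have h3 : ((cyc g x).card * k) ^ 2 / ((cyc g x).card : ℝ) = (cyc g x).card * k ^ 2 := by
          field_simp
        rw [h3]
        exact mul_le_mul_of_nonneg_right hc2 (sq_nonneg _)
      refine (Finset.sum_le_sum h1).trans ?_
      rw [Finset.sum_const, nsmul_eq_mul]
      have h4 : ((univ \ A).card : ℝ) ≤ (L : ℝ) ^ 2 := by
        rw [hU]
        nlinarith
      calc ((univ \ A).card : ℝ) * ((L : ℝ) ^ 2 * k ^ 2) ≤ (L : ℝ) ^ 2 * ((L : ℝ) ^ 2 * k ^ 2) :=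
            mul_le_mul_of_nonneg_right h4 (by positivity)
        _ = ((L : ℝ) ^ 2 * k) ^ 2 := by ring
    have hpart3 : qf g (univ \ A) (phA r A z) ≤ (L : ℝ) ^ 2 * ∑ x ∈ univ \ A,
        ((∑ y ∈ cyc g x, phA r A z y) / ((cyc g x).card : ℝ)) ^ 2 := by
      unfold qf
      rw [Finset.mul_sum]
      refine Finset.sum_le_sum fun x _ => ?_
      have hc : (0 : ℝ) < ((cyc g x).card : ℝ) := by exact_mod_cast card_cyc_pos g x
      have hc2 : ((cyc g x).card : ℝ) ≤ (L : ℝ) ^ 2 := by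
        rw [← card_V (d := 2) (L := L)]
        exact_mod_cast Finset.card_le_univ _
      have e1 : (∑ y ∈ cyc g x, phA r A z y) ^ 2 / ((cyc g x).card : ℝ) =
          ((cyc g x).card : ℝ) *
            ((∑ y ∈ cyc g x, phA r A z y) / ((cyc g x).card : ℝ)) ^ 2 := by
        field_simp
      rw [e1]
      exact mul_le_mul_of_nonneg_right hc2 (sq_nonneg _)
    have hthree : qf g (univ \ A) (fun x => al r z x - 1 / (L : ℝ) ^ 2) ≤
        3 * qf g (univ \ A) (phA r A z) + 3 * qf g (univ \ A) b +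
          3 * qf g (univ \ A) (fun _ => 0) := by
      have : (fun x => al r z x - 1 / (L : ℝ) ^ 2) =
          fun x => phA r A z x + b x + (fun _ => (0 : ℝ)) x := by
        funext x
        rw [hb]
        ring
      rw [this]
      exact qf_three g _ _ _ _
    have hzero : qf g (univ \ A) (fun _ => (0 : ℝ)) = 0 := by
      unfold qf
      simp
    rw [hzero] at hthree
    rw [qf_split g A, ← hα]
    linarith
  have hsum : ∑ z : Fin 2 → ZMod L, ∑ x ∈ A, al r z x = A.card := by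
    rw [Finset.sum_comm, Finset.sum_congr rfl fun x _ => al_cover hr hrL x, Finset.sum_const,
      nsmul_eq_mul, mul_one]
  rw [Qb_sub_Qv hr hrL, div_le_iff₀ hL]
  refine (Finset.sum_le_sum fun z _ => hone z).trans (le_of_eq ?_)
  rw [Finset.sum_add_distrib, ← Finset.mul_sum, Finset.sum_add_distrib, hsum,
    Finset.sum_const, Finset.card_univ, nsmul_eq_mul, card_V, ← Finset.mul_sum, ← Finset.mul_sum,
    ← hβ]
  have h6 : (A.card : ℝ) = β * (L : ℝ) ^ 2 := by
    rw [hβ]
    field_simp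
  rw [h6]
  ring

open Classical in
/-- the expectation of `Qb - Qv` in terms of the failure probability and the resolvent bound -/
theorem dev_split2 (e : ℕ → (Fin 2 → ZMod L) × (Fin 2 → ZMod L)) (n : ℕ) (δ w Λ κ f : ℝ) (r : ℕ)
    (B : (ℕ → Bool) → Finset (Fin 2 → ZMod L) → Prop) (h0 : 0 ≤ δ) (h1 : δ ≤ 1) (hw : 0 ≤ w)
    (hw1 : w < 1) (hΛ : 0 ≤ Λ) (hr : 1 ≤ r) (hrL : r ≤ L)
    (hBm : ∀ A, Rmeas e n A (fun ω => B ω A))
    (hres : ∀ ω A, B ω A → Inv (gp e ω n) A → 2 * A.card ≤ L ^ 2 → ∀ z, phA r A z ⬝ᵥ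
      ((1 - w • (dg (univ \ A) * TT e ω A δ n))⁻¹ *ᵥ phA r A z) ≤ Λ)
    (hf : PW e n δ w (fun ω A => ¬ B ω A) ≤ f)
    (hκ : ∀ x, PW e n δ w (fun ω A => x ∈ A ∧ B ω A) ≤ κ) :
    EE n δ (fun ω => Qb r (gp e ω n) - Qv (gp e ω n)) ≤
      3 * ((L : ℝ) ^ 2 * ((1 - w) * Λ)) + 26 * κ + f := by
  have hL : (0 : ℝ) < (L : ℝ) ^ 2 := pow_pos Lpos _
  have hL00 : (L : ℝ) ≠ 0 := Lpos.ne'
  obtain ⟨p1, p2, p3, p4, p5, -⟩ := Pool.Agent.Q277.LC.peb (Fin 2 → ZMod L) e n δ w h0 h1 hw hw1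
  obtain ⟨S, hS⟩ : ∃ S : (Fin 2 → ZMod L) → (ℕ → Bool) → Finset (Fin 2 → ZMod L) → ℝ,
    S = fun z ω A => if B ω A then ∑ x ∈ univ \ A,
      ((∑ y ∈ cyc (gp e ω n) x, psA r A z y) /
        ((cyc (gp e ω n) x).card : ℝ)) ^ 2 else 0 := ⟨_, rfl⟩
  have hSb : ∀ z, PE e n δ w (S z) ≤ (1 - w) * Λ := by
    intro z
    have h2 := Pool.Agent.K9h51.LC.res (Fin 2 → ZMod L) e n δ w Λ B
      (fun _ A => psA r A z) h0 h1 hw hw1 hΛ hBm
      (fun A ω ω' hag => rfl)
      (fun ω A a ha => by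
        unfold psA
        split_ifs
        · exact phA_zero r A z a ha
        · rfl)
      (fun ω A hi hb => by
        by_cases hc : 2 * A.card ≤ L ^ 2
        · have e1 : psA r A z = phA r A z := by
            funext x
            unfold psA
            rw [if_pos hc]
          beta_reduce
          rw [e1]
          exact hres ω A hb hi hc z
        · have e1 : psA r A z = 0 := by
            funext x
            unfold psA
            rw [if_neg hc]
            rfl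
          beta_reduce
          rw [e1, zero_dotProduct]
          exact hΛ)
    rw [hS]
    convert h2 using 2
  have hsum : ∀ (s : Finset (Fin 2 → ZMod L)) (F : (Fin 2 → ZMod L) → (ℕ → Bool) →
      Finset (Fin 2 → ZMod L) → ℝ), PE e n δ w (fun ω A => ∑ z ∈ s, F z ω A) =
        ∑ z ∈ s, PE e n δ w (F z) := by
    intro s F
    induction s using Finset.induction_on with
    | empty =>
      simp only [Finset.sum_empty]
      have := p3 0 (fun _ _ => 0)
      simpa using this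
    | insert a s ha ih =>
      simp only [Finset.sum_insert ha]
      rw [p2 (F a) (fun ω A => ∑ z ∈ s, F z ω A), ih]
  have hmain : EE n δ (fun ω => Qb r (gp e ω n) - Qv (gp e ω n)) ≤
      PE e n δ w (fun ω A => 3 * ∑ z, S z ω A + (26 / (L : ℝ) ^ 2 *
        ∑ x, (if x ∈ A ∧ B ω A then 1 else 0) + if ¬ B ω A then 1 else 0)) := by
    rw [← p1]
    refine p4 _ _ fun ω A hi => ?_
    by_cases hb : B ω A
    · have h2 := dva2 (gp e ω n) A r hr hrL hi
      have h3 : ∑ z, S z ω A = ∑ z, ∑ x ∈ univ \ A,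
          ((∑ y ∈ cyc (gp e ω n) x, psA r A z y) /
            ((cyc (gp e ω n) x).card : ℝ)) ^ 2 := by
        rw [hS]
        simp only [if_pos hb]
      have h4 : ∑ x : Fin 2 → ZMod L, (if x ∈ A ∧ B ω A then (1 : ℝ) else 0) = A.card := by
        simp only [hb, and_true]
        rw [← Finset.sum_filter, Finset.filter_mem_eq_inter, Finset.univ_inter, Finset.sum_const,
          nsmul_eq_mul, mul_one]
      rw [h3, h4, if_neg (not_not.2 hb)]
      have h5 : 26 / (L : ℝ) ^ 2 * (A.card : ℝ) = 26 * (A.card / (L : ℝ) ^ 2) := by ring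
      rw [h5]
      linarith
    · have h3 : ∑ z, S z ω A = 0 := by
        rw [hS]
        simp only [if_neg hb, Finset.sum_const_zero]
      have h4 : ∑ x : Fin 2 → ZMod L, (if x ∈ A ∧ B ω A then (1 : ℝ) else 0) = 0 := by
        simp only [hb, and_false, if_false, Finset.sum_const_zero]
      rw [h3, h4, if_pos hb]
      have h5 := Qb_le hr hrL (gp e ω n)
      linarith
  refine hmain.trans ?_
  rw [p2, p3, p2, p3, hsum]
  have h3 : PE e n δ w (fun ω A => ∑ x, (if x ∈ A ∧ B ω A then (1 : ℝ) else 0)) ≤ (L : ℝ) ^ 2 * κ := by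
    rw [hsum univ (fun x ω A => if x ∈ A ∧ B ω A then (1 : ℝ) else 0)]
    calc ∑ x, PE e n δ w (fun ω A => if x ∈ A ∧ B ω A then (1 : ℝ) else 0) ≤
          ∑ _x : Fin 2 → ZMod L, κ := by
          refine Finset.sum_le_sum fun x _ => ?_
          refine le_trans (le_of_eq ?_) (hκ x)
          rw [← p5 (fun ω A => x ∈ A ∧ B ω A)]
          refine congrArg _ (funext fun ω => funext fun A => ?_)
          by_cases hc : x ∈ A ∧ B ω A
          · rw [if_pos hc, if_pos hc]
          · rw [if_neg hc, if_neg hc]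
      _ = (L : ℝ) ^ 2 * κ := by
          rw [Finset.sum_const, Finset.card_univ, nsmul_eq_mul, card_V]
  have h4 : ∑ z, PE e n δ w (S z) ≤ (L : ℝ) ^ 2 * ((1 - w) * Λ) := by
    calc ∑ z, PE e n δ w (S z) ≤ ∑ _z : Fin 2 → ZMod L, (1 - w) * Λ :=
          Finset.sum_le_sum fun z _ => hSb z
      _ = _ := by rw [Finset.sum_const, Finset.card_univ, nsmul_eq_mul, card_V]
  have h5 : PE e n δ w (fun ω A => if ¬ B ω A then (1 : ℝ) else 0) ≤ f := by
    refine le_trans (le_of_eq ?_) hf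
    rw [← p5 (fun ω A => ¬ B ω A)]
    refine congrArg _ (funext fun ω => funext fun A => ?_)
    by_cases hc : ¬ B ω A
    · rw [if_pos hc, if_pos hc]
    · rw [if_neg hc, if_neg hc]
  have h6 : 26 / (L : ℝ) ^ 2 * PE e n δ w (fun ω A => ∑ x, (if x ∈ A ∧ B ω A then (1 : ℝ) else 0)) ≤
      26 * κ := by
    calc _ ≤ 26 / (L : ℝ) ^ 2 * ((L : ℝ) ^ 2 * κ) := mul_le_mul_of_nonneg_left h3 (by positivity)
      _ = _ := by field_simp
  linarith

end Pool.Agent.K9h51.D2
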