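import Pool.Agent.Q257.LC.Geo
import Pool.Agent.Q277.LC.Ex

/-!
# Project D2: local Poincare inequality in the plane around sparse holes
-/

set_option autoImplicit false

namespace Pool.Agent.K9h51.D2

open Finset Equiv Matrix Q292.LC
open Pool.Agent.Q257.LC (td_comm td_self td_tri mem_bal bal_mono)
open Pool.Agent.Q277.LC (card_bal_le)

section geo

variable {L : ℕ} [NeZero L]

/-- the point at offset `i` in direction `k` and offset `j` in the other direction -/
def pt (k : Fin 2) (x : Fin 2 → ZMod L) (i j : ℤ) : Fin 2 → ZMod L :=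
  fun l => x l + (if l = k then (i : ZMod L) else (j : ZMod L))

theorem pt_swap (x : Fin 2 → ZMod L) (i j : ℤ) : pt 1 x j i = pt 0 x i j := by
  funext l
  unfold pt
  fin_cases l <;> simp

theorem pt_zero (k : Fin 2) (x : Fin 2 → ZMod L) : pt k x 0 0 = x := by
  funext l
  unfold pt
  simp

theorem vma_le (i : ℤ) : ((i : ZMod L).valMinAbs).natAbs ≤ i.natAbs := by
  refine ZMod.natAbs_min_of_le_div_two L _ _ ?_ (ZMod.natAbs_valMinAbs_le _)
  rw [ZMod.coe_valMinAbs]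

theorem td_pt (k : Fin 2) (x : Fin 2 → ZMod L) (i j i' j' : ℤ) :
    td (pt k x i j) (pt k x i' j') ≤ (i - i').natAbs + (j - j').natAbs := by
  unfold td pt
  rw [Fin.sum_univ_two]
  have h : ∀ a b c : ZMod L, a + b - (a + c) = b - c := fun a b c => by ring
  simp only [h]
  have h1 := vma_le (L := L) (i - i')
  have h2 := vma_le (L := L) (j - j')
  push_cast at h1 h2
  fin_cases k
  · simp only [Fin.zero_eta, if_true, Fin.isValue, one_ne_zero, if_false]
    omega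
  · simp only [Fin.mk_one, if_true, Fin.isValue, zero_ne_one, if_false]
    omega

theorem td_pt0 (k : Fin 2) (x : Fin 2 → ZMod L) (i j : ℤ) :
    td x (pt k x i j) ≤ i.natAbs + j.natAbs := by
  have h := td_pt k x 0 0 i j
  rw [pt_zero] at h
  simpa using h

/-- points at distance at most `R` from `H` -/
def nbh (H : Finset (Fin 2 → ZMod L)) (R : ℕ) : Finset (Fin 2 → ZMod L) :=
  univ.filter fun x => ∃ h ∈ H, td x h ≤ R

theorem mem_nbh (H : Finset (Fin 2 → ZMod L)) (R : ℕ) (x : Fin 2 → ZMod L) :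
    x ∈ nbh H R ↔ ∃ h ∈ H, td x h ≤ R := by
  unfold nbh
  simp

/-- there is a line without bad points -/
theorem good_line (H : Finset (Fin 2 → ZMod L)) (lam D W N s₀ : ℕ)
    (hH : ∀ v, (H ∩ bal v W).card ≤ lam) (hN : lam * (2 * D + 1) < N + 1) (hNL : N < L)
    (k : Fin 2) (x : Fin 2 → ZMod L) (a : ℤ)
    (hW : a.natAbs + N + s₀ + D ≤ W) :
    ∃ c : ℤ, a ≤ c ∧ c ≤ a + N ∧ ∀ s : ℤ, s.natAbs ≤ s₀ → pt k x c s ∉ nbh H D := by
  by_contra hcon
  push Not at hcon
  have h1 : ∀ c ∈ Finset.Icc a (a + N), ∃ p : (Fin 2 → ZMod L) × ℤ,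
      p.1 ∈ H ∩ bal x W ∧ p.2 ∈ Finset.Icc (-(D : ℤ)) D ∧
      (p.2 : ZMod L) = x k + c - p.1 k := by
    intro c hc
    rw [Finset.mem_Icc] at hc
    obtain ⟨s, hs, hb⟩ := hcon c hc.1 hc.2
    rw [mem_nbh] at hb
    obtain ⟨h, hh, htd⟩ := hb
    refine ⟨(h, (x k + c - h k).valMinAbs), ?_, ?_, ?_⟩
    · rw [mem_inter]
      refine ⟨hh, ?_⟩
      rw [mem_bal]
      change td x h ≤ W
      have h2 := td_tri x (pt k x c s) h
      have h3 := td_pt0 k x c s
      omega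
    · have h4 : ((x k + c - h k).valMinAbs).natAbs ≤ D := by
        refine le_trans ?_ htd
        unfold td
        have h5 := Finset.single_le_sum (f := fun l => ((pt k x c s) l - h l).valMinAbs.natAbs)
          (fun _ _ => Nat.zero_le _) (Finset.mem_univ k)
        refine le_trans (le_of_eq ?_) h5
        beta_reduce
        unfold pt
        rw [if_pos rfl]
      rw [Finset.mem_Icc]
      simp only
      omega
    · simp only
      rw [ZMod.coe_valMinAbs]
  choose! p hp using h1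
  have hcard : (Finset.Icc a (a + N)).card ≤ ((H ∩ bal x W) ×ˢ Finset.Icc (-(D : ℤ)) D).card := by
    refine Finset.card_le_card_of_injOn p ?_ ?_
    · intro c hc
      rw [Finset.mem_coe] at hc
      have := hp c hc
      rw [Finset.mem_coe, Finset.mem_product]
      exact ⟨this.1, this.2.1⟩
    · intro c hc c' hc' he
      rw [Finset.mem_coe] at hc hc'
      have h2 := (hp c hc).2.2
      have h3 := (hp c' hc').2.2
      rw [he, h3] at h2
      have h4 : ((c' : ℤ) : ZMod L) = (c : ZMod L) := by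
        have h5 := sub_left_injective h2
        exact add_left_cancel h5
      rw [ZMod.intCast_eq_intCast_iff_dvd_sub] at h4
      rw [Finset.mem_Icc] at hc hc'
      by_contra hne
      have h6 := Int.le_of_dvd (a := (L : ℤ)) (b := |c - c'|)
        (abs_pos.2 (sub_ne_zero.2 hne)) ((dvd_abs _ _).2 h4)
      have h7 : |c - c'| ≤ N := by
        rw [abs_le]
        constructor <;> omega
      omega
  rw [Finset.card_product, Int.card_Icc, Int.card_Icc] at hcard
  have h2 := hH x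
  have h3 : (H ∩ bal x W).card * ((D : ℤ) + 1 - -(D : ℤ)).toNat ≤ lam * (2 * D + 1) := by
    refine Nat.mul_le_mul h2 ?_
    omega
  omega

/-- one straight piece of a path -/
theorem seg (f : (Fin 2 → ZMod L) → ℝ) (e : ℝ) (k : Fin 2) (x : Fin 2 → ZMod L) (s : ℤ)
    (Gd : (Fin 2 → ZMod L) → Prop)
    (hE : ∀ u v, Gd u → Gd v → td u v ≤ 1 → |f u - f v| ≤ e) (i₀ : ℤ) (n : ℕ)
    (hG : ∀ i : ℤ, i₀ ≤ i → i ≤ i₀ + n → Gd (pt k x i s)) :
    |f (pt k x i₀ s) - f (pt k x (i₀ + n) s)| ≤ n * e := by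
  induction n with
  | zero => simp
  | succ n ih =>
    have h1 := ih (fun i h1 h2 => hG i h1 (by push_cast; omega))
    have h2 := hE (pt k x (i₀ + n) s) (pt k x (i₀ + (n + 1 : ℕ)) s) (hG _ (by omega) (by push_cast; omega))
      (hG _ (by omega) (by push_cast; omega)) (by
        refine (td_pt k x _ _ _ _).trans ?_
        push_cast
        simp)
    have h3 := abs_sub_le (f (pt k x i₀ s)) (f (pt k x (i₀ + n) s)) (f (pt k x (i₀ + (n + 1 : ℕ)) s))
    push_cast at h1 h2 h3 ⊢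
    linarith

/-- straight piece between two integers -/
theorem seg2 (f : (Fin 2 → ZMod L) → ℝ) (e : ℝ) (he : 0 ≤ e) (k : Fin 2) (x : Fin 2 → ZMod L) (s : ℤ)
    (Gd : (Fin 2 → ZMod L) → Prop)
    (hE : ∀ u v, Gd u → Gd v → td u v ≤ 1 → |f u - f v| ≤ e) (i₀ i₁ : ℤ) (m : ℕ)
    (hm : (i₁ - i₀).natAbs ≤ m)
    (hG : ∀ i : ℤ, min i₀ i₁ ≤ i → i ≤ max i₀ i₁ → Gd (pt k x i s)) :
    |f (pt k x i₀ s) - f (pt k x i₁ s)| ≤ m * e := by
  have hmr : (((i₁ - i₀).natAbs : ℕ) : ℝ) * e ≤ m * e := by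
    refine mul_le_mul_of_nonneg_right ?_ he
    exact_mod_cast hm
  rcases le_total i₀ i₁ with h | h
  · have h1 := seg f e k x s Gd hE i₀ (i₁ - i₀).natAbs (fun i h1 h2 => hG i (by
      rw [min_eq_left h]; exact h1) (by rw [max_eq_right h]; omega))
    have h2 : i₀ + ((i₁ - i₀).natAbs : ℕ) = i₁ := by omega
    rw [h2] at h1
    exact h1.trans hmr
  · have h1 := seg f e k x s Gd hE i₁ (i₁ - i₀).natAbs (fun i h1 h2 => hG i (by
      rw [min_eq_right h]; exact h1) (by rw [max_eq_left h]; omega))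
    have h2 : i₁ + ((i₁ - i₀).natAbs : ℕ) = i₀ := by omega
    rw [h2] at h1
    rw [abs_sub_comm]
    exact h1.trans hmr

/-- two points far from the holes -/
theorem two_far (H : Finset (Fin 2 → ZMod L)) (lam D W N R b : ℕ)
    (hH : ∀ v, (H ∩ bal v W).card ≤ lam) (hN : lam * (2 * D + 1) < N + 1) (hNL : N < L)
    (hNb : 9 * N ≤ b) (hRN : D + N ≤ R) (hW : 9 * b + N + D ≤ W)
    (f : (Fin 2 → ZMod L) → ℝ) (e : ℝ) (he : 0 ≤ e) (x y : Fin 2 → ZMod L)
    (hx : x ∉ nbh H R) (hy : y ∉ nbh H R) (hxy : td x y ≤ 4 * b)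
    (hE : ∀ u v, u ∉ nbh H D → v ∉ nbh H D → td x u ≤ 10 * b → td u v ≤ 1 → |f u - f v| ≤ e) :
    |f x - f y| ≤ 10 * b * e := by
  obtain ⟨a, ha⟩ : ∃ a : ℤ, a = (y 0 - x 0).valMinAbs := ⟨_, rfl⟩
  obtain ⟨b', hb'⟩ : ∃ b' : ℤ, b' = (y 1 - x 1).valMinAbs := ⟨_, rfl⟩
  have hab : a.natAbs + b'.natAbs ≤ 4 * b := by
    rw [td_comm] at hxy
    unfold td at hxy
    rw [Fin.sum_univ_two] at hxy
    rw [ha, hb']
    exact hxy
  have hyp : y = pt 0 x a b' := by
    funext l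
    unfold pt
    fin_cases l
    · simp only [Fin.zero_eta, if_true]
      rw [ha, ZMod.coe_valMinAbs]
      ring
    · simp only [Fin.mk_one, Fin.isValue, one_ne_zero, if_false]
      rw [hb', ZMod.coe_valMinAbs]
      ring
  obtain ⟨c, hc1, hc2, hc3⟩ := good_line H lam D W N (5 * b) hH hN hNL 0 x 0 (by simp; omega)
  obtain ⟨c', hc'1, hc'2, hc'3⟩ := good_line H lam D W N (5 * b) hH hN hNL 0 x a (by omega)
  obtain ⟨s, hs1, hs2, hs3⟩ := good_line H lam D W N (5 * b) hH hN hNL 1 x 0 (by simp; omega)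
  -- good predicate
  obtain ⟨Gd, hGd⟩ : ∃ Gd : (Fin 2 → ZMod L) → Prop, Gd = fun u => u ∉ nbh H D ∧ td x u ≤ 10 * b :=
    ⟨_, rfl⟩
  have hE2 : ∀ u v, Gd u → Gd v → td u v ≤ 1 → |f u - f v| ≤ e := by
    intro u v hu hv huv
    rw [hGd] at hu hv
    exact hE u v hu.1 hv.1 hu.2 huv
  have hfar : ∀ z : Fin 2 → ZMod L, z ∉ nbh H R → ∀ u, td z u ≤ N → u ∉ nbh H D := by
    intro z hz u hu hcon
    apply hz
    rw [mem_nbh] at hcon ⊢
    obtain ⟨h, hh, hd⟩ := hcon
    exact ⟨h, hh, (td_tri z u h).trans (by omega)⟩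
  have s1 : |f (pt 0 x 0 0) - f (pt 0 x c 0)| ≤ (N : ℕ) * e := by
    refine seg2 f e he 0 x 0 Gd hE2 0 c N (by omega) (fun i h1 h2 => ?_)
    have h3 := td_pt0 0 x i 0
    rw [hGd]
    refine ⟨hfar x hx _ ?_, ?_⟩ <;> omega
  have s2 : |f (pt 1 x 0 c) - f (pt 1 x s c)| ≤ (N : ℕ) * e := by
    refine seg2 f e he 1 x c Gd hE2 0 s N (by omega) (fun i h1 h2 => ?_)
    have h3 := td_pt0 1 x i c
    rw [hGd]
    refine ⟨?_, by omega⟩
    rw [pt_swap]
    exact hc3 i (by omega)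
  have s3 : |f (pt 0 x c s) - f (pt 0 x c' s)| ≤ (4 * b + N : ℕ) * e := by
    refine seg2 f e he 0 x s Gd hE2 c c' (4 * b + N) (by omega) (fun i h1 h2 => ?_)
    have h3 := td_pt0 0 x i s
    rw [hGd]
    refine ⟨?_, by omega⟩
    rw [← pt_swap]
    exact hs3 i (by omega)
  have s4 : |f (pt 1 x s c') - f (pt 1 x b' c')| ≤ (4 * b + N : ℕ) * e := by
    refine seg2 f e he 1 x c' Gd hE2 s b' (4 * b + N) (by omega) (fun i h1 h2 => ?_)
    have h3 := td_pt0 1 x i c'
    rw [hGd]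
    refine ⟨?_, by omega⟩
    rw [pt_swap]
    exact hc'3 i (by omega)
  have s5 : |f (pt 0 x c' b') - f (pt 0 x a b')| ≤ (N : ℕ) * e := by
    refine seg2 f e he 0 x b' Gd hE2 c' a N (by omega) (fun i h1 h2 => ?_)
    have h3 := td_pt0 0 x i b'
    have h4 := td_pt 0 x a b' i b'
    rw [hGd]
    refine ⟨hfar y hy _ ?_, by omega⟩
    rw [hyp]
    refine h4.trans ?_
    omega
  rw [pt_swap, pt_swap] at s2 s4
  rw [pt_zero] at s1
  rw [← hyp] at s5
  have t1 := abs_sub_le (f x) (f (pt 0 x c 0)) (f y)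
  have t2 := abs_sub_le (f (pt 0 x c 0)) (f (pt 0 x c s)) (f y)
  have t3 := abs_sub_le (f (pt 0 x c s)) (f (pt 0 x c' s)) (f y)
  have t4 := abs_sub_le (f (pt 0 x c' s)) (f (pt 0 x c' b')) (f y)
  have hN9 : (9 * (N : ℝ)) ≤ b := by exact_mod_cast hNb
  have h6 : (N : ℝ) * e + N * e + (4 * b + N : ℕ) * e + (4 * b + N : ℕ) * e + N * e ≤
      10 * b * e := by
    push_cast
    have h7 : (N : ℝ) + N + (4 * b + N) + (4 * b + N) + N ≤ 10 * b := by linarith
    nlinarith [mul_le_mul_of_nonneg_right h7 he]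
  linarith

end geo

end Pool.Agent.K9h51.D2
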