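import Pool.Agent.K9h51.D2.Lap3

/-!
# Project D2: decay of functions with mean zero in a sparse environment in the plane
-/

set_option autoImplicit false

namespace Pool.Agent.K9h51.D2

open Finset Equiv Matrix Q292.LC
open Pool.Agent.Q257.LC (td_comm td_self td_tri mem_bal bal_mono cc_nonneg Aj fj fj_nonneg fj_sum
  fj_zero fj_add fj_mono card_V SMOb NASb FREb smooth vecMul_sq_le sum_vecMul_sq_le box_sub)
open Pool.Agent.Q277.LC (card_bal_le)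

/-- body of `S_POI` in the plane -/
def POI2 (C : ℝ) : Prop := ∀ (L : ℕ) [NeZero L] (r M : ℕ),
  1 ≤ r → 1 ≤ M → M * r ≤ L → ∀ (z : Fin 2 → ZMod L) (Dm : Finset (Fin 2 → ZMod L)),
  (∀ v, 2 * (Dm ∩ box v r).card ≤ r ^ 2) → ∀ f : (Fin 2 → ZMod L) → ℝ,
  ∑ x ∈ box z (M * r) \ Dm, ∑ y ∈ box z (M * r) \ Dm, (f x - f y) ^ 2 ≤
    C * M ^ (2 + 2) * ∑ x ∈ box z (M * r) \ Dm, ∑ y ∈ box z (M * r) \ Dm,
      if td x y ≤ 2 * 2 * r then (f x - f y) ^ 2 else 0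

section pieces

variable {L : ℕ} [NeZero L]

/-- a set which fills at most half of every box fills at most half of the torus -/
theorem half_card (Dm : Finset (Fin 2 → ZMod L)) (b : ℕ) (hb : 1 ≤ b) (hbL : b ≤ L)
    (hbox : ∀ v, 2 * (Dm ∩ Q292.LC.box v b).card ≤ b ^ 2) : 2 * Dm.card ≤ L ^ 2 := by
  have h1 : ∑ v : Fin 2 → ZMod L, (Dm ∩ Q292.LC.box v b).card = b ^ 2 * Dm.card := by
    have h2 : ∀ v : Fin 2 → ZMod L, (Dm ∩ Q292.LC.box v b).card =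
        ∑ x ∈ Dm, if x ∈ Q292.LC.box v b then 1 else 0 := by
      intro v
      rw [← Finset.card_filter, Finset.filter_mem_eq_inter]
    rw [Finset.sum_congr rfl fun v _ => h2 v, Finset.sum_comm]
    have h3 : ∀ x ∈ Dm, (∑ v : Fin 2 → ZMod L, if x ∈ Q292.LC.box v b then 1 else 0) = b ^ 2 := by
      intro x _
      rw [← Finset.card_filter]
      exact Pool.Agent.Q187.LC.Nas.card_cover x b hbL
    rw [Finset.sum_congr rfl h3, Finset.sum_const, smul_eq_mul, mul_comm]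
  have h4 : ∑ v : Fin 2 → ZMod L, 2 * (Dm ∩ Q292.LC.box v b).card ≤
      ∑ _v : Fin 2 → ZMod L, b ^ 2 := Finset.sum_le_sum fun v _ => hbox v
  rw [← Finset.mul_sum, h1, Finset.sum_const, Finset.card_univ, card_V, smul_eq_mul] at h4
  have hb2 : 0 < b ^ 2 := by positivity
  have h5 : b ^ 2 * (2 * Dm.card) ≤ b ^ 2 * L ^ 2 := by
    calc b ^ 2 * (2 * Dm.card) = 2 * (b ^ 2 * Dm.card) := by ring
      _ ≤ L ^ 2 * b ^ 2 := h4
      _ = _ := by ring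
  exact Nat.le_of_mul_le_mul_left h5 hb2

/-- every pair of points is in many large boxes -/
theorem pair_cover (x y : Fin 2 → ZMod L) (R : ℕ) (hR : R ≤ L) :
    2 * R ^ 2 ≤ L ^ 2 + (univ.filter fun z : Fin 2 → ZMod L =>
      x ∈ Q292.LC.box z R ∧ y ∈ Q292.LC.box z R).card := by
  have h1 := Pool.Agent.Q187.LC.Nas.card_cover x R hR
  have h2 := Pool.Agent.Q187.LC.Nas.card_cover y R hR
  have h3 := Finset.card_union_add_card_inter
    (univ.filter fun z : Fin 2 → ZMod L => x ∈ Q292.LC.box z R)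
    (univ.filter fun z : Fin 2 → ZMod L => y ∈ Q292.LC.box z R)
  rw [h1, h2] at h3
  have h4 : ((univ.filter fun z : Fin 2 → ZMod L => x ∈ Q292.LC.box z R) ∪
      (univ.filter fun z : Fin 2 → ZMod L => y ∈ Q292.LC.box z R)).card ≤ L ^ 2 := by
    rw [← card_V (d := 2) (L := L)]
    exact card_le_univ _
  have h5 : (univ.filter fun z : Fin 2 → ZMod L => x ∈ Q292.LC.box z R) ∩
      (univ.filter fun z : Fin 2 → ZMod L => y ∈ Q292.LC.box z R) =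
      univ.filter fun z : Fin 2 → ZMod L => x ∈ Q292.LC.box z R ∧ y ∈ Q292.LC.box z R := by
    ext z
    simp
  rw [h5] at h3
  omega

/-- Poincaré inequality on the torus for near pairs -/
theorem poi_top {Cp : ℝ} (hCp : 1 ≤ Cp) (hPOI : POI2 Cp) (Dm : Finset (Fin 2 → ZMod L)) (b : ℕ)
    (hb : 1 ≤ b) (hbL : 8 * b ≤ L) (hbox : ∀ v, 2 * (Dm ∩ Q292.LC.box v b).card ≤ b ^ 2)
    (f : (Fin 2 → ZMod L) → ℝ) (hf : ∑ x, f x = 0) :
    ∑ x, f x ^ 2 ≤ 2 * Cp * (L : ℝ) ^ 2 / (b : ℝ) ^ 4 * E4 Dm b f + 2 * ∑ x ∈ Dm, f x ^ 2 := by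
  obtain ⟨M, hM⟩ : ∃ M, M = L / b := ⟨_, rfl⟩
  have hMb : M * b ≤ L := by rw [hM]; exact Nat.div_mul_le_self _ _
  have hMb2 : L < M * b + b := by
    have := Nat.lt_mul_div_succ L hb
    rw [← hM, mul_comm] at this
    linarith [this, Nat.succ_mul M b]
  have hM1 : 1 ≤ M := by
    rw [hM, Nat.one_le_div_iff (by omega)]
    omega
  have hL0 : (0 : ℝ) < L := by
    have : 0 < L := by omega
    exact_mod_cast this
  have hb0 : (0 : ℝ) < b := by exact_mod_cast hb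
  have hhalf := half_card Dm b hb (by omega) hbox
  obtain ⟨Df, hDf⟩ : ∃ Df : (Fin 2 → ZMod L) → (Fin 2 → ZMod L) → ℝ,
    Df = fun x y => if x ∉ Dm ∧ y ∉ Dm then (f x - f y) ^ 2 else 0 := ⟨_, rfl⟩
  have hDf0 : ∀ x y, 0 ≤ Df x y := by
    intro x y
    rw [hDf]
    beta_reduce
    split_ifs
    · exact sq_nonneg _
    · exact le_rfl
  -- sum over all boxes
  have hcov : ∀ z : Fin 2 → ZMod L, ∑ x ∈ Q292.LC.box z (M * b) \ Dm,
      ∑ y ∈ Q292.LC.box z (M * b) \ Dm, (f x - f y) ^ 2 =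
      ∑ x, ∑ y, if x ∈ Q292.LC.box z (M * b) ∧ y ∈ Q292.LC.box z (M * b) then Df x y else 0 := by
    intro z
    rw [← Finset.sum_subset (Finset.subset_univ (Q292.LC.box z (M * b) \ Dm))]
    · refine Finset.sum_congr rfl fun x hx => ?_
      rw [← Finset.sum_subset (Finset.subset_univ (Q292.LC.box z (M * b) \ Dm))]
      · refine Finset.sum_congr rfl fun y hy => ?_
        rw [Finset.mem_sdiff] at hx hy
        rw [if_pos ⟨hx.1, hy.1⟩, hDf]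
        beta_reduce
        rw [if_pos ⟨hx.2, hy.2⟩]
      · intro y _ hy
        rw [Finset.mem_sdiff, not_and_or, not_not] at hy
        rcases hy with hy | hy
        · rw [if_neg (fun h => hy h.2)]
        · rw [hDf]
          beta_reduce
          rw [if_neg (fun h : x ∉ Dm ∧ y ∉ Dm => h.2 hy), ite_self]
    · intro x _ hx
      refine Finset.sum_eq_zero fun y _ => ?_
      rw [Finset.mem_sdiff, not_and_or, not_not] at hx
      rcases hx with hx | hx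
      · rw [if_neg (fun h => hx h.1)]
      · rw [hDf]
        beta_reduce
        rw [if_neg (fun h : x ∉ Dm ∧ y ∉ Dm => h.1 hx), ite_self]
  have hcount : ∀ x y : Fin 2 → ZMod L, (L : ℝ) ^ 2 / 2 * Df x y ≤
      ∑ z : Fin 2 → ZMod L, if x ∈ Q292.LC.box z (M * b) ∧ y ∈ Q292.LC.box z (M * b) then
        Df x y else 0 := by
    intro x y
    rw [← Finset.sum_filter, Finset.sum_const, nsmul_eq_mul]
    refine mul_le_mul_of_nonneg_right ?_ (hDf0 x y)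
    have h1 := pair_cover x y (M * b) hMb
    have h2 : (2 : ℝ) * ((M * b : ℕ) : ℝ) ^ 2 ≤ (L : ℝ) ^ 2 +
        ((univ.filter fun z : Fin 2 → ZMod L =>
          x ∈ Q292.LC.box z (M * b) ∧ y ∈ Q292.LC.box z (M * b)).card : ℝ) := by
      exact_mod_cast h1
    have h3 : (7 : ℝ) / 8 * L ≤ ((M * b : ℕ) : ℝ) := by
      have h4 : 7 * L ≤ 8 * (M * b) := by omega
      have h5 : (7 : ℝ) * L ≤ 8 * ((M * b : ℕ) : ℝ) := by exact_mod_cast h4
      linarith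
    have h6 : ((7 : ℝ) / 8 * L) ^ 2 ≤ ((M * b : ℕ) : ℝ) ^ 2 := pow_le_pow_left₀ (by positivity) h3 2
    nlinarith
  have hlow : (L : ℝ) ^ 2 / 2 * ∑ x, ∑ y, Df x y ≤ ∑ z : Fin 2 → ZMod L,
      ∑ x ∈ Q292.LC.box z (M * b) \ Dm, ∑ y ∈ Q292.LC.box z (M * b) \ Dm, (f x - f y) ^ 2 := by
    rw [Finset.sum_congr rfl fun z _ => hcov z]
    have e1 : ∑ z : Fin 2 → ZMod L, ∑ x : Fin 2 → ZMod L, ∑ y : Fin 2 → ZMod L,
        (if x ∈ Q292.LC.box z (M * b) ∧ y ∈ Q292.LC.box z (M * b) then Df x y else 0) =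
        ∑ x : Fin 2 → ZMod L, ∑ y : Fin 2 → ZMod L, ∑ z : Fin 2 → ZMod L,
        (if x ∈ Q292.LC.box z (M * b) ∧ y ∈ Q292.LC.box z (M * b) then Df x y else 0) := by
      rw [Finset.sum_comm]
      exact Finset.sum_congr rfl fun x _ => Finset.sum_comm
    rw [e1, Finset.mul_sum]
    refine Finset.sum_le_sum fun x _ => ?_
    rw [Finset.mul_sum]
    exact Finset.sum_le_sum fun y _ => hcount x y
  have hup : ∀ z : Fin 2 → ZMod L, ∑ x ∈ Q292.LC.box z (M * b) \ Dm,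
      ∑ y ∈ Q292.LC.box z (M * b) \ Dm, (f x - f y) ^ 2 ≤ Cp * (M : ℝ) ^ 4 * E4 Dm b f := by
    intro z
    have h1 := hPOI L b M hb hM1 hMb z Dm hbox f
    refine h1.trans ?_
    have e1 : (2 + 2 : ℕ) = 4 := rfl
    rw [e1]
    refine mul_le_mul_of_nonneg_left ?_ (by positivity)
    unfold E4
    calc ∑ x ∈ Q292.LC.box z (M * b) \ Dm, ∑ y ∈ Q292.LC.box z (M * b) \ Dm,
          (if td x y ≤ 2 * 2 * b then (f x - f y) ^ 2 else 0)
        ≤ ∑ x ∈ Q292.LC.box z (M * b) \ Dm, ∑ y ∈ Q292.LC.box z (M * b) \ Dm,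
          (if x ∉ Dm ∧ y ∉ Dm ∧ td x y ≤ 2 * 2 * b then (f x - f y) ^ 2 else 0) := by
          refine Finset.sum_le_sum fun x hx => Finset.sum_le_sum fun y hy => le_of_eq ?_
          rw [Finset.mem_sdiff] at hx hy
          simp only [hx.2, hy.2, not_false_eq_true, true_and]
      _ ≤ ∑ x, ∑ y, (if x ∉ Dm ∧ y ∉ Dm ∧ td x y ≤ 2 * 2 * b then (f x - f y) ^ 2 else 0) := by
          have hnn : ∀ x y : Fin 2 → ZMod L, 0 ≤
              (if x ∉ Dm ∧ y ∉ Dm ∧ td x y ≤ 2 * 2 * b then (f x - f y) ^ 2 else 0) := by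
            intro x y
            split_ifs
            · exact sq_nonneg _
            · exact le_rfl
          refine (Finset.sum_le_sum fun x _ =>
            Finset.sum_le_sum_of_subset_of_nonneg (Finset.subset_univ _)
              fun y _ _ => hnn x y).trans ?_
          exact Finset.sum_le_sum_of_subset_of_nonneg (Finset.subset_univ _)
            fun x _ _ => Finset.sum_nonneg fun y _ => hnn x y
  have hE0 := E4_nonneg Dm b f
  have hmain : ∑ x, ∑ y, Df x y ≤ 2 * (Cp * (M : ℝ) ^ 4 * E4 Dm b f) := by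
    have h1 : (L : ℝ) ^ 2 / 2 * ∑ x, ∑ y, Df x y ≤ (L : ℝ) ^ 2 * (Cp * (M : ℝ) ^ 4 * E4 Dm b f) := by
      refine hlow.trans ((Finset.sum_le_sum fun z _ => hup z).trans (le_of_eq ?_))
      rw [Finset.sum_const, Finset.card_univ, card_V, nsmul_eq_mul]
      push_cast
      ring
    have h2 : 0 < (L : ℝ) ^ 2 := by positivity
    have h3 : (L : ℝ) ^ 2 * (∑ x, ∑ y, Df x y) ≤ (L : ℝ) ^ 2 * (2 * (Cp * (M : ℝ) ^ 4 * E4 Dm b f)) := by
      linarith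
    exact le_of_mul_le_mul_left h3 h2
  -- variance
  obtain ⟨U, hU⟩ : ∃ U, U = univ \ Dm := ⟨_, rfl⟩
  obtain ⟨N, hN⟩ : ∃ N : ℝ, N = (U.card : ℝ) := ⟨_, rfl⟩
  have hvar : ∑ x, ∑ y, Df x y = 2 * N * ∑ x ∈ U, f x ^ 2 - 2 * (∑ x ∈ U, f x) ^ 2 := by
    have h1 : ∑ x, ∑ y, Df x y = ∑ x ∈ U, ∑ y ∈ U, (f x - f y) ^ 2 := by
      rw [← Finset.sum_subset (Finset.subset_univ U)]
      · refine Finset.sum_congr rfl fun x hx => ?_
        rw [← Finset.sum_subset (Finset.subset_univ U)]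
        · refine Finset.sum_congr rfl fun y hy => ?_
          rw [hU, Finset.mem_sdiff] at hx hy
          rw [hDf]
          beta_reduce
          rw [if_pos ⟨hx.2, hy.2⟩]
        · intro y _ hy
          rw [hU] at hy
          simp only [mem_sdiff, mem_univ, true_and, not_not] at hy
          rw [hDf]
          beta_reduce
          rw [if_neg (fun h : x ∉ Dm ∧ y ∉ Dm => h.2 hy)]
      · intro x _ hx
        rw [hU] at hx
        simp only [mem_sdiff, mem_univ, true_and, not_not] at hx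
        refine Finset.sum_eq_zero fun y _ => ?_
        rw [hDf]
        beta_reduce
        rw [if_neg (fun h : x ∉ Dm ∧ y ∉ Dm => h.1 hx)]
    rw [h1]
    have h2 : ∀ x ∈ U, ∑ y ∈ U, (f x - f y) ^ 2 = N * f x ^ 2 - 2 * f x * (∑ y ∈ U, f y) +
        ∑ y ∈ U, f y ^ 2 := by
      intro x _
      have h3 : ∀ y ∈ U, (f x - f y) ^ 2 = f x ^ 2 - 2 * f x * f y + f y ^ 2 := fun y _ => by ring
      rw [Finset.sum_congr rfl h3, Finset.sum_add_distrib, Finset.sum_sub_distrib,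
        Finset.sum_const, nsmul_eq_mul, ← hN, ← Finset.mul_sum]
    rw [Finset.sum_congr rfl h2, Finset.sum_add_distrib, Finset.sum_sub_distrib,
      ← Finset.mul_sum, ← Finset.sum_mul, ← Finset.mul_sum, Finset.sum_const, nsmul_eq_mul, ← hN]
    ring
  obtain ⟨S, hS⟩ : ∃ S : ℝ, S = ∑ x ∈ Dm, f x ^ 2 := ⟨_, rfl⟩
  obtain ⟨P, hP⟩ : ∃ P : ℝ, P = ∑ x ∈ U, f x ^ 2 := ⟨_, rfl⟩
  have hS0 : 0 ≤ S := by rw [hS]; exact Finset.sum_nonneg fun _ _ => sq_nonneg _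
  have hsplit : ∑ x, f x ^ 2 = P + S := by
    rw [hP, hS, hU, Finset.sum_sdiff (Finset.subset_univ Dm)]
  have hmean : ∑ x ∈ U, f x = -∑ x ∈ Dm, f x := by
    have h1 : ∑ x ∈ U, f x + ∑ x ∈ Dm, f x = 0 := by
      rw [hU, Finset.sum_sdiff (Finset.subset_univ Dm), hf]
    linarith
  have hNhalf : (L : ℝ) ^ 2 / 2 ≤ N ∧ (Dm.card : ℝ) ≤ N := by
    have h1 : U.card + Dm.card = L ^ 2 := by
      rw [hU, Finset.card_sdiff_add_card_eq_card (Finset.subset_univ Dm), Finset.card_univ, card_V]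
    have h2 : N + Dm.card = (L : ℝ) ^ 2 := by
      rw [hN]
      exact_mod_cast h1
    have h3 : (2 : ℝ) * Dm.card ≤ (L : ℝ) ^ 2 := by exact_mod_cast hhalf
    constructor <;> linarith
  have hCS : (∑ x ∈ U, f x) ^ 2 ≤ N * S := by
    rw [hmean, neg_sq]
    calc (∑ x ∈ Dm, f x) ^ 2 ≤ Dm.card * ∑ x ∈ Dm, f x ^ 2 := sq_sum_le_card_mul_sum_sq
      _ ≤ N * S := by
          rw [← hS]
          exact mul_le_mul_of_nonneg_right hNhalf.2 hS0
  have hN0 : 0 < N := lt_of_lt_of_le (by positivity) hNhalf.1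
  rw [hvar, ← hP] at hmain
  have h1 : N * P ≤ Cp * (M : ℝ) ^ 4 * E4 Dm b f + N * S := by linarith
  have h2 : P ≤ Cp * (M : ℝ) ^ 4 * E4 Dm b f / N + S := by
    have h3 : P * N ≤ (Cp * (M : ℝ) ^ 4 * E4 Dm b f / N + S) * N := by
      rw [add_mul, div_mul_cancel₀ _ hN0.ne']
      linarith
    exact le_of_mul_le_mul_right h3 hN0
  have h3 : Cp * (M : ℝ) ^ 4 * E4 Dm b f / N ≤ 2 * Cp * (L : ℝ) ^ 2 / (b : ℝ) ^ 4 * E4 Dm b f := by
    have h4 : (M : ℝ) ≤ L / b := by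
      rw [le_div_iff₀ hb0]
      exact_mod_cast hMb
    have h5 : (M : ℝ) ^ 4 ≤ (L / b) ^ 4 := pow_le_pow_left₀ (by positivity) h4 4
    rw [div_le_iff₀ hN0]
    have h6 : 2 * Cp * (L : ℝ) ^ 2 / (b : ℝ) ^ 4 * E4 Dm b f * ((L : ℝ) ^ 2 / 2) ≤
        2 * Cp * (L : ℝ) ^ 2 / (b : ℝ) ^ 4 * E4 Dm b f * N :=
      mul_le_mul_of_nonneg_left hNhalf.1 (by positivity)
    refine le_trans ?_ h6
    calc Cp * (M : ℝ) ^ 4 * E4 Dm b f ≤ Cp * (L / b) ^ 4 * E4 Dm b f :=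
          mul_le_mul_of_nonneg_right (mul_le_mul_of_nonneg_left h5 (by linarith)) hE0
      _ = _ := by
          rw [div_pow]
          field_simp
  rw [hsplit, ← hS]
  linarith

end pieces

/-- the block argument for mean zero -/
theorem blockmz (F G : ℕ → ℝ) (hanti : Antitone F) (h0 : ∀ j, 0 ≤ F j)
    (K u0 p u2 : ℕ) (hu2 : u2 = p * u0) (X : ℝ) (hX : 0 < X)
    (hW : ∀ j, j + u0 ≤ K → F j ≤ X * (F j - F (j + u0)) + 2 * G j)
    (hS : ∀ j, u2 ≤ j → j + u0 ≤ K → G j ≤ F (j - u2) / 8) (θ : ℝ) (hθ0 : 0 ≤ θ) (hθ1 : θ ≤ 1)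
    (hθ : θ * (2 * X) ≤ p) (k : ℕ) (hk : 1 ≤ k) (hkK : (k + 1) * u2 ≤ K) :
    (1 + θ) * F ((k + 1) * u2) ≤ F ((k - 1) * u2) := by
  obtain ⟨b, hb⟩ : ∃ b, b = F ((k + 1) * u2) := ⟨_, rfl⟩
  have hb0 : 0 ≤ b := by rw [hb]; exact h0 _
  rw [← hb]
  by_cases h1 : b < F ((k - 1) * u2) / 2
  · nlinarith
  push Not at h1
  have hkk : (k + 1) * u2 = k * u2 + u2 := by ring
  have hstep : ∀ i < p, b ≤ 2 * X * (F (k * u2 + i * u0) - F (k * u2 + (i + 1) * u0)) := by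
    intro i hi
    have hiu : (i + 1) * u0 ≤ u2 := by
      rw [hu2]
      exact Nat.mul_le_mul_right _ hi
    have e1 : k * u2 + i * u0 + u0 = k * u2 + (i + 1) * u0 := by ring
    have hjK : k * u2 + i * u0 + u0 ≤ K := by
      rw [e1]
      omega
    have hj2 : u2 ≤ k * u2 + i * u0 := by
      have : 1 * u2 ≤ k * u2 := Nat.mul_le_mul_right _ hk
      omega
    have hFb : b ≤ F (k * u2 + i * u0) := by rw [hb]; exact hanti (by omega)
    have h3 := hS _ hj2 hjK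
    have h4 : F (k * u2 + i * u0 - u2) ≤ F ((k - 1) * u2) := by
      refine hanti ?_
      have e2 : (k - 1) * u2 = k * u2 - u2 := by
        rw [Nat.sub_mul, one_mul]
      omega
    have h5 := hW _ hjK
    rw [e1] at h5
    linarith
  have hsum : ∀ i ≤ p, i * b ≤ 2 * X * (F (k * u2) - F (k * u2 + i * u0)) := by
    intro i
    induction i with
    | zero => intro _; simp
    | succ i ih =>
      intro hi
      have h6 := ih (by omega)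
      have h7 := hstep i (by omega)
      push_cast
      linarith
  have h8 := hsum p le_rfl
  rw [← hu2, ← hkk, ← hb] at h8
  have h9 : F (k * u2) ≤ F ((k - 1) * u2) := hanti (Nat.mul_le_mul_right _ (by omega))
  have h10 : θ * (2 * X) * b ≤ 2 * X * (F ((k - 1) * u2) - b) := by
    calc θ * (2 * X) * b ≤ p * b := mul_le_mul_of_nonneg_right hθ hb0
      _ ≤ 2 * X * (F (k * u2) - b) := h8
      _ ≤ 2 * X * (F ((k - 1) * u2) - b) := by
          refine mul_le_mul_of_nonneg_left (by linarith) (by positivity)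
  have h11 : 2 * X * (θ * b) ≤ 2 * X * (F ((k - 1) * u2) - b) := by linarith
  have h12 := le_of_mul_le_mul_left h11 (by positivity)
  linarith

/-- many blocks -/
theorem seqmz (F : ℕ → ℝ) (K u2 : ℕ) (θ : ℝ) (hθ0 : 0 ≤ θ) (h0 : ∀ j, 0 ≤ F j)
    (h : ∀ k, 1 ≤ k → (k + 1) * u2 ≤ K → (1 + θ) * F ((k + 1) * u2) ≤ F ((k - 1) * u2)) (n : ℕ)
    (hn : 2 * n * u2 ≤ K) : (1 + n * θ) * F (2 * n * u2) ≤ F 0 := by
  have h1 : ∀ i ≤ n, (1 + θ) ^ i * F (2 * i * u2) ≤ F 0 := by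
    intro i
    induction i with
    | zero => intro _; simp
    | succ i ih =>
      intro hi
      have h2 := ih (by omega)
      have e1 : 2 * (i + 1) = (2 * i + 1) + 1 := by ring
      have h3 := h (2 * i + 1) (by omega) (by
        rw [← e1]
        exact (Nat.mul_le_mul_right _ (by omega)).trans hn)
      rw [← e1] at h3
      have e2 : 2 * i + 1 - 1 = 2 * i := by omega
      rw [e2] at h3
      calc (1 + θ) ^ (i + 1) * F (2 * (i + 1) * u2) =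
            (1 + θ) ^ i * ((1 + θ) * F (2 * (i + 1) * u2)) := by ring
        _ ≤ (1 + θ) ^ i * F (2 * i * u2) := mul_le_mul_of_nonneg_left h3 (by positivity)
        _ ≤ F 0 := h2
  refine le_trans ?_ (h1 n le_rfl)
  refine mul_le_mul_of_nonneg_right ?_ (h0 _)
  exact one_add_mul_le_pow (by linarith) n

theorem mz2 : ∃ C : ℕ, 1 ≤ C ∧ ∀ Z : ℕ, C ≤ Z →
    ∀ (L K lam r ρ κ₀ : ℕ) [NeZero L], lam ≤ Z → ρ ≤ Z → κ₀ ≤ Z → (L : ℝ) ^ 2 ≤ Real.exp Z →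
    Z ^ 43 ≤ r → 8 * Z ^ 43 ≤ L → Z ^ 44 ≤ K → ∃ q₀ : ℕ, ∀ q ≥ q₀,
    ∀ σ : ℕ → (Fin 2 → ZMod L) × Fin 2, Per σ → ∀ δ : ℝ, 1 ≤ δ * q → δ * q ≤ 2 →
    ∀ (ω : ℕ → Bool) (A : Finset (Fin 2 → ZMod L)), Ev σ q K lam r ρ κ₀ ω A →
    ∀ f : (Fin 2 → ZMod L) → ℝ, (∀ x ∈ A, f x = 0) → ∑ x, f x = 0 →
    (1 + K / ((Z : ℝ) ^ 18 * (L : ℝ) ^ 2)) *
      ∑ x, (vecMul f (TT (ed ∘ σ) ω A δ (K * (q * ms 2 L))) x) ^ 2 ≤ ∑ x, (f x) ^ 2 := by
  obtain ⟨C₀, hC₀, hcore⟩ := core2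
  obtain ⟨Cp, hCp1, hp⟩ := Pool.Agent.Q53.LC.poi 2 (by norm_num)
  have hPb : POI2 Cp := hp
  have hCp0 : 0 < Cp := by linarith
  refine ⟨C₀ + ⌈16 * Cp⌉₊ + 1000, by omega, ?_⟩
  intro Z hZ L K lam r ρ κ₀ _ hlam hρ hκ hLd hr hL hK
  have hZ1 : 1000 ≤ Z := by omega
  have hZ0 : 0 < Z := by omega
  have hK2 : Z ^ 2 ≤ K := (Nat.pow_le_pow_right hZ0 (by norm_num)).trans hK
  obtain ⟨q₀, hq₀⟩ := hcore Z (by omega) L K lam r ρ κ₀ hlam hρ hκ hLd hr hL hK2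
  refine ⟨q₀, fun q hq σ hσ δ h1 h2 ω A hE f hfA hf1 => ?_⟩
  obtain ⟨hδ, hδ1, hc⟩ := hq₀ q hq σ hσ δ h1 h2 ω A hE
  obtain ⟨hc1, hc2, hc3⟩ := hc f hfA
  have hz1 : (1000 : ℝ) ≤ Z := by exact_mod_cast hZ1
  have hz0 : (0 : ℝ) < Z := by linarith
  have hL0 : (0 : ℝ) < L := by
    have h3 : 1 ≤ Z ^ 43 := Nat.one_le_pow _ _ hZ0
    have : 0 < L := by omega
    exact_mod_cast this
  obtain ⟨F, hF⟩ : ∃ F : ℕ → ℝ, F = fun j => ∑ x, fj σ q ω A δ f j x ^ 2 := ⟨_, rfl⟩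
  obtain ⟨G, hG⟩ : ∃ G : ℕ → ℝ, G = fun j => ∑ x ∈ nbh (Aj σ q ω A j) (8 * Z ^ 4),
    fj σ q ω A δ f j x ^ 2 := ⟨_, rfl⟩
  have hFmono : ∀ j, F (j + 1) ≤ F j := by
    rw [hF]
    exact fun j => fj_mono Pool.Agent.Q68.LC.bas2 hσ q ω A hδ.le hδ1 f j
  have hFanti : Antitone F := antitone_nat_of_succ_le hFmono
  have hF0 : ∀ j, 0 ≤ F j := by
    rw [hF]
    exact fun j => sum_nonneg fun x _ => sq_nonneg _
  have g0 : F 0 = ∑ x, f x ^ 2 := by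
    rw [hF]
    beta_reduce
    unfold fj
    rw [Nat.zero_mul]
    simp [TT]
  have hbZ : 1 ≤ Z ^ 5 := Nat.one_le_pow _ _ hZ0
  have hb5 : Z ^ 5 ≤ Z ^ 43 := Nat.pow_le_pow_right hZ0 (by norm_num)
  obtain ⟨X, hX⟩ : ∃ X : ℝ, X = 2 * Cp * (L : ℝ) ^ 2 * (Z : ℝ) ^ 15 := ⟨_, rfl⟩
  have hX0 : 0 < X := by rw [hX]; positivity
  have hW : ∀ j, j + Z ^ 2 ≤ K → F j ≤ X * (F j - F (j + Z ^ 2)) + 2 * G j := by
    intro j hj
    have hpt := poi_top hCp1 hPb (nbh (Aj σ q ω A j) (8 * Z ^ 4)) (Z ^ 5) hbZ (by omega) (by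
      intro v
      have h3 : 8 * Z ^ 4 ≤ Z ^ 5 := by
        rw [pow_succ' Z 4]
        exact Nat.mul_le_mul_right _ (by omega)
      have h4 : 3 * Z ^ 5 ≤ Z ^ 43 := by
        have h5 : 3 * Z ^ 5 ≤ Z ^ 6 := by
          rw [pow_succ' Z 5]
          exact Nat.mul_le_mul_right _ (by omega)
        exact h5.trans (Nat.pow_le_pow_right hZ0 (by norm_num))
      have h6 := hc3 j hj v (2 * Z ^ 5) (by omega)
      have h7 := card_le_card (inter_subset_inter_left (s := nbh (Aj σ q ω A j) (8 * Z ^ 4))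
        (box_sub v (Z ^ 5)))
      have h8 : 578 * Z ^ 9 ≤ (Z ^ 5) ^ 2 := by
        have : (Z ^ 5) ^ 2 = Z * Z ^ 9 := by ring
        rw [this]
        exact Nat.mul_le_mul_right _ (by omega)
      omega) (fj σ q ω A δ f j) (by
      rw [fj_sum Pool.Agent.Q68.LC.bas2 σ q ω A hδ.le hδ1 f j]
      exact hf1)
    have hd := hc1 j hj
    rw [hF, hG]
    beta_reduce
    refine hpt.trans ?_
    have h3 : 2 * Cp * (L : ℝ) ^ 2 / ((Z ^ 5 : ℕ) : ℝ) ^ 4 *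
        E4 (nbh (Aj σ q ω A j) (8 * Z ^ 4)) (Z ^ 5) (fj σ q ω A δ f j) ≤
        2 * Cp * (L : ℝ) ^ 2 / ((Z ^ 5 : ℕ) : ℝ) ^ 4 * ((Z : ℝ) ^ 35 *
          (∑ x, fj σ q ω A δ f j x ^ 2 - ∑ x, fj σ q ω A δ f (j + Z ^ 2) x ^ 2)) :=
      mul_le_mul_of_nonneg_left hd (by positivity)
    have h4 : 2 * Cp * (L : ℝ) ^ 2 / ((Z ^ 5 : ℕ) : ℝ) ^ 4 * ((Z : ℝ) ^ 35 *
          (∑ x, fj σ q ω A δ f j x ^ 2 - ∑ x, fj σ q ω A δ f (j + Z ^ 2) x ^ 2)) =
        X * (∑ x, fj σ q ω A δ f j x ^ 2 - ∑ x, fj σ q ω A δ f (j + Z ^ 2) x ^ 2) := by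
      rw [hX]
      push_cast
      field_simp
    linarith
  have hS : ∀ j, Z ^ 39 ≤ j → j + Z ^ 2 ≤ K → G j ≤ F (j - Z ^ 39) / 8 := by
    rw [hF, hG]
    exact hc2
  obtain ⟨θ, hθ⟩ : ∃ θ : ℝ, θ = (Z : ℝ) ^ 22 / (4 * Cp * (L : ℝ) ^ 2) := ⟨_, rfl⟩
  have hθ0 : 0 ≤ θ := by rw [hθ]; positivity
  have hL8 : (8 * (Z : ℝ) ^ 43) ≤ L := by exact_mod_cast hL
  have hZ22 : (Z : ℝ) ^ 22 ≤ (L : ℝ) ^ 2 := by
    have h3 : (Z : ℝ) ^ 22 ≤ (Z : ℝ) ^ 43 := pow_le_pow_right₀ (by linarith) (by norm_num)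
    have h4 : (1 : ℝ) ≤ (Z : ℝ) ^ 22 := one_le_pow₀ (by linarith)
    have h5 : (1 : ℝ) ≤ L := by linarith
    nlinarith
  have hθ1 : θ ≤ 1 := by
    rw [hθ, div_le_one (by positivity)]
    nlinarith [sq_nonneg (L : ℝ)]
  have hθX : θ * (2 * X) ≤ ((Z ^ 37 : ℕ) : ℝ) := by
    rw [hθ, hX]
    push_cast
    refine le_of_eq ?_
    field_simp
    ring
  obtain ⟨n, hn'⟩ : ∃ n : ℕ, n = K / (2 * Z ^ 39) := ⟨_, rfl⟩
  have hnK : 2 * n * Z ^ 39 ≤ K := by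
    have := Nat.div_mul_le_self K (2 * Z ^ 39)
    rw [← hn'] at this
    calc 2 * n * Z ^ 39 = n * (2 * Z ^ 39) := by ring
      _ ≤ K := this
  have hn1 : 1 ≤ n := by
    rw [hn', Nat.one_le_div_iff (by positivity)]
    calc 2 * Z ^ 39 ≤ Z * Z ^ 39 := Nat.mul_le_mul_right _ (by omega)
      _ = Z ^ 40 := by ring
      _ ≤ Z ^ 44 := Nat.pow_le_pow_right hZ0 (by norm_num)
      _ ≤ K := hK
  have hKn : K ≤ 4 * n * Z ^ 39 := by
    have := Nat.lt_mul_div_succ K (show 0 < 2 * Z ^ 39 by positivity)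
    rw [← hn'] at this
    have h3 : 2 * Z ^ 39 * (n + 1) ≤ 2 * Z ^ 39 * (2 * n) := Nat.mul_le_mul_left _ (by omega)
    have h4 : 2 * Z ^ 39 * (2 * n) = 4 * n * Z ^ 39 := by ring
    omega
  have hmain := seqmz F K (Z ^ 39) θ hθ0 hF0 (fun k hk hkK =>
    blockmz F G hFanti hF0 K (Z ^ 2) (Z ^ 37) (Z ^ 39) (by ring) X hX0 hW hS θ hθ0 hθ1 hθX k hk
      hkK) n hnK
  have hfin : F K ≤ F (2 * n * Z ^ 39) := hFanti hnK
  have hFK : ∑ x, (vecMul f (TT (ed ∘ σ) ω A δ (K * (q * ms 2 L))) x) ^ 2 = F K := by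
    rw [hF]
    rfl
  rw [hFK, ← g0]
  refine le_trans ?_ hmain
  have h3 : (K : ℝ) / ((Z : ℝ) ^ 18 * (L : ℝ) ^ 2) ≤ n * θ := by
    rw [hθ, ← mul_div_assoc, div_le_div_iff₀ (by positivity) (by positivity)]
    have h4 : (K : ℝ) ≤ 4 * n * (Z : ℝ) ^ 39 := by exact_mod_cast hKn
    have h5 : 16 * Cp ≤ (Z : ℝ) := by
      refine (Nat.le_ceil _).trans ?_
      exact_mod_cast (by omega : ⌈16 * Cp⌉₊ ≤ Z)
    calc (K : ℝ) * (4 * Cp * (L : ℝ) ^ 2) ≤ (4 * n * (Z : ℝ) ^ 39) * (4 * Cp * (L : ℝ) ^ 2) :=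
          mul_le_mul_of_nonneg_right h4 (by positivity)
      _ = (16 * Cp) * (n * (Z : ℝ) ^ 39 * (L : ℝ) ^ 2) := by ring
      _ ≤ Z * (n * (Z : ℝ) ^ 39 * (L : ℝ) ^ 2) := mul_le_mul_of_nonneg_right h5 (by positivity)
      _ = n * (Z : ℝ) ^ 22 * ((Z : ℝ) ^ 18 * (L : ℝ) ^ 2) := by ring
  have h4 : (0 : ℝ) ≤ (K : ℝ) / ((Z : ℝ) ^ 18 * (L : ℝ) ^ 2) := by positivity
  exact mul_le_mul (by linarith) hfin (hF0 _) (by linarith)

end Pool.Agent.K9h51.D2
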