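import Pool.Agent.K9h51.LC.Res
import Pool.Agent.K9h51.D2.Mz2

/-!
# Project D2: the resolvent form and the norms of the iterates
-/

set_option autoImplicit false

namespace Pool.Agent.K9h51.D2

open Finset Equiv Matrix Q292.LC Filter Topology
open Pool.Agent.Q257.LC (sum_vecMul_sq_le)
open Pool.Agent.Q68.LC (SS SS_dg SS_pow SS_le det_pos)

variable {V : Type} [Fintype V] [DecidableEq V]

/-- Neumann series of the resolvent form -/
theorem neumann (S : Matrix V V ℝ) (hS : SS S) (w : ℝ) (h0 : 0 ≤ w) (h1 : w < 1) (φ : V → ℝ)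
    (B : ℝ) (hB : ∀ N : ℕ, ∑ k ∈ range (2 * N), w ^ k * (φ ⬝ᵥ (S ^ k *ᵥ φ)) ≤ B) :
    φ ⬝ᵥ ((1 - w • S)⁻¹ *ᵥ φ) ≤ B := by
  have hpos := det_pos hS h0 h1
  obtain ⟨M, hM⟩ : ∃ M, M = 1 - w • S := ⟨_, rfl⟩
  rw [← hM] at hpos ⊢
  have hunit : IsUnit M.det := isUnit_iff_ne_zero.2 hpos.ne'
  have e1 : ∀ N : ℕ, M * ∑ k ∈ range N, (w • S) ^ k = 1 - (w • S) ^ N := by
    intro N
    rw [hM]
    exact mul_neg_geom_sum _ _
  have e2 : ∀ N : ℕ, M⁻¹ = ∑ k ∈ range N, (w • S) ^ k + w ^ N • (M⁻¹ * S ^ N) := by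
    intro N
    have h2 : M⁻¹ * (M * ∑ k ∈ range N, (w • S) ^ k) = M⁻¹ * (1 - (w • S) ^ N) := by
      rw [e1 N]
    rw [Matrix.nonsing_inv_mul_cancel_left _ _ hunit] at h2
    rw [h2, Matrix.mul_sub, Matrix.mul_one, smul_pow, Matrix.mul_smul]
    abel
  have e3 : ∀ N : ℕ, φ ⬝ᵥ (M⁻¹ *ᵥ φ) = ∑ k ∈ range N, w ^ k * (φ ⬝ᵥ (S ^ k *ᵥ φ)) +
      w ^ N * (φ ⬝ᵥ ((M⁻¹ * S ^ N) *ᵥ φ)) := by
    intro N
    have h2 : φ ⬝ᵥ (M⁻¹ *ᵥ φ) = φ ⬝ᵥ ((∑ k ∈ range N, (w • S) ^ k + w ^ N • (M⁻¹ * S ^ N)) *ᵥ φ) := by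
      rw [← e2 N]
    rw [h2, Matrix.add_mulVec, dotProduct_add, Matrix.smul_mulVec, dotProduct_smul, smul_eq_mul]
    congr 1
    rw [Matrix.sum_mulVec, dotProduct_sum]
    refine Finset.sum_congr rfl fun k _ => ?_
    rw [smul_pow, Matrix.smul_mulVec, dotProduct_smul, smul_eq_mul]
  obtain ⟨D, hD⟩ : ∃ D : ℝ, D = (∑ x, |(φ ᵥ* M⁻¹) x|) * ∑ y, |φ y| := ⟨_, rfl⟩
  have e4 : ∀ N : ℕ, φ ⬝ᵥ ((M⁻¹ * S ^ N) *ᵥ φ) ≤ D := by
    intro N
    rw [← Matrix.mulVec_mulVec, dotProduct_mulVec]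
    have hSN := SS_pow hS N
    have h3 : ∀ x, |(S ^ N *ᵥ φ) x| ≤ ∑ y, |φ y| := by
      intro x
      refine (Finset.abs_sum_le_sum_abs _ _).trans (Finset.sum_le_sum fun y _ => ?_)
      rw [abs_mul, abs_of_nonneg (hSN.nn x y)]
      exact mul_le_of_le_one_left (abs_nonneg _) (SS_le hSN x y)
    refine (le_abs_self _).trans ((Finset.abs_sum_le_sum_abs _ _).trans ?_)
    rw [hD, Finset.sum_mul]
    refine Finset.sum_le_sum fun x _ => ?_
    rw [abs_mul]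
    exact mul_le_mul_of_nonneg_left (h3 x) (abs_nonneg _)
  have hlim : Tendsto (fun N : ℕ => B + w ^ (2 * N) * D) atTop (𝓝 (B + 0 * D)) := by
    refine tendsto_const_nhds.add (Tendsto.mul_const D ?_)
    have h4 := (tendsto_pow_atTop_nhds_zero_of_lt_one h0 h1).comp
      (tendsto_id.const_mul_atTop' (show 0 < 2 by norm_num))
    exact h4
  rw [zero_mul, add_zero] at hlim
  refine ge_of_tendsto' hlim fun N => ?_
  rw [e3 (2 * N)]
  have h5 := hB N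
  have h6 : w ^ (2 * N) * (φ ⬝ᵥ ((M⁻¹ * S ^ (2 * N)) *ᵥ φ)) ≤ w ^ (2 * N) * D :=
    mul_le_mul_of_nonneg_left (e4 _) (pow_nonneg h0 _)
  linarith

theorem dot_amgm (a b : V → ℝ) : a ⬝ᵥ b ≤ (∑ x, a x ^ 2 + ∑ x, b x ^ 2) / 2 := by
  unfold dotProduct
  rw [← Finset.sum_add_distrib, Finset.sum_div]
  refine Finset.sum_le_sum fun x _ => ?_
  nlinarith [sq_nonneg (a x - b x)]

/-- the norms of the iterates bound the resolvent form -/
theorem res_iter (T : Matrix V V ℝ) (hT : SS T) (A : Finset V) (w : ℝ) (h0 : 0 ≤ w) (h1 : w < 1)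
    (φ : V → ℝ) (hφ : ∀ a ∈ A, φ a = 0) (hTA : ∀ x, x ∉ A → ∀ y ∈ A, T x y = 0) (B₁ B₂ : ℝ)
    (hB₁ : ∀ N, ∑ k ∈ range N, ∑ x, (φ ᵥ* T ^ (k + 1)) x ^ 2 ≤ B₁)
    (hB₂ : ∀ N, ∑ k ∈ range N, ∑ x, (T ^ (k + 1) *ᵥ φ) x ^ 2 ≤ B₂) :
    φ ⬝ᵥ ((1 - w • (dg (univ \ A) * T))⁻¹ *ᵥ φ) ≤ 2 * ∑ x, φ x ^ 2 + B₁ + B₂ := by
  have hSS := SS_dg hT (univ \ A)
  have hdg : ∀ f : V → ℝ, (∀ a ∈ A, f a = 0) → f ᵥ* dg (univ \ A) = f := by
    intro f hf
    funext x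
    unfold dg
    rw [Matrix.vecMul_diagonal]
    by_cases hx : x ∈ A
    · rw [hf x hx, zero_mul]
    · rw [if_pos (by simp [hx]), mul_one]
  have hzero : ∀ f : V → ℝ, (∀ a ∈ A, f a = 0) → ∀ a ∈ A, (f ᵥ* T) a = 0 := by
    intro f hf a ha
    refine Finset.sum_eq_zero fun x _ => ?_
    by_cases hx : x ∈ A
    · rw [hf x hx, zero_mul]
    · beta_reduce
      rw [hTA x hx a ha, mul_zero]
  have hpow : ∀ k : ℕ, φ ᵥ* (dg (univ \ A) * T) ^ k = φ ᵥ* T ^ k ∧ ∀ a ∈ A, (φ ᵥ* T ^ k) a = 0 := by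
    intro k
    induction k with
    | zero => simpa using hφ
    | succ k ih =>
      obtain ⟨ih1, ih2⟩ := ih
      constructor
      · rw [pow_succ, pow_succ, ← Matrix.vecMul_vecMul, ← Matrix.vecMul_vecMul, ih1,
          ← Matrix.vecMul_vecMul, hdg _ ih2]
      · rw [pow_succ, ← Matrix.vecMul_vecMul]
        exact hzero _ ih2
  obtain ⟨u, hu⟩ : ∃ u : ℕ → ℝ, u = fun k => ∑ x, (φ ᵥ* T ^ k) x ^ 2 := ⟨_, rfl⟩
  obtain ⟨v, hv⟩ : ∃ v : ℕ → ℝ, v = fun k => ∑ x, (T ^ k *ᵥ φ) x ^ 2 := ⟨_, rfl⟩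
  have hu0 : ∀ k, 0 ≤ u k := by
    rw [hu]
    exact fun k => Finset.sum_nonneg fun x _ => sq_nonneg _
  have hv0 : ∀ k, 0 ≤ v k := by
    rw [hv]
    exact fun k => Finset.sum_nonneg fun x _ => sq_nonneg _
  have hterm : ∀ i j : ℕ, w ^ (i + j) * (φ ⬝ᵥ ((dg (univ \ A) * T) ^ (i + j) *ᵥ φ)) ≤
      (u i + v j) / 2 := by
    intro i j
    have e1 : φ ⬝ᵥ ((dg (univ \ A) * T) ^ (i + j) *ᵥ φ) = (φ ᵥ* T ^ i) ⬝ᵥ (T ^ j *ᵥ φ) := by
      rw [dotProduct_mulVec, (hpow (i + j)).1, pow_add, ← Matrix.vecMul_vecMul, ← dotProduct_mulVec]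
    rw [e1]
    have h2 : (φ ᵥ* T ^ i) ⬝ᵥ (T ^ j *ᵥ φ) ≤ (u i + v j) / 2 := by
      rw [hu, hv]
      exact dot_amgm _ _
    have h3 : 0 ≤ (u i + v j) / 2 := by
      have := hu0 i
      have := hv0 j
      positivity
    have h4 : w ^ (i + j) ≤ 1 := pow_le_one₀ h0 h1.le
    have h5 : 0 ≤ w ^ (i + j) := pow_nonneg h0 _
    calc w ^ (i + j) * ((φ ᵥ* T ^ i) ⬝ᵥ (T ^ j *ᵥ φ)) ≤ w ^ (i + j) * ((u i + v j) / 2) :=
          mul_le_mul_of_nonneg_left h2 h5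
      _ ≤ 1 * ((u i + v j) / 2) := mul_le_mul_of_nonneg_right h4 h3
      _ = _ := one_mul _
  refine neumann _ hSS w h0 h1 φ _ fun N => ?_
  have h2 : ∀ N : ℕ, ∑ k ∈ range (2 * N), w ^ k * (φ ⬝ᵥ ((dg (univ \ A) * T) ^ k *ᵥ φ)) ≤
      (∑ i ∈ range N, u i + ∑ i ∈ range N, u (i + 1)) / 2 + ∑ i ∈ range N, v i := by
    intro N
    induction N with
    | zero => simp
    | succ N ih =>
      have e1 : 2 * (N + 1) = 2 * N + 1 + 1 := by ring
      rw [e1, Finset.sum_range_succ, Finset.sum_range_succ, Finset.sum_range_succ,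
        Finset.sum_range_succ, Finset.sum_range_succ]
      have h3 := hterm N N
      have h4 := hterm (N + 1) N
      have e2 : N + N = 2 * N := by ring
      have e3 : N + 1 + N = 2 * N + 1 := by ring
      rw [e2] at h3
      rw [e3] at h4
      linarith
  refine (h2 N).trans ?_
  have hu00 : u 0 = ∑ x, φ x ^ 2 := by rw [hu]; simp
  have hv00 : v 0 = ∑ x, φ x ^ 2 := by rw [hv]; simp
  have h3 : ∑ i ∈ range N, u (i + 1) ≤ B₁ := by
    rw [hu]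
    exact hB₁ N
  have h4 : ∑ i ∈ range N, v (i + 1) ≤ B₂ := by
    rw [hv]
    exact hB₂ N
  have h5 : ∑ i ∈ range N, u i ≤ u 0 + ∑ i ∈ range N, u (i + 1) := by
    rcases Nat.eq_zero_or_pos N with hN | hN
    · subst hN
      simpa using hu0 0
    · have e1 : ∑ i ∈ range N, u i + u N = ∑ i ∈ range N, u (i + 1) + u 0 := by
        rw [← Finset.sum_range_succ, Finset.sum_range_succ']
      have := hu0 N
      linarith
  have h6 : ∑ i ∈ range N, v i ≤ v 0 + ∑ i ∈ range N, v (i + 1) := by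
    have e1 : ∑ i ∈ range N, v i + v N = ∑ i ∈ range N, v (i + 1) + v 0 := by
      rw [← Finset.sum_range_succ, Finset.sum_range_succ']
    have := hv0 N
    linarith
  have h7 : 0 ≤ ∑ x, φ x ^ 2 := Finset.sum_nonneg fun x _ => sq_nonneg _
  rw [hu00] at h5
  rw [hv00] at h6
  linarith

/-- decay of the norms of the iterates of a probability -/
theorem lap_iter (a : ℕ → ℝ) (m0 c : ℝ) (hm0 : 0 ≤ m0) (hc : 0 < c) (h0 : ∀ k, 0 ≤ a k)
    (hanti : ∀ k, a (k + 1) ≤ a k) (h : ∀ k, a (k + 1) ≤ max m0 (((a k)⁻¹ + c)⁻¹)) (k : ℕ) :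
    a (k + 1) ≤ m0 ∨ a (k + 1) ≤ 1 / ((k + 1) * c) := by
  induction k with
  | zero =>
    rcases le_max_iff.1 (h 0) with h1 | h1
    · exact Or.inl h1
    · refine Or.inr (h1.trans ?_)
      rw [Nat.cast_zero, zero_add, one_mul, one_div]
      exact inv_anti₀ hc (by linarith [inv_nonneg.2 (h0 0)])
  | succ k ih =>
    rcases ih with ih | ih
    · exact Or.inl ((hanti _).trans ih)
    · rcases (h0 (k + 1)).eq_or_lt with h1 | h1
      · exact Or.inl ((hanti _).trans (by rw [← h1]; exact hm0))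
      · rcases le_max_iff.1 (h (k + 1)) with h2 | h2
        · exact Or.inl h2
        · refine Or.inr (h2.trans ?_)
          rw [one_div]
          have h3 : (0 : ℝ) < ((k : ℝ) + 1) * c := by positivity
          have h4 : ((k : ℝ) + 1) * c ≤ (a (k + 1))⁻¹ := by
            rw [one_div] at ih
            have := inv_anti₀ h1 ih
            rwa [inv_inv] at this
          refine inv_anti₀ (by positivity) ?_
          push_cast
          linarith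

/-- geometric decay -/
theorem geo_sum (b : ℕ → ℝ) (β : ℝ) (hβ : 0 < β) (h0 : ∀ k, 0 ≤ b k)
    (h : ∀ k, (1 + β) * b (k + 1) ≤ b k) (i N : ℕ) :
    ∑ k ∈ range N, b (k + 1) ≤ ∑ k ∈ range i, b (k + 1) + b i / β := by
  have h1 : ∀ N, β * ∑ k ∈ range N, b (i + k + 1) ≤ b i - b (i + N) := by
    intro N
    induction N with
    | zero => simp
    | succ N ih =>
      rw [Finset.sum_range_succ, mul_add]
      have h2 := h (i + N)
      have e1 : i + (N + 1) = i + N + 1 := by ring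
      rw [e1]
      linarith
  have h2 : ∑ k ∈ range N, b (i + k + 1) ≤ b i / β := by
    rw [le_div_iff₀ hβ, mul_comm]
    have := h1 N
    have := h0 (i + N)
    linarith
  have h3 : ∑ k ∈ range N, b (k + 1) ≤ ∑ k ∈ range (i + N), b (k + 1) :=
    Finset.sum_le_sum_of_subset_of_nonneg (Finset.range_mono (by omega)) fun k _ _ => h0 _
  rw [Finset.sum_range_add] at h3
  linarith

/-- sum of the norms of the iterates -/
theorem sum_iter (T : Matrix V V ℝ) (A : Finset V) (hT0 : ∀ x y, 0 ≤ T x y)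
    (hrow : ∀ x, ∑ y, T x y = 1) (hcol : ∀ y, ∑ x, T x y = 1)
    (hTA : ∀ x, x ∉ A → ∀ y ∈ A, T x y = 0) (hAT : ∀ x ∈ A, ∀ y, y ∉ A → T x y = 0)
    (m0 c β N₀ : ℝ) (hm0 : 0 ≤ m0) (hc : 0 < c) (hβ : 0 < β) (hN₀ : 0 < N₀)
    (hlap : ∀ f : V → ℝ, (∀ x, 0 ≤ f x) → (∀ x ∈ A, f x = 0) → ∑ x, f x ≤ 1 →
      ∑ x, (f ᵥ* T) x ^ 2 ≤ max m0 (((∑ x, f x ^ 2)⁻¹ + c)⁻¹))
    (hmz : ∀ f : V → ℝ, (∀ x ∈ A, f x = 0) → ∑ x, f x = 0 →
      (1 + β) * ∑ x, (f ᵥ* T) x ^ 2 ≤ ∑ x, f x ^ 2)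
    (χ : V → ℝ) (hχ0 : ∀ x, 0 ≤ χ x) (hχA : ∀ x ∈ A, χ x = 0) (hχ1 : ∑ x, χ x ≤ 1)
    (hU : N₀ ≤ ((univ \ A).card : ℝ)) (φ : V → ℝ)
    (hφ : ∀ x, φ x = χ x - if x ∈ A then 0 else (∑ x, χ x) / ((univ \ A).card : ℝ))
    (i₁ : ℕ) (hi₁ : 1 ≤ i₁) :
    ∑ x, φ x ^ 2 ≤ 2 * ∑ x, χ x ^ 2 + 2 / N₀ ∧ ∀ N : ℕ,
    ∑ k ∈ range N, ∑ x, (φ ᵥ* T ^ (k + 1)) x ^ 2 ≤
      i₁ * (2 * m0 + 2 / N₀) + 2 / c * (1 + Real.log i₁) +
        (2 * m0 + 2 / (i₁ * c) + 2 / N₀) / β := by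
  have hSn : ∀ f : V → ℝ, ∑ x, (f ᵥ* T) x ^ 2 ≤ ∑ x, f x ^ 2 := fun f =>
    sum_vecMul_sq_le _ _ hT0 (fun y => (hcol y).le) (fun x => (hrow x).le)
  obtain ⟨n, hn⟩ : ∃ n : ℝ, n = ((univ \ A).card : ℝ) := ⟨_, rfl⟩
  rw [← hn] at hU hφ
  have hn0 : 0 < n := lt_of_lt_of_le hN₀ hU
  obtain ⟨s, hs⟩ : ∃ s : ℝ, s = (∑ x, χ x) / n := ⟨_, rfl⟩
  rw [← hs] at hφ
  have hs0 : 0 ≤ s := by
    rw [hs]
    exact div_nonneg (Finset.sum_nonneg fun x _ => hχ0 x) hn0.le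
  have hsn : s * n = ∑ x, χ x := by rw [hs]; field_simp
  obtain ⟨o, ho⟩ : ∃ o : V → ℝ, o = fun x => if x ∈ A then 0 else s := ⟨_, rfl⟩
  have hosum : ∑ x, o x = s * n := by
    rw [ho, hn]
    have e1 : ∀ x : V, (if x ∈ A then (0 : ℝ) else s) = if x ∈ univ \ A then s else 0 := by
      intro x
      by_cases hx : x ∈ A <;> simp [hx]
    simp only [e1]
    rw [← Finset.sum_filter, Finset.sum_const, nsmul_eq_mul, Finset.filter_mem_eq_inter,
      Finset.univ_inter]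
    ring
  have hosq : ∑ x, o x ^ 2 ≤ 1 / N₀ := by
    have e1 : ∑ x, o x ^ 2 = s * (s * n) := by
      rw [← hosum, Finset.mul_sum]
      refine Finset.sum_congr rfl fun x _ => ?_
      rw [ho]
      beta_reduce
      split_ifs <;> ring
    have h1 : s ≤ 1 / N₀ := by
      rw [hs]
      calc (∑ x, χ x) / n ≤ 1 / n := div_le_div_of_nonneg_right hχ1 hn0.le
        _ ≤ 1 / N₀ := one_div_le_one_div_of_le hN₀ hU
    rw [e1, hsn]
    calc s * ∑ x, χ x ≤ s * 1 := mul_le_mul_of_nonneg_left hχ1 hs0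
      _ ≤ 1 / N₀ := by rw [mul_one]; exact h1
  have hoT : o ᵥ* T = o := by
    funext y
    have e1 : (o ᵥ* T) y = ∑ x, o x * T x y := rfl
    rw [e1, ho]
    beta_reduce
    by_cases hy : y ∈ A
    · rw [if_pos hy]
      refine Finset.sum_eq_zero fun x _ => ?_
      by_cases hx : x ∈ A
      · rw [if_pos hx, zero_mul]
      · rw [hTA x hx y hy, mul_zero]
    · rw [if_neg hy]
      have e2 : ∀ x, (if x ∈ A then (0 : ℝ) else s) * T x y = s * T x y := by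
        intro x
        by_cases hx : x ∈ A
        · rw [if_pos hx, hAT x hx y hy]
          ring
        · rw [if_neg hx]
      simp only [e2]
      rw [← Finset.mul_sum, hcol y, mul_one]
  have hφo : φ = χ - o := by
    funext x
    rw [hφ x, ho]
    rfl
  have hzero : ∀ f : V → ℝ, (∀ a ∈ A, f a = 0) → ∀ a ∈ A, (f ᵥ* T) a = 0 := by
    intro f hf a ha
    refine Finset.sum_eq_zero fun x _ => ?_
    by_cases hx : x ∈ A
    · rw [hf x hx, zero_mul]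
    · beta_reduce
      rw [hTA x hx a ha, mul_zero]
  have hsumT : ∀ f : V → ℝ, ∑ y, (f ᵥ* T) y = ∑ x, f x := by
    intro f
    have e1 : ∀ y, (f ᵥ* T) y = ∑ x, f x * T x y := fun y => rfl
    simp only [e1]
    rw [Finset.sum_comm]
    refine Finset.sum_congr rfl fun x _ => ?_
    rw [← Finset.mul_sum, hrow x, mul_one]
  -- iterates of `χ`
  obtain ⟨v, hv⟩ : ∃ v : ℕ → V → ℝ, v = fun k => χ ᵥ* T ^ k := ⟨_, rfl⟩
  have hvs : ∀ k, v (k + 1) = v k ᵥ* T := by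
    intro k
    rw [hv]
    beta_reduce
    rw [pow_succ, Matrix.vecMul_vecMul]
  have hv00 : v 0 = χ := by rw [hv]; simp
  have hvp : ∀ k, (∀ x, 0 ≤ v k x) ∧ (∀ x ∈ A, v k x = 0) ∧ ∑ x, v k x ≤ 1 := by
    intro k
    induction k with
    | zero =>
      rw [hv00]
      exact ⟨hχ0, hχA, hχ1⟩
    | succ k ih =>
      obtain ⟨i1, i2, i3⟩ := ih
      rw [hvs]
      refine ⟨fun x => Finset.sum_nonneg fun y _ => mul_nonneg (i1 y) (hT0 y x), hzero _ i2, ?_⟩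
      rw [hsumT]
      exact i3
  obtain ⟨a, ha⟩ : ∃ a : ℕ → ℝ, a = fun k => ∑ x, v k x ^ 2 := ⟨_, rfl⟩
  have ha0 : ∀ k, 0 ≤ a k := by
    rw [ha]
    exact fun k => Finset.sum_nonneg fun x _ => sq_nonneg _
  have haanti : ∀ k, a (k + 1) ≤ a k := by
    intro k
    rw [ha]
    beta_reduce
    rw [hvs]
    exact hSn _
  have halap : ∀ k, a (k + 1) ≤ max m0 (((a k)⁻¹ + c)⁻¹) := by
    intro k
    rw [ha]
    beta_reduce
    rw [hvs]
    obtain ⟨i1, i2, i3⟩ := hvp k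
    exact hlap _ i1 i2 i3
  have haB : ∀ k : ℕ, a (k + 1) ≤ m0 + 1 / c * (1 / (k + 1)) := by
    intro k
    have e1 : 1 / c * (1 / ((k : ℝ) + 1)) = 1 / (((k : ℝ) + 1) * c) := by
      field_simp
    rw [e1]
    have h2 : 0 ≤ 1 / (((k : ℝ) + 1) * c) := by positivity
    rcases lap_iter a m0 c hm0 hc ha0 haanti halap k with h1 | h1 <;> linarith
  -- iterates of `φ`
  obtain ⟨p, hp⟩ : ∃ p : ℕ → V → ℝ, p = fun k => φ ᵥ* T ^ k := ⟨_, rfl⟩
  have hps : ∀ k, p (k + 1) = p k ᵥ* T := by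
    intro k
    rw [hp]
    beta_reduce
    rw [pow_succ, Matrix.vecMul_vecMul]
  have hpv : ∀ k, p k = v k - o := by
    intro k
    induction k with
    | zero =>
      rw [hv00, hp]
      simp [hφo]
    | succ k ih =>
      rw [hps, ih, hvs, Matrix.sub_vecMul, hoT]
  obtain ⟨b, hb⟩ : ∃ b : ℕ → ℝ, b = fun k => ∑ x, p k x ^ 2 := ⟨_, rfl⟩
  have hb0 : ∀ k, 0 ≤ b k := by
    rw [hb]
    exact fun k => Finset.sum_nonneg fun x _ => sq_nonneg _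
  have hba : ∀ k, b k ≤ 2 * a k + 2 / N₀ := by
    intro k
    rw [hb, ha]
    beta_reduce
    rw [hpv]
    calc ∑ x, (v k - o) x ^ 2 ≤ ∑ x, (2 * v k x ^ 2 + 2 * o x ^ 2) := by
          refine Finset.sum_le_sum fun x _ => ?_
          rw [Pi.sub_apply]
          nlinarith [sq_nonneg (v k x + o x)]
      _ = 2 * ∑ x, v k x ^ 2 + 2 * ∑ x, o x ^ 2 := by
          rw [Finset.sum_add_distrib, Finset.mul_sum, Finset.mul_sum]
      _ ≤ _ := by
          have : 2 / N₀ = 2 * (1 / N₀) := by ring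
          rw [this]
          linarith
  have hpz : ∀ k, (∀ x ∈ A, p k x = 0) ∧ ∑ x, p k x = 0 := by
    intro k
    constructor
    · intro x hx
      rw [hpv, Pi.sub_apply, (hvp k).2.1 x hx, ho]
      simp [hx]
    · induction k with
      | zero =>
        rw [hpv, hv00]
        simp only [Pi.sub_apply]
        rw [Finset.sum_sub_distrib, hosum, hsn, sub_self]
      | succ k ih => rw [hps, hsumT, ih]
  have hbd : ∀ k, (1 + β) * b (k + 1) ≤ b k := by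
    intro k
    rw [hb]
    beta_reduce
    rw [hps]
    exact hmz _ (hpz k).1 (hpz k).2
  refine ⟨?_, fun N => ?_⟩
  · have h1 := hba 0
    rw [hb, ha] at h1
    beta_reduce at h1
    rw [hv00, hp] at h1
    simpa using h1
  have h1 : ∑ k ∈ range N, ∑ x, (φ ᵥ* T ^ (k + 1)) x ^ 2 = ∑ k ∈ range N, b (k + 1) := by
    rw [hb, hp]
  rw [h1]
  refine (geo_sum b β hβ hb0 hbd i₁ N).trans ?_
  refine add_le_add ?_ ?_
  · have h2 : ∀ k ∈ range i₁, b (k + 1) ≤ (2 * m0 + 2 / N₀) + 2 / c * (1 / ((k : ℝ) + 1)) := by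
      intro k _
      have h3 := hba (k + 1)
      have h4 := haB k
      have e1 : 2 / c * (1 / ((k : ℝ) + 1)) = 2 * (1 / c * (1 / ((k : ℝ) + 1))) := by ring
      rw [e1]
      linarith
    refine (Finset.sum_le_sum h2).trans ?_
    rw [Finset.sum_add_distrib, Finset.sum_const, card_range, nsmul_eq_mul, ← Finset.mul_sum]
    have h3 : ∑ k ∈ range i₁, (1 : ℝ) / ((k : ℝ) + 1) ≤ 1 + Real.log i₁ := by
      have h4 := harmonic_le_one_add_log i₁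
      unfold harmonic at h4
      push_cast at h4
      refine le_trans (le_of_eq ?_) h4
      refine Finset.sum_congr rfl fun k _ => ?_
      rw [one_div]
    have h5 : 0 ≤ 2 / c := by positivity
    have := mul_le_mul_of_nonneg_left h3 h5
    linarith
  · refine div_le_div_of_nonneg_right ?_ hβ.le
    obtain ⟨k, rfl⟩ : ∃ k, i₁ = k + 1 := ⟨i₁ - 1, by omega⟩
    have h3 := hba (k + 1)
    have h4 := haB k
    have e1 : 2 / (((k + 1 : ℕ) : ℝ) * c) = 2 * (1 / c * (1 / ((k : ℝ) + 1))) := by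
      push_cast
      field_simp
    rw [e1]
    linarith

end Pool.Agent.K9h51.D2
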