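import Pool.Agent.K9h51.D2.Core3

/-!
# Project D2: decay of the square norm in a sparse environment in the plane
-/

set_option autoImplicit false

namespace Pool.Agent.K9h51.D2

open Finset Equiv Matrix Q292.LC
open Pool.Agent.Q257.LC (td_comm td_self td_tri mem_bal bal_mono cc_nonneg Aj fj fj_nonneg fj_sum
  fj_zero fj_add fj_mono card_V SMOb NASb FREb smooth vecMul_sq_le sum_vecMul_sq_le box_sub)
open Pool.Agent.Q277.LC (card_bal_le)

theorem E4_nonneg {L : ℕ} [NeZero L] (Dm : Finset (Fin 2 → ZMod L)) (b : ℕ)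
    (f : (Fin 2 → ZMod L) → ℝ) : 0 ≤ E4 Dm b f := by
  unfold E4
  refine sum_nonneg fun x _ => sum_nonneg fun y _ => ?_
  split_ifs
  · exact sq_nonneg _
  · exact le_rfl

/-- one window -/
theorem window2 {L : ℕ} [NeZero L] {Cn Y : ℝ} (hCn : 1 ≤ Cn) (hY : 0 < Y) (hNAS : NASb 2 Cn)
    (Dm : Finset (Fin 2 → ZMod L)) (b : ℕ) (hb1 : 1 ≤ b) (hbL : 2 * b ≤ L)
    (hbox : ∀ v, 2 * (Dm ∩ Q292.LC.box v b).card ≤ b ^ 2)
    (f : (Fin 2 → ZMod L) → ℝ) (hf0 : ∀ x, 0 ≤ f x) (hf1 : ∑ x, f x ≤ 1) (F1 : ℝ)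
    (hE : E4 Dm b f ≤ Y * (∑ x, f x ^ 2 - F1)) (hF1 : F1 ≤ ∑ x, f x ^ 2)
    (hfD : ∑ x ∈ Dm, f x ^ 2 ≤ (∑ x, f x ^ 2) / 2) :
    ∑ x, f x ^ 2 ≤ 16 * Cn / (L : ℝ) ^ 2 ∨
    1 / (64 * Cn ^ 2 * Y) * min (∑ x, f x ^ 2) ((∑ x, f x ^ 2) ^ 2) ≤ ∑ x, f x ^ 2 - F1 := by
  obtain ⟨F, hF⟩ : ∃ F, F = ∑ x, f x ^ 2 := ⟨_, rfl⟩
  rw [← hF] at hE hF1 hfD ⊢
  have hF0 : 0 ≤ F := by
    rw [hF]
    exact sum_nonneg fun x _ => sq_nonneg _
  have hCn0 : 0 < Cn := by linarith
  have hL0 : (0 : ℝ) < L := by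
    have : 0 < L := by omega
    exact_mod_cast this
  rcases hF0.eq_or_lt with hF00 | hFpos
  · left
    rw [← hF00]
    positivity
  have hb0 : (0 : ℝ) < b := by exact_mod_cast hb1
  have hb1r : (1 : ℝ) ≤ b := by exact_mod_cast hb1
  obtain ⟨θ, hθ⟩ : ∃ θ : ℝ, θ = Real.sqrt (4 * Cn / F) := ⟨_, rfl⟩
  have hθ2 : θ ^ 2 = 4 * Cn / F := by rw [hθ, Real.sq_sqrt (by positivity)]
  have hθpos : 0 < θ := by rw [hθ]; exact Real.sqrt_pos.2 (by positivity)
  obtain ⟨t, ht⟩ : ∃ t : ℝ, t = θ / b := ⟨_, rfl⟩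
  have htpos : 0 < t := by rw [ht]; positivity
  have htb : t * b = θ := by rw [ht]; field_simp
  obtain ⟨M, hM⟩ : ∃ M : ℕ, M = ⌈t⌉₊ := ⟨_, rfl⟩
  have hM1 : 1 ≤ M := by rw [hM]; exact Nat.one_le_iff_ne_zero.2 (Nat.ceil_pos.2 htpos).ne'
  have hMt : t ≤ M := by rw [hM]; exact Nat.le_ceil t
  have hMt1 : (M : ℝ) < t + 1 := by rw [hM]; exact Nat.ceil_lt_add_one htpos.le
  have hdec0 : 0 ≤ F - F1 := by linarith
  by_cases hML : M * b ≤ L
  · right
    have hN := hNAS L b M hb1 hM1 hML Dm hbox f hf0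
    have hE' : ∑ x, ∑ y, (if x ∉ Dm ∧ y ∉ Dm ∧ td x y ≤ 2 * 2 * b then
        (f x - f y) ^ 2 else 0) = E4 Dm b f := rfl
    rw [hE'] at hN
    have hsplit : F = ∑ x ∈ Dm, f x ^ 2 + ∑ x ∈ univ \ Dm, f x ^ 2 := by
      rw [hF, ← sum_sdiff (subset_univ Dm), add_comm]
    have hMr : θ ≤ ((M * b : ℕ) : ℝ) := by
      push_cast
      rw [← htb]
      exact mul_le_mul_of_nonneg_right hMt hb0.le
    have htail : Cn / ((M * b : ℕ) : ℝ) ^ 2 * (∑ x, f x) ^ 2 ≤ F / 4 := by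
      have h10 : (∑ x, f x) ^ 2 ≤ 1 := by
        have := sum_nonneg fun x (_ : x ∈ univ) => hf0 x
        nlinarith
      have h11 : Cn / ((M * b : ℕ) : ℝ) ^ 2 ≤ F / 4 := by
        have h12 : θ ^ 2 ≤ ((M * b : ℕ) : ℝ) ^ 2 := pow_le_pow_left₀ hθpos.le hMr 2
        rw [hθ2] at h12
        rw [div_le_div_iff₀ (lt_of_lt_of_le (by positivity) h12) (by norm_num)]
        rw [div_le_iff₀ hFpos] at h12
        linarith
      calc Cn / ((M * b : ℕ) : ℝ) ^ 2 * (∑ x, f x) ^ 2 ≤ Cn / ((M * b : ℕ) : ℝ) ^ 2 * 1 :=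
            mul_le_mul_of_nonneg_left h10 (by positivity)
        _ ≤ F / 4 := by rw [mul_one]; exact h11
    have hmain : F / 4 ≤ Cn * M ^ 2 / (b : ℝ) ^ 2 * E4 Dm b f := by
      linarith
    have hmain2 : F / 4 ≤ Cn * M ^ 2 / (b : ℝ) ^ 2 * (Y * (F - F1)) :=
      hmain.trans (mul_le_mul_of_nonneg_left hE (by positivity))
    have hmain3 : F * (b : ℝ) ^ 2 ≤ 4 * Cn * M ^ 2 * (Y * (F - F1)) := by
      have e1 : Cn * M ^ 2 / (b : ℝ) ^ 2 * (Y * (F - F1)) =
          (Cn * M ^ 2 * (Y * (F - F1))) / (b : ℝ) ^ 2 := by ring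
      rw [e1, le_div_iff₀ (by positivity)] at hmain2
      linarith
    have hYF : 0 ≤ Y * (F - F1) := by positivity
    have hM0 : (0 : ℝ) ≤ M := Nat.cast_nonneg _
    rw [div_mul_eq_mul_div, one_mul, div_le_iff₀ (by positivity)]
    rcases le_or_gt t 1 with ht1 | ht1
    · have hM4 : (M : ℝ) ^ 2 ≤ 4 := by nlinarith
      have h18 : F ≤ 16 * Cn * (Y * (F - F1)) := by
        have h19 : 4 * Cn * (M : ℝ) ^ 2 * (Y * (F - F1)) ≤ 4 * Cn * 4 * (Y * (F - F1)) :=
          mul_le_mul_of_nonneg_right (mul_le_mul_of_nonneg_left hM4 (by positivity)) hYF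
        have h20 : F ≤ F * (b : ℝ) ^ 2 := by nlinarith [one_le_pow₀ hb1r (n := 2)]
        linarith
      have h21 : 16 * Cn * (Y * (F - F1)) ≤ (F - F1) * (64 * Cn ^ 2 * Y) := by
        have h22 : 16 * Cn ≤ 64 * Cn ^ 2 := by nlinarith
        calc 16 * Cn * (Y * (F - F1)) ≤ 64 * Cn ^ 2 * (Y * (F - F1)) :=
              mul_le_mul_of_nonneg_right h22 hYF
          _ = _ := by ring
      exact (min_le_left _ _).trans (h18.trans h21)
    · have hM4 : (M : ℝ) ^ 2 ≤ 4 * t ^ 2 := by nlinarith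
      have h18 : F * (b : ℝ) ^ 2 ≤ 4 * Cn * (4 * t ^ 2) * (Y * (F - F1)) :=
        hmain3.trans (mul_le_mul_of_nonneg_right (mul_le_mul_of_nonneg_left hM4 (by positivity))
          hYF)
      have h19 : t ^ 2 = 4 * Cn / (F * (b : ℝ) ^ 2) := by
        rw [ht, div_pow, hθ2]
        field_simp
      have h20 : F ^ 2 ≤ 64 * Cn ^ 2 * (Y * (F - F1)) := by
        have h21 : F * (b : ℝ) ^ 2 * (F * (b : ℝ) ^ 2) ≤ 64 * Cn ^ 2 * (Y * (F - F1)) := by
          calc F * (b : ℝ) ^ 2 * (F * (b : ℝ) ^ 2)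
              ≤ (4 * Cn * (4 * t ^ 2) * (Y * (F - F1))) * (F * (b : ℝ) ^ 2) :=
                mul_le_mul_of_nonneg_right h18 (by positivity)
            _ = 64 * Cn ^ 2 * (Y * (F - F1)) := by
                rw [h19]
                field_simp
                ring
        refine le_trans ?_ h21
        have h22 : F ≤ F * (b : ℝ) ^ 2 := by nlinarith [one_le_pow₀ hb1r (n := 2)]
        nlinarith
      refine (min_le_right _ _).trans (h20.trans (le_of_eq ?_))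
      ring
  · left
    push Not at hML
    have h9 : (L : ℝ) < M * b := by exact_mod_cast hML
    have h10 : (L : ℝ) < θ + b := by
      calc (L : ℝ) < M * b := h9
        _ ≤ (t + 1) * b := mul_le_mul_of_nonneg_right hMt1.le hb0.le
        _ = θ + b := by rw [add_mul, htb, one_mul]
    have h11 : (2 : ℝ) * b ≤ L := by exact_mod_cast hbL
    have h12 : (L : ℝ) / 2 ≤ θ := by linarith
    have h13 : ((L : ℝ) / 2) ^ 2 ≤ 4 * Cn / F := by
      rw [← hθ2]
      exact pow_le_pow_left₀ (by positivity) h12 2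
    rw [div_pow, div_le_div_iff₀ (by positivity) hFpos] at h13
    rw [le_div_iff₀ (by positivity)]
    linarith

/-- the block argument -/
theorem block2 (F G : ℕ → ℝ) (hanti : Antitone F) (h0 : ∀ j, 0 ≤ F j) (hF1 : ∀ j, F j ≤ 1)
    (K u0 p u2 : ℕ) (hu2 : u2 = p * u0) (c m0 : ℝ) (hc : 0 ≤ c)
    (hW : ∀ j, j + u0 ≤ K → G j ≤ F j / 2 → F j ≤ m0 ∨
      c * min (F j) (F j ^ 2) ≤ F j - F (j + u0))
    (hS : ∀ j, u2 ≤ j → j + u0 ≤ K → G j ≤ F (j - u2) / 8) (k : ℕ) (hk : 1 ≤ k)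
    (hkK : (k + 1) * u2 ≤ K) :
    F ((k + 1) * u2) < F ((k - 1) * u2) / 4 ∨ F ((k + 1) * u2) ≤ m0 ∨
      (p * c) * F ((k + 1) * u2) ^ 2 ≤ F (k * u2) - F ((k + 1) * u2) := by
  by_cases h1 : F ((k + 1) * u2) < F ((k - 1) * u2) / 4
  · exact Or.inl h1
  right
  by_cases h2 : F ((k + 1) * u2) ≤ m0
  · exact Or.inl h2
  right
  push Not at h1 h2
  obtain ⟨b, hb⟩ : ∃ b, b = F ((k + 1) * u2) := ⟨_, rfl⟩
  rw [← hb] at h1 h2 ⊢
  have hkk : (k + 1) * u2 = k * u2 + u2 := by ring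
  have hb0 : 0 ≤ b := by rw [hb]; exact h0 _
  have hstep : ∀ i < p, c * b ^ 2 ≤
      F (k * u2 + i * u0) - F (k * u2 + (i + 1) * u0) := by
    intro i hi
    have hiu : (i + 1) * u0 ≤ u2 := by
      rw [hu2]
      exact Nat.mul_le_mul_right _ hi
    have e1 : k * u2 + i * u0 + u0 = k * u2 + (i + 1) * u0 := by ring
    have hjK : k * u2 + i * u0 + u0 ≤ K := by
      rw [e1]
      omega
    have hj2 : u2 ≤ k * u2 + i * u0 := by
      have : 1 * u2 ≤ k * u2 := Nat.mul_le_mul_right _ hk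
      omega
    have hFb : b ≤ F (k * u2 + i * u0) := by rw [hb]; exact hanti (by omega)
    have hG : G (k * u2 + i * u0) ≤ F (k * u2 + i * u0) / 2 := by
      have h3 := hS _ hj2 hjK
      have h4 : F (k * u2 + i * u0 - u2) ≤ F ((k - 1) * u2) := by
        refine hanti ?_
        have e2 : (k - 1) * u2 = k * u2 - u2 := by
          rw [Nat.sub_mul, one_mul]
        omega
      linarith
    rcases hW _ hjK hG with h5 | h5
    · exact absurd (hFb.trans h5) (not_le.2 h2)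
    · rw [e1] at h5
      refine le_trans (mul_le_mul_of_nonneg_left ?_ hc) h5
      have h6 := hF1 (k * u2 + i * u0)
      refine le_min ?_ (pow_le_pow_left₀ hb0 hFb 2)
      nlinarith
  have hsum : ∀ i ≤ p, i * (c * b ^ 2) ≤ F (k * u2) - F (k * u2 + i * u0) := by
    intro i
    induction i with
    | zero => intro _; simp
    | succ i ih =>
      intro hi
      have h6 := ih (by omega)
      have h7 := hstep i (by omega)
      push_cast
      linarith
  have h8 := hsum p le_rfl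
  rw [← hu2, ← hkk, ← hb] at h8
  linarith

/-- the recursion -/
theorem seq2 (a : ℕ → ℝ) (n : ℕ) (m0 : ℝ) (hm0 : 0 ≤ m0) (h0 : ∀ k, 0 ≤ a k)
    (hanti : ∀ k, a (k + 1) ≤ a k) (ha1 : a 0 ≤ 1)
    (h : ∀ k, 1 ≤ k → k < n → a (k + 1) < a (k - 1) / 4 ∨ a (k + 1) ≤ m0 ∨
      a (k + 1) ^ 2 ≤ a k - a (k + 1)) :
    a n ≤ m0 ∨ (a 0)⁻¹ + ((n : ℝ) - 1) / 8 ≤ (a n)⁻¹ := by
  have hanti' : Antitone a := antitone_nat_of_succ_le hanti
  have key : ∀ k, k ≤ n → m0 < a k → (a 0)⁻¹ + ((k : ℝ) - 1) / 8 ≤ (a k)⁻¹ := by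
    intro k
    induction k using Nat.strong_induction_on with
    | _ k ih =>
      intro hkn hk
      rcases k with _ | _ | k
      · push_cast
        linarith
      · have h1 : a 1 ≤ a 0 := hanti 0
        have h2 : 0 < a 1 := lt_of_le_of_lt hm0 hk
        have h3 : (a 0)⁻¹ ≤ (a 1)⁻¹ := inv_anti₀ h2 h1
        push_cast
        simpa using h3
      · have h1 : a (k + 2) ≤ a (k + 1) := hanti (k + 1)
        have h2 : a (k + 1) ≤ a k := hanti k
        have h3 : 0 < a (k + 2) := lt_of_le_of_lt hm0 hk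
        have h4 : 0 < a k := by linarith
        have h5 := ih k (by omega) (by omega) (by
          have : m0 < a (k + 1 + 1) := hk
          linarith)
        have h6 : a k ≤ 1 := (hanti' (Nat.zero_le k)).trans ha1
        have h7 : (a k)⁻¹ + 1 / 4 ≤ (a (k + 2))⁻¹ := by
          have h8 : (a (k + 2))⁻¹ - (a k)⁻¹ = (a k - a (k + 2)) / (a k * a (k + 2)) := by
            field_simp
          have h9 : 1 / 4 ≤ (a k - a (k + 2)) / (a k * a (k + 2)) := by
            rw [div_le_div_iff₀ (by norm_num) (by positivity)]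
            rcases h (k + 1) (by omega) (by omega) with h10 | h10 | h10
            · have h11 : a (k + 2) < a k / 4 := h10
              nlinarith
            · exact absurd h10 (not_le.2 hk)
            · by_cases h11 : a (k + 2) < a k / 4
              · nlinarith
              · push Not at h11
                have h12 : a (k + 2) ^ 2 ≤ a (k + 1) - a (k + 2) := h10
                nlinarith
          linarith
        push_cast at h5 ⊢
        have h13 : (a 0)⁻¹ + ((k : ℝ) + 1 + 1 - 1) / 8 = ((a 0)⁻¹ + ((k : ℝ) - 1) / 8) + 1 / 4 := by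
          ring
        rw [h13]
        linarith
  by_cases hn : a n ≤ m0
  · exact Or.inl hn
  · exact Or.inr (key n le_rfl (not_le.1 hn))

end Pool.Agent.K9h51.D2
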