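import Pool.Agent.K9h51.D2.Lap2

/-!
# Project D2: decay of the square norm in a sparse environment in the plane, main statement
-/

set_option autoImplicit false

namespace Pool.Agent.K9h51.D2

open Finset Equiv Matrix Q292.LC
open Pool.Agent.Q257.LC (td_comm td_self td_tri mem_bal bal_mono cc_nonneg Aj fj fj_nonneg fj_sum
  fj_zero fj_add fj_mono card_V SMOb NASb FREb smooth vecMul_sq_le sum_vecMul_sq_le box_sub)
open Pool.Agent.Q277.LC (card_bal_le)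

theorem rpow_two (x c : ℝ) (hx : 0 ≤ x) (hc : 0 ≤ c) :
    (x ^ (-(2 / ((2 : ℕ) : ℝ))) + c) ^ (-(((2 : ℕ) : ℝ) / 2)) = (x⁻¹ + c)⁻¹ := by
  have e1 : (-(2 / ((2 : ℕ) : ℝ))) = -1 := by norm_num
  have e2 : (-(((2 : ℕ) : ℝ) / 2)) = -1 := by norm_num
  rw [e1, e2, Real.rpow_neg_one, Real.rpow_neg_one]

theorem lap2 : ∃ C : ℕ, 1 ≤ C ∧ ∀ Z : ℕ, C ≤ Z →
    ∀ (L K lam r ρ κ₀ : ℕ) [NeZero L], lam ≤ Z → ρ ≤ Z → κ₀ ≤ Z → (L : ℝ) ^ 2 ≤ Real.exp Z →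
    Z ^ 43 ≤ r → 8 * Z ^ 43 ≤ L → Z ^ 44 ≤ K → ∃ q₀ : ℕ, ∀ q ≥ q₀,
    ∀ σ : ℕ → (Fin 2 → ZMod L) × Fin 2, Per σ → ∀ δ : ℝ, 1 ≤ δ * q → δ * q ≤ 2 →
    ∀ (ω : ℕ → Bool) (A : Finset (Fin 2 → ZMod L)), Ev σ q K lam r ρ κ₀ ω A →
    ∀ f : (Fin 2 → ZMod L) → ℝ, (∀ x, 0 ≤ f x) → (∀ x ∈ A, f x = 0) → ∑ x, f x ≤ 1 →
    ∑ x, (vecMul f (TT (ed ∘ σ) ω A δ (K * (q * ms 2 L))) x) ^ 2 ≤
      max ((C : ℝ) / (L : ℝ) ^ 2) (((∑ x, (f x) ^ 2) ^ (-(2 / ((2 : ℕ) : ℝ))) +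
        1 / (32 * (Z : ℝ) ^ 39) * K) ^ (-(((2 : ℕ) : ℝ) / 2))) := by
  obtain ⟨C₀, hC₀, hcore⟩ := core2
  obtain ⟨Cn, hCn1, hn⟩ := (Pool.Agent.Q187.LC.Nas.nas Pool.Agent.Q53.LC.poi) 2 (by norm_num)
  have hNb : NASb 2 Cn := hn
  have hCn0 : 0 < Cn := by linarith
  refine ⟨C₀ + ⌈64 * Cn ^ 2⌉₊ + ⌈16 * Cn⌉₊ + 1000, by omega, ?_⟩
  intro Z hZ L K lam r ρ κ₀ _ hlam hρ hκ hLd hr hL hK
  have hZ1 : 1000 ≤ Z := by omega
  have hZ0 : 0 < Z := by omega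
  have hK2 : Z ^ 2 ≤ K := (Nat.pow_le_pow_right hZ0 (by norm_num)).trans hK
  obtain ⟨q₀, hq₀⟩ := hcore Z (by omega) L K lam r ρ κ₀ hlam hρ hκ hLd hr hL hK2
  refine ⟨q₀, fun q hq σ hσ δ h1 h2 ω A hE f hf0 hfA hf1 => ?_⟩
  obtain ⟨hδ, hδ1, hc⟩ := hq₀ q hq σ hσ δ h1 h2 ω A hE
  obtain ⟨hc1, hc2, hc3⟩ := hc f hfA
  have hz1 : (1000 : ℝ) ≤ Z := by exact_mod_cast hZ1
  have hz0 : (0 : ℝ) < Z := by linarith
  have hL0 : (0 : ℝ) < L := by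
    have h3 : 1 ≤ Z ^ 43 := Nat.one_le_pow _ _ hZ0
    have : 0 < L := by omega
    exact_mod_cast this
  obtain ⟨F, hF⟩ : ∃ F : ℕ → ℝ, F = fun j => ∑ x, fj σ q ω A δ f j x ^ 2 := ⟨_, rfl⟩
  obtain ⟨G, hG⟩ : ∃ G : ℕ → ℝ, G = fun j => ∑ x ∈ nbh (Aj σ q ω A j) (8 * Z ^ 4),
    fj σ q ω A δ f j x ^ 2 := ⟨_, rfl⟩
  have hFmono : ∀ j, F (j + 1) ≤ F j := by
    rw [hF]
    exact fun j => fj_mono Pool.Agent.Q68.LC.bas2 hσ q ω A hδ.le hδ1 f j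
  have hFanti : Antitone F := antitone_nat_of_succ_le hFmono
  have hF0 : ∀ j, 0 ≤ F j := by
    rw [hF]
    exact fun j => sum_nonneg fun x _ => sq_nonneg _
  have g0 : F 0 = ∑ x, f x ^ 2 := by
    rw [hF]
    beta_reduce
    unfold fj
    rw [Nat.zero_mul]
    simp [TT]
  have hF01 : F 0 ≤ 1 := by
    rw [g0]
    calc ∑ x, f x ^ 2 ≤ (∑ x, f x) ^ 2 := Finset.sum_sq_le_sq_sum_of_nonneg fun x _ => hf0 x
      _ ≤ 1 := pow_le_one₀ (sum_nonneg fun x _ => hf0 x) hf1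
  have hFle : ∀ j, F j ≤ 1 := fun j => (hFanti (Nat.zero_le j)).trans hF01
  obtain ⟨Y, hY⟩ : ∃ Y : ℝ, Y = (Z : ℝ) ^ 35 := ⟨_, rfl⟩
  have hY0 : 0 < Y := by rw [hY]; positivity
  have hbZ : 1 ≤ Z ^ 5 := Nat.one_le_pow _ _ hZ0
  have hb5 : Z ^ 5 ≤ Z ^ 43 := Nat.pow_le_pow_right hZ0 (by norm_num)
  have hW : ∀ j, j + Z ^ 2 ≤ K → G j ≤ F j / 2 → F j ≤ 16 * Cn / (L : ℝ) ^ 2 ∨
      1 / (64 * Cn ^ 2 * Y) * min (F j) (F j ^ 2) ≤ F j - F (j + Z ^ 2) := by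
    intro j hj hGj
    rw [hF] at hGj ⊢
    rw [hG] at hGj
    refine window2 hCn1 hY0 hNb (nbh (Aj σ q ω A j) (8 * Z ^ 4)) (Z ^ 5) hbZ (by omega) ?_ _
      (fj_nonneg Pool.Agent.Q68.LC.bas2 σ q ω A hδ.le hδ1 hf0 j) ?_ _ ?_ ?_ hGj
    · intro v
      have h3 : 8 * Z ^ 4 ≤ Z ^ 5 := by
        rw [pow_succ' Z 4]
        exact Nat.mul_le_mul_right _ (by omega)
      have h4 : 3 * Z ^ 5 ≤ Z ^ 43 := by
        have h5 : 3 * Z ^ 5 ≤ Z ^ 6 := by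
          rw [pow_succ' Z 5]
          exact Nat.mul_le_mul_right _ (by omega)
        exact h5.trans (Nat.pow_le_pow_right hZ0 (by norm_num))
      have h6 := hc3 j hj v (2 * Z ^ 5) (by omega)
      have h7 := card_le_card (inter_subset_inter_left (s := nbh (Aj σ q ω A j) (8 * Z ^ 4))
        (box_sub v (Z ^ 5)))
      have h8 : 578 * Z ^ 9 ≤ (Z ^ 5) ^ 2 := by
        have : (Z ^ 5) ^ 2 = Z * Z ^ 9 := by ring
        rw [this]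
        exact Nat.mul_le_mul_right _ (by omega)
      omega
    · rw [fj_sum Pool.Agent.Q68.LC.bas2 σ q ω A hδ.le hδ1 f j]
      exact hf1
    · rw [hY]
      exact hc1 j hj
    · have := hFanti (show j ≤ j + Z ^ 2 by omega)
      rw [hF] at this
      exact this
  have hS : ∀ j, Z ^ 39 ≤ j → j + Z ^ 2 ≤ K → G j ≤ F (j - Z ^ 39) / 8 := by
    rw [hF, hG]
    exact hc2
  obtain ⟨n, hn'⟩ : ∃ n : ℕ, n = K / Z ^ 39 := ⟨_, rfl⟩
  have hnK : n * Z ^ 39 ≤ K := by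
    rw [hn']
    exact Nat.div_mul_le_self _ _
  have hn4 : Z ^ 5 ≤ n := by
    rw [hn', Nat.le_div_iff_mul_le (by positivity)]
    calc Z ^ 5 * Z ^ 39 = Z ^ 44 := by ring
      _ ≤ K := hK
  have hnpos : 2 ≤ n := by
    have h3 : Z ≤ Z ^ 5 := Nat.le_self_pow (by norm_num) Z
    omega
  have hKn : K < (n + 1) * Z ^ 39 := by
    have := Nat.lt_mul_div_succ K (show 0 < Z ^ 39 by positivity)
    rw [← hn'] at this
    rwa [mul_comm] at this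
  have hm0 : 0 ≤ 16 * Cn / (L : ℝ) ^ 2 := by positivity
  have hmain := seq2 (fun k => F (k * Z ^ 39)) n (16 * Cn / (L : ℝ) ^ 2) hm0 (fun k => hF0 _)
    (fun k => hFanti (Nat.mul_le_mul_right _ (Nat.le_succ k)))
    (by
      beta_reduce
      rw [Nat.zero_mul]
      exact hF01)
    (fun k hk hkn => by
      have g1 : (k + 1) * Z ^ 39 ≤ K := (Nat.mul_le_mul_right _ hkn).trans hnK
      have g2 := block2 F G hFanti hF0 hFle K (Z ^ 2) (Z ^ 37) (Z ^ 39) (by ring)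
        (1 / (64 * Cn ^ 2 * Y)) (16 * Cn / (L : ℝ) ^ 2) (by positivity) hW hS k hk g1
      rcases g2 with g2 | g2 | g2
      · exact Or.inl g2
      · exact Or.inr (Or.inl g2)
      · refine Or.inr (Or.inr (le_trans ?_ g2))
        have g3 : 1 ≤ ((Z ^ 37 : ℕ) : ℝ) * (1 / (64 * Cn ^ 2 * Y)) := by
          rw [hY, mul_one_div, le_div_iff₀ (by positivity), one_mul]
          have g4 : 64 * Cn ^ 2 ≤ (Z : ℝ) := by
            refine (Nat.le_ceil _).trans ?_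
            exact_mod_cast (by omega : ⌈64 * Cn ^ 2⌉₊ ≤ Z)
          calc 64 * Cn ^ 2 * (Z : ℝ) ^ 35 ≤ (Z : ℝ) * (Z : ℝ) ^ 35 :=
                mul_le_mul_of_nonneg_right g4 (by positivity)
            _ = (Z : ℝ) ^ 36 := by ring
            _ ≤ (Z : ℝ) ^ 37 := pow_le_pow_right₀ (by linarith) (by norm_num)
            _ = ((Z ^ 37 : ℕ) : ℝ) := by push_cast; ring
        have g5 : 0 ≤ F ((k + 1) * Z ^ 39) ^ 2 := sq_nonneg _
        beta_reduce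
        nlinarith)
  beta_reduce at hmain
  have hfin : F K ≤ F (n * Z ^ 39) := hFanti hnK
  have hFK : ∑ x, (vecMul f (TT (ed ∘ σ) ω A δ (K * (q * ms 2 L))) x) ^ 2 = F K := by
    rw [hF]
    rfl
  rw [hFK, rpow_two _ _ (sum_nonneg fun x _ => sq_nonneg _) (by positivity)]
  rw [Nat.zero_mul, g0] at hmain
  rcases hmain with hmain | hmain
  · refine le_trans (hfin.trans hmain) (le_max_of_le_left ?_)
    refine div_le_div_of_nonneg_right ?_ (by positivity)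
    refine (Nat.le_ceil _).trans ?_
    exact_mod_cast (by omega : ⌈16 * Cn⌉₊ ≤ C₀ + ⌈64 * Cn ^ 2⌉₊ + ⌈16 * Cn⌉₊ + 1000)
  · by_cases hFn : F (n * Z ^ 39) ≤ 0
    · refine le_trans (hfin.trans hFn) (le_max_of_le_left ?_)
      positivity
    · push Not at hFn
      refine hfin.trans (le_max_of_le_right ?_)
      have h3 : 0 < (F (n * Z ^ 39))⁻¹ := by positivity
      have h4 : F (n * Z ^ 39) = ((F (n * Z ^ 39))⁻¹)⁻¹ := (inv_inv _).symm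
      rw [h4]
      have h5 : 0 ≤ (∑ x, f x ^ 2)⁻¹ := inv_nonneg.2 (sum_nonneg fun x _ => sq_nonneg _)
      have hKpos : (0 : ℝ) < K := by
        have h6 : 1 ≤ Z ^ 44 := Nat.one_le_pow _ _ hZ0
        have : 0 < K := by omega
        exact_mod_cast this
      refine inv_anti₀ (by positivity) (le_trans ?_ hmain)
      have h6 : (K : ℝ) ≤ 2 * n * (Z : ℝ) ^ 39 := by
        have g3 : (n + 1) * Z ^ 39 ≤ (2 * n) * Z ^ 39 := Nat.mul_le_mul_right _ (by omega)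
        exact_mod_cast (by omega : K ≤ 2 * n * Z ^ 39)
      have h7 : 1 / (32 * (Z : ℝ) ^ 39) * K ≤ ((n : ℝ) - 1) / 8 := by
        have h8 : (2 : ℝ) ≤ n := by exact_mod_cast hnpos
        rw [div_mul_eq_mul_div, one_mul, div_le_div_iff₀ (by positivity) (by norm_num)]
        have h9 : (K : ℝ) * 8 ≤ 16 * n * (Z : ℝ) ^ 39 := by linarith
        have h10 : 16 * n * (Z : ℝ) ^ 39 ≤ ((n : ℝ) - 1) * (32 * (Z : ℝ) ^ 39) := by
          have h11 : (16 : ℝ) * n ≤ ((n : ℝ) - 1) * 32 := by linarith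
          calc 16 * n * (Z : ℝ) ^ 39 ≤ (((n : ℝ) - 1) * 32) * (Z : ℝ) ^ 39 :=
                mul_le_mul_of_nonneg_right h11 (by positivity)
            _ = _ := by ring
        linarith
      linarith

end Pool.Agent.K9h51.D2
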