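import Pool.Agent.K9h51.D2.Geo2

/-!
# Project D2: near pairs far from the holes, size of the neighbourhood of the holes
-/

set_option autoImplicit false

namespace Pool.Agent.K9h51.D2

open Finset Equiv Matrix Q292.LC
open Pool.Agent.Q257.LC (td_comm td_self td_tri mem_bal bal_mono)
open Pool.Agent.Q277.LC (card_bal_le)

section geo

variable {L : ℕ} [NeZero L]

open Classical in
/-- energy of `f` on the edges without points of the neighbourhood of the holes -/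
noncomputable def Eg (H : Finset (Fin 2 → ZMod L)) (D : ℕ) (f : (Fin 2 → ZMod L) → ℝ) : ℝ :=
  ∑ x, ∑ y, if x ∉ nbh H D ∧ y ∉ nbh H D ∧ td x y ≤ 1 then (f x - f y) ^ 2 else 0

theorem nbh_card (H : Finset (Fin 2 → ZMod L)) (lam R W B : ℕ) (z : Fin 2 → ZMod L)
    (hH : (H ∩ bal z W).card ≤ lam) (hW : B + R ≤ W) :
    (nbh H R ∩ bal z B).card ≤ lam * (2 * R + 1) ^ 2 := by
  classical
  have h1 : nbh H R ∩ bal z B ⊆ (H ∩ bal z W).biUnion fun h => bal h R := by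
    intro x hx
    rw [mem_inter, mem_nbh, mem_bal] at hx
    obtain ⟨⟨h, hh, hd⟩, hz⟩ := hx
    rw [mem_biUnion]
    refine ⟨h, ?_, ?_⟩
    · rw [mem_inter, mem_bal]
      exact ⟨hh, (td_tri z x h).trans (by omega)⟩
    · rw [mem_bal, td_comm]
      exact hd
  calc (nbh H R ∩ bal z B).card ≤ ((H ∩ bal z W).biUnion fun h => bal h R).card :=
        card_le_card h1
    _ ≤ ∑ h ∈ H ∩ bal z W, (bal h R).card := card_biUnion_le
    _ ≤ ∑ _h ∈ H ∩ bal z W, (2 * R + 1) ^ 2 := sum_le_sum fun h _ => card_bal_le h R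
    _ = (H ∩ bal z W).card * (2 * R + 1) ^ 2 := by rw [sum_const, smul_eq_mul]
    _ ≤ _ := Nat.mul_le_mul_right _ hH

open Classical in
theorem near_sum (H : Finset (Fin 2 → ZMod L)) (lam D W N R b : ℕ)
    (hH : ∀ v, (H ∩ bal v W).card ≤ lam) (hN : lam * (2 * D + 1) < N + 1) (hNL : N < L)
    (hNb : 9 * N ≤ b) (hRN : D + N ≤ R) (hW : 9 * b + N + D ≤ W)
    (f : (Fin 2 → ZMod L) → ℝ) :
    ∑ x, ∑ y, (if x ∉ nbh H R ∧ y ∉ nbh H R ∧ td x y ≤ 4 * b then (f x - f y) ^ 2 else 0) ≤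
      (8 * b + 1 : ℕ) ^ 2 * (10 * b) ^ 2 * (20 * b + 1 : ℕ) ^ 2 * Eg H D f := by
  obtain ⟨g, hg⟩ : ∃ g : (Fin 2 → ZMod L) → ℝ, g = fun u => ∑ v,
    if u ∉ nbh H D ∧ v ∉ nbh H D ∧ td u v ≤ 1 then (f u - f v) ^ 2 else 0 := ⟨_, rfl⟩
  have hEg : Eg H D f = ∑ u, g u := by rw [hg]; rfl
  have hterm : ∀ u v, 0 ≤ (if u ∉ nbh H D ∧ v ∉ nbh H D ∧ td u v ≤ 1 then
      (f u - f v) ^ 2 else 0) := by
    intro u v
    split_ifs
    · exact sq_nonneg _
    · exact le_rfl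
  have hg0 : ∀ u, 0 ≤ g u := by
    intro u
    rw [hg]
    exact sum_nonneg fun v _ => hterm u v
  obtain ⟨E, hE⟩ : ∃ E : (Fin 2 → ZMod L) → ℝ, E = fun x => ∑ u ∈ bal x (10 * b), g u := ⟨_, rfl⟩
  have hE0 : ∀ x, 0 ≤ E x := by
    intro x
    rw [hE]
    exact sum_nonneg fun u _ => hg0 u
  have h1 : ∀ x y, x ∉ nbh H R → y ∉ nbh H R → td x y ≤ 4 * b →
      (f x - f y) ^ 2 ≤ (10 * b) ^ 2 * E x := by
    intro x y hx hy hxy
    have h2 := two_far H lam D W N R b hH hN hNL hNb hRN hW f (Real.sqrt (E x))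
      (Real.sqrt_nonneg _) x y hx hy hxy (by
        intro u v hu hv hxu huv
        apply Real.abs_le_sqrt
        calc (f u - f v) ^ 2 = (if u ∉ nbh H D ∧ v ∉ nbh H D ∧ td u v ≤ 1 then
              (f u - f v) ^ 2 else 0) := by rw [if_pos ⟨hu, hv, huv⟩]
          _ ≤ g u := by
              rw [hg]
              exact Finset.single_le_sum (f := fun v => if u ∉ nbh H D ∧ v ∉ nbh H D ∧
                td u v ≤ 1 then (f u - f v) ^ 2 else 0) (fun v _ => hterm u v) (mem_univ v)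
          _ ≤ E x := by
              rw [hE]
              exact Finset.single_le_sum (f := g) (fun u _ => hg0 u) ((mem_bal _ _ _).2 hxu))
    have h3 : (f x - f y) ^ 2 = |f x - f y| ^ 2 := (sq_abs _).symm
    rw [h3]
    calc |f x - f y| ^ 2 ≤ (10 * b * Real.sqrt (E x)) ^ 2 :=
          pow_le_pow_left₀ (abs_nonneg _) h2 2
      _ = (10 * b) ^ 2 * E x := by rw [mul_pow, Real.sq_sqrt (hE0 x)]
  have h2 : ∑ x, ∑ y, (if x ∉ nbh H R ∧ y ∉ nbh H R ∧ td x y ≤ 4 * b then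
      (f x - f y) ^ 2 else 0) ≤ ∑ x, ∑ y, if y ∈ bal x (4 * b) then (10 * b) ^ 2 * E x else 0 := by
    refine sum_le_sum fun x _ => sum_le_sum fun y _ => ?_
    by_cases h : x ∉ nbh H R ∧ y ∉ nbh H R ∧ td x y ≤ 4 * b
    · rw [if_pos h, if_pos ((mem_bal _ _ _).2 h.2.2)]
      exact h1 x y h.1 h.2.1 h.2.2
    · rw [if_neg h]
      split_ifs
      · exact mul_nonneg (by positivity) (hE0 x)
      · exact le_rfl
  refine h2.trans ?_
  have h3 : ∀ x : Fin 2 → ZMod L, ∑ y, (if y ∈ bal x (4 * b) then (10 * b) ^ 2 * E x else 0) ≤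
      (8 * b + 1 : ℕ) ^ 2 * (10 * b) ^ 2 * E x := by
    intro x
    rw [← sum_filter, sum_const, filter_mem_eq_inter, univ_inter, nsmul_eq_mul]
    have h4 : ((bal x (4 * b)).card : ℝ) ≤ (8 * b + 1 : ℕ) ^ 2 := by
      have h5 := card_bal_le x (4 * b)
      have h6 : 2 * (4 * b) + 1 = 8 * b + 1 := by ring
      rw [h6] at h5
      exact_mod_cast h5
    rw [mul_assoc]
    refine mul_le_mul_of_nonneg_right h4 (mul_nonneg (by positivity) (hE0 x))
  refine (sum_le_sum fun x _ => h3 x).trans ?_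
  rw [← mul_sum]
  have h4 : ∑ x, E x ≤ (20 * b + 1 : ℕ) ^ 2 * Eg H D f := by
    rw [hE, hEg]
    have h5 : ∀ x, ∑ u ∈ bal x (10 * b), g u = ∑ u, if x ∈ bal u (10 * b) then g u else 0 := by
      intro x
      rw [← sum_filter]
      refine sum_congr ?_ fun _ _ => rfl
      ext u
      rw [mem_filter, mem_bal, mem_bal, td_comm]
      simp
    simp only [h5]
    rw [sum_comm, mul_sum]
    refine sum_le_sum fun u _ => ?_
    rw [← sum_filter, sum_const, filter_mem_eq_inter, univ_inter, nsmul_eq_mul]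
    refine mul_le_mul_of_nonneg_right ?_ (hg0 u)
    have h6 := card_bal_le u (10 * b)
    have h7 : 2 * (10 * b) + 1 = 20 * b + 1 := by ring
    rw [h7] at h6
    exact_mod_cast h6
  calc ((8 * b + 1 : ℕ) : ℝ) ^ 2 * (10 * b) ^ 2 * ∑ x, E x ≤
        ((8 * b + 1 : ℕ) : ℝ) ^ 2 * (10 * b) ^ 2 * ((20 * b + 1 : ℕ) ^ 2 * Eg H D f) :=
        mul_le_mul_of_nonneg_left h4 (by positivity)
    _ = _ := by ring

end geo

end Pool.Agent.K9h51.D2
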