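import Pool.Agent.Q277.LC.Bad
import Pool.Agent.Q66.LC.Jmp
import Pool.Agent.Q257.LC.LapB
import Pool.Agent.Q257.LC.KerU

/-!
# Project D2: closeness of pairs and regular particles in the plane
-/

set_option autoImplicit false
set_option linter.unusedSectionVars false
set_option linter.unusedVariables false

namespace Pool.Agent.K9h51.D2

open Finset Equiv Matrix Q292.LC
open Pool.Agent.Q277.LC (close_le EE_clo EE_sum kha_mom choose_lb)
open Pool.Agent.Q68.LC (EE_congr EE_const EE_add EE_smul EE_mono EE_succ)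

/-- sum of the reciprocals -/
theorem sum_log (δ : ℝ) (hδ : 0 < δ) (N : ℕ) (hN : 1 ≤ N) :
    δ * ∑ s ∈ Finset.range N, 1 / (1 + (s : ℝ) * δ) ≤ δ + Real.log (1 + ((N : ℝ) - 1) * δ) := by
  induction N, hN using Nat.le_induction with
  | base => simp
  | succ N hN ih =>
    rw [Finset.sum_range_succ, mul_add]
    have hN1 : (1 : ℝ) ≤ N := by exact_mod_cast hN
    obtain ⟨a, ha⟩ : ∃ a, a = 1 + ((N : ℝ) - 1) * δ := ⟨_, rfl⟩
    have ha1 : 1 ≤ a := by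
      rw [ha]
      have : 0 ≤ ((N : ℝ) - 1) * δ := mul_nonneg (by linarith) hδ.le
      linarith
    have hb : 1 + (((N + 1 : ℕ) : ℝ) - 1) * δ = a + δ := by rw [ha]; push_cast; ring
    have hb2 : 1 + (N : ℝ) * δ = a + δ := by rw [ha]; ring
    rw [hb, hb2]
    rw [← ha] at ih
    have h1 : δ * (1 / (a + δ)) ≤ Real.log (a + δ) - Real.log a := by
      rw [← Real.log_div (by positivity) (by positivity)]
      have h2 := Real.one_sub_inv_le_log_of_pos (x := (a + δ) / a) (by positivity)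
      refine le_trans (le_of_eq ?_) h2
      rw [inv_div]
      field_simp
      ring
    linarith

theorem clo2 : ∃ C : ℕ, 1 ≤ C ∧ ∀ (L : ℕ) [NeZero L], 3 ≤ L → ∀ K Y : ℕ, 1 ≤ Y →
    (L : ℝ) ^ 2 ≤ Real.exp Y → K ≤ L ^ 2 * Y → ∃ q₀ : ℕ, ∀ q ≥ q₀,
    ∀ σ : ℕ → (Fin 2 → ZMod L) × Fin 2, Per σ → ∀ δ : ℝ,
    1 ≤ δ * q → δ * q ≤ 2 → ∀ x y, x ≠ y →
    EE (K * (q * ms 2 L)) δ (fun ω => (clo σ (K * q) ω x y : ℝ)) ≤ C * Y * q := by
  obtain ⟨C, hC1, hC⟩ := Pool.Agent.Q257.LC.fre 2 (by norm_num)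
  refine ⟨⌈49 ^ 2 * C * 6⌉₊, ?_, ?_⟩
  · rw [Nat.one_le_ceil_iff]
    positivity
  intro L _ hL K Y hY hLY hKL
  obtain ⟨q₀, hq₀⟩ := hC L hL K
  refine ⟨max q₀ 2, ?_⟩
  intro q hq σ hσ δ hδ1 hδ2 x y hxy
  have hqq : q₀ ≤ q := le_trans (le_max_left _ _) hq
  have hq2 : 2 ≤ q := le_trans (le_max_right _ _) hq
  obtain ⟨f1, -, -⟩ := hq₀ q hqq σ hσ δ hδ1 hδ2
  obtain ⟨hδ0, hδle⟩ := Pool.Agent.Q277.LC.del_pos hq2 hδ1 hδ2
  have hqR : (2 : ℝ) ≤ q := by exact_mod_cast hq2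
  have hYR : (1 : ℝ) ≤ Y := by exact_mod_cast hY
  have hn : K * q * ms 2 L ≤ K * (q * ms 2 L) := by rw [mul_assoc]
  rw [EE_clo σ (K * q) _ δ hn x y]
  have hterm : ∀ s ∈ Finset.range (K * q), EE (s * ms 2 L) δ (fun ω =>
      if td (gp (ed ∘ σ) ω (s * ms 2 L) x) (gp (ed ∘ σ) ω (s * ms 2 L) y) ≤ 3 then (1 : ℝ)
        else 0) ≤ 49 ^ 2 * (C * (1 / (1 + (s : ℝ) * δ) + 1 / (L : ℝ) ^ 2)) := by
    intro s hs
    rw [Finset.mem_range] at hs
    have hs0 : (0 : ℝ) ≤ (s : ℝ) * δ := by positivity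
    have hpow : (1 + (s : ℝ) * δ) ^ (-(((2 : ℕ) : ℝ) / 2)) = 1 / (1 + (s : ℝ) * δ) := by
      have : (-(((2 : ℕ) : ℝ) / 2)) = -1 := by norm_num
      rw [this, Real.rpow_neg_one, one_div]
    have hS : ∀ x y, PP (ed ∘ σ) δ (s * ms 2 L) x y ≤
        C * (1 / (1 + (s : ℝ) * δ) + 1 / (L : ℝ) ^ 2) := by
      intro x y
      have h := f1 s hs.le x y
      rw [hpow] at h
      exact h
    exact close_le (ed ∘ σ) (s * ms 2 L) δ _ hδ0.le hδle hS (by positivity) x y hxy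
  refine le_trans (Finset.sum_le_sum hterm) ?_
  rw [← Finset.mul_sum, ← Finset.mul_sum, Finset.sum_add_distrib, Finset.sum_const,
    Finset.card_range, nsmul_eq_mul]
  have hL0 : (0 : ℝ) < L := by exact_mod_cast (by omega : 0 < L)
  have hLpos : (0 : ℝ) < (L : ℝ) ^ 2 := by positivity
  have hsum : ∑ s ∈ Finset.range (K * q), 1 / (1 + (s : ℝ) * δ) ≤ 5 * (Y * q) := by
    rcases Nat.eq_zero_or_pos K with hK0 | hK0
    · subst hK0
      simp
      positivity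
    have hN : 1 ≤ K * q := Nat.mul_pos hK0 (by omega)
    have h1 := sum_log δ hδ0 (K * q) hN
    have hKR : (1 : ℝ) ≤ K := by exact_mod_cast hK0
    have h2 : 1 + (((K * q : ℕ) : ℝ) - 1) * δ ≤ 3 * K := by
      push_cast
      have e1 : ((K : ℝ) * q - 1) * δ = K * (δ * q) - δ := by ring
      rw [e1]
      nlinarith
    have h3 : (K : ℝ) ≤ Real.exp (2 * Y) := by
      have e2 : (K : ℝ) ≤ (L : ℝ) ^ 2 * Y := by exact_mod_cast hKL
      have e3 : (Y : ℝ) ≤ Real.exp Y := by linarith [Real.add_one_le_exp (Y : ℝ)]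
      calc (K : ℝ) ≤ (L : ℝ) ^ 2 * Y := e2
        _ ≤ Real.exp Y * Real.exp Y := mul_le_mul hLY e3 (by positivity) (Real.exp_pos _).le
        _ = Real.exp (2 * Y) := by rw [← Real.exp_add]; congr 1; ring
    have h4 : Real.log (1 + (((K * q : ℕ) : ℝ) - 1) * δ) ≤ 2 + 2 * Y := by
      have e4 : (0 : ℝ) < 1 + (((K * q : ℕ) : ℝ) - 1) * δ := by
        have : (1 : ℝ) ≤ ((K * q : ℕ) : ℝ) := by exact_mod_cast hN
        have : 0 ≤ (((K * q : ℕ) : ℝ) - 1) * δ := mul_nonneg (by linarith) hδ0.le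
        linarith
      rw [Real.log_le_iff_le_exp e4]
      refine h2.trans ?_
      have e5 : (3 : ℝ) ≤ Real.exp 2 := by linarith [Real.add_one_le_exp (2 : ℝ)]
      rw [Real.exp_add]
      exact mul_le_mul e5 h3 (by positivity) (Real.exp_pos _).le
    have h5 : δ * ∑ s ∈ Finset.range (K * q), 1 / (1 + (s : ℝ) * δ) ≤ δ * (5 * (Y * q)) := by
      have e6 : δ * (5 * (Y * q)) = 5 * Y * (δ * q) := by ring
      have e7 : 5 * (Y : ℝ) ≤ 5 * Y * (δ * q) := le_mul_of_one_le_right (by positivity) hδ1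
      rw [e6]
      linarith
    exact le_of_mul_le_mul_left h5 hδ0
  have hKq : ((K * q : ℕ) : ℝ) * (1 / (L : ℝ) ^ 2) ≤ Y * q := by
    rw [mul_one_div, div_le_iff₀ hLpos]
    have : K * q ≤ Y * q * L ^ 2 := by
      calc K * q ≤ L ^ 2 * Y * q := Nat.mul_le_mul_right _ hKL
        _ = Y * q * L ^ 2 := by ring
    exact_mod_cast this
  have hfin : ∑ s ∈ Finset.range (K * q), 1 / (1 + (s : ℝ) * δ) +
      ((K * q : ℕ) : ℝ) * (1 / (L : ℝ) ^ 2) ≤ 6 * (Y * q) := by linarith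
  have hceil : 49 ^ 2 * C * 6 ≤ (⌈49 ^ 2 * C * 6⌉₊ : ℝ) := Nat.le_ceil _
  calc 49 ^ 2 * (C * (∑ s ∈ Finset.range (K * q), 1 / (1 + (s : ℝ) * δ) +
        ((K * q : ℕ) : ℝ) * (1 / (L : ℝ) ^ 2)))
      ≤ 49 ^ 2 * (C * (6 * (Y * q))) := by
        refine mul_le_mul_of_nonneg_left (mul_le_mul_of_nonneg_left hfin (by linarith)) (by positivity)
    _ = (49 ^ 2 * C * 6) * Y * q := by ring
    _ ≤ (⌈49 ^ 2 * C * 6⌉₊ : ℝ) * Y * q := by gcongr

/-- exponential tail of the closeness, any dimension, with the mean as parameter -/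
theorem kha_gen {d L : ℕ} [NeZero L] {σ : ℕ → (Fin d → ZMod L) × Fin d} (hσ : Per σ) (N B : ℕ)
    (δ : ℝ) (hδ0 : 0 ≤ δ) (hδle : δ ≤ 1) (hB1 : 1 ≤ B)
    (h : ∀ x y, x ≠ y → EE (N * ms d L) δ (fun ω => (clo σ N ω x y : ℝ)) ≤ B)
    (x y : Fin d → ZMod L) (hxy : x ≠ y) (m : ℕ) :
    EE (N * ms d L) δ (fun ω => if 4 * B * m < clo σ N ω x y then (1 : ℝ) else 0) ≤
      (1 / 2) ^ m := by
  rcases Nat.eq_zero_or_pos m with h0 | h0
  · subst h0
    rw [pow_zero]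
    have h1 : EE (N * ms d L) δ (fun ω => if 4 * B * 0 < clo σ N ω x y then
        (1 : ℝ) else 0) ≤ EE (N * ms d L) δ (fun _ => 1) := by
      refine EE_mono hδ0 hδle fun ω => ?_
      split_ifs <;> norm_num
    rw [EE_const] at h1
    exact h1
  have hmom := kha_mom hσ N δ B hδ0 hδle (by positivity) h m N le_rfl (N * ms d L) le_rfl x y hxy
  have hch := choose_lb B m hB1 h0
  have hchp : (0 : ℝ) < ((4 * B * m).choose m : ℝ) := lt_of_lt_of_le (by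
    have : (0 : ℝ) < ((2 * B : ℕ) : ℝ) := by exact_mod_cast (by omega : 0 < 2 * B)
    positivity) hch
  have h1 : EE (N * ms d L) δ (fun ω => if 4 * B * m < clo σ N ω x y then
      (1 : ℝ) else 0) ≤ EE (N * ms d L) δ (fun ω =>
        1 / ((4 * B * m).choose m : ℝ) * ((clo σ N ω x y).choose m : ℝ)) := by
    refine EE_mono hδ0 hδle fun ω => ?_
    split_ifs with hc
    · rw [one_div_mul_eq_div, one_le_div hchp]
      exact_mod_cast Nat.choose_le_choose m hc.le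
    · positivity
  refine le_trans h1 ?_
  rw [EE_smul]
  calc 1 / ((4 * B * m).choose m : ℝ) * EE (N * ms d L) δ
        (fun ω => ((clo σ N ω x y).choose m : ℝ))
      ≤ 1 / ((4 * B * m).choose m : ℝ) * (B : ℝ) ^ m :=
        mul_le_mul_of_nonneg_left hmom (by positivity)
    _ ≤ 1 / ((2 * B : ℕ) : ℝ) ^ m * (B : ℝ) ^ m := by
        refine mul_le_mul_of_nonneg_right ?_ (by positivity)
        refine one_div_le_one_div_of_le ?_ hch
        have : (0 : ℝ) < ((2 * B : ℕ) : ℝ) := by exact_mod_cast (by omega : 0 < 2 * B)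
        positivity
    _ = (1 / 2) ^ m := by
        have hBp : (B : ℝ) ≠ 0 := by
          have : (0 : ℝ) < B := by exact_mod_cast hB1
          exact this.ne'
        rw [one_div_mul_eq_div, ← div_pow]
        congr 1
        push_cast
        field_simp

open Classical in
theorem omp2 : ∃ C : ℕ, 1 ≤ C ∧ ∀ (L : ℕ) [NeZero L], 3 ≤ L → ∀ K Y : ℕ, 1 ≤ Y →
    (L : ℝ) ^ 2 ≤ Real.exp Y → K ≤ L ^ 2 * Y → ∀ ρ κ₀ : ℕ, ∃ q₀ : ℕ, ∀ q ≥ q₀,
    ∀ σ : ℕ → (Fin 2 → ZMod L) × Fin 2, Per σ → ∀ δ : ℝ, 1 ≤ δ * q → δ * q ≤ 2 →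
    EE (K * (q * ms 2 L)) δ (fun ω => if Om σ q K ρ κ₀ ω then (0 : ℝ) else 1) ≤
      C * Y * ((L : ℝ) ^ 4 * Real.exp (-(ρ : ℝ)) + (L : ℝ) ^ 4 * (1 / 2) ^ (κ₀ / (C * Y))) := by
  obtain ⟨CJ, hJ1, hJ2⟩ := Pool.Agent.Q66.LC.jmp 2 (by norm_num)
  obtain ⟨C0, hC01, hC0⟩ := clo2
  refine ⟨max ⌈CJ⌉₊ (4 * C0), le_trans (by omega) (le_max_right _ _), ?_⟩
  intro L _ hL K Y hY hLY hKL ρ κ₀
  obtain ⟨q₀, hq₀⟩ := hC0 L hL K Y hY hLY hKL
  refine ⟨max (max q₀ 2) ⌈2 * CJ⌉₊, ?_⟩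
  intro q hq σ hσ δ hδ1 hδ2
  have hqq : q₀ ≤ q := le_trans (le_trans (le_max_left _ _) (le_max_left _ _)) hq
  have hq2 : 2 ≤ q := le_trans (le_trans (le_max_right _ _) (le_max_left _ _)) hq
  have hqJ : 2 * CJ ≤ q := le_trans (Nat.le_ceil _)
    (by exact_mod_cast le_trans (le_max_right _ _) hq)
  have hqR : (2 : ℝ) ≤ q := by exact_mod_cast hq2
  obtain ⟨hδ0, hδle⟩ := Pool.Agent.Q277.LC.del_pos hq2 hδ1 hδ2
  have hCδ : CJ * δ ≤ 1 := by nlinarith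
  have hLR : (1 : ℝ) ≤ L := by exact_mod_cast (by omega : 1 ≤ L)
  obtain ⟨CK, hCK⟩ : ∃ CK, CK = 4 * C0 * Y := ⟨_, rfl⟩
  have hCK1 : 1 ≤ CK := by rw [hCK]; exact Nat.mul_pos (by omega) hY
  have hn : K * q * ms 2 L = K * (q * ms 2 L) := by rw [mul_assoc]
  have htail : ∀ x y, x ≠ y → ∀ m : ℕ, EE (K * (q * ms 2 L)) δ
      (fun ω => if CK * m * q < clo σ (K * q) ω x y then (1 : ℝ) else 0) ≤ (1 / 2) ^ m := by
    intro x y hxy m
    have h := kha_gen hσ (K * q) (C0 * Y * q) δ hδ0.le hδle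
      (Nat.mul_pos (Nat.mul_pos (by omega) hY) (by omega)) (by
        intro x y hxy
        rw [hn]
        have := hq₀ q hqq σ hσ δ hδ1 hδ2 x y hxy
        push_cast
        exact this) x y hxy m
    rw [hn] at h
    have e : 4 * (C0 * Y * q) * m = CK * m * q := by rw [hCK]; ring
    rw [e] at h
    exact h
  have hcard : (Fintype.card (Fin 2 → ZMod L) : ℝ) = (L : ℝ) ^ 2 := by
    rw [Fintype.card_fun, Fintype.card_fin, ZMod.card]
    push_cast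
    rfl
  have hkd : ∀ ω : ℕ → Bool, (if Om σ q K ρ κ₀ ω then (0 : ℝ) else 1) ≤
      (∑ j ∈ Finset.range K, ∑ x : Fin 2 → ZMod L,
        if ρ < jumps (ed ∘ σ) ω (j * (q * ms 2 L)) ((j + 1) * (q * ms 2 L)) x then (1 : ℝ) else 0) +
      ∑ p : (Fin 2 → ZMod L) × (Fin 2 → ZMod L), if p.1 ≠ p.2 then
        (if CK * (κ₀ / CK) * q < clo σ (K * q) ω p.1 p.2 then (1 : ℝ) else 0) else 0 := by
    intro ω
    have hn1 : 0 ≤ ∑ j ∈ Finset.range K, ∑ x : Fin 2 → ZMod L,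
        (if ρ < jumps (ed ∘ σ) ω (j * (q * ms 2 L)) ((j + 1) * (q * ms 2 L)) x then (1 : ℝ)
          else 0) := by
      refine Finset.sum_nonneg fun j _ => Finset.sum_nonneg fun x _ => ?_
      split_ifs <;> norm_num
    have hn2 : 0 ≤ ∑ p : (Fin 2 → ZMod L) × (Fin 2 → ZMod L), (if p.1 ≠ p.2 then
        (if CK * (κ₀ / CK) * q < clo σ (K * q) ω p.1 p.2 then (1 : ℝ) else 0) else 0) := by
      refine Finset.sum_nonneg fun p _ => ?_
      split_ifs <;> norm_num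
    split_ifs with hOm
    · linarith
    unfold Om at hOm
    rw [not_and_or] at hOm
    rcases hOm with h | h
    · push Not at h
      obtain ⟨j, hj, a, ha⟩ := h
      have h1 : (1 : ℝ) ≤ ∑ j ∈ Finset.range K, ∑ x : Fin 2 → ZMod L,
          (if ρ < jumps (ed ∘ σ) ω (j * (q * ms 2 L)) ((j + 1) * (q * ms 2 L)) x then (1 : ℝ)
            else 0) := by
        have h2 : ∑ x : Fin 2 → ZMod L,
          (if ρ < jumps (ed ∘ σ) ω (j * (q * ms 2 L)) ((j + 1) * (q * ms 2 L)) x then (1 : ℝ)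
            else 0) ≤ ∑ j ∈ Finset.range K, ∑ x : Fin 2 → ZMod L,
          (if ρ < jumps (ed ∘ σ) ω (j * (q * ms 2 L)) ((j + 1) * (q * ms 2 L)) x then (1 : ℝ)
            else 0) := by
          refine Finset.single_le_sum (f := fun j => ∑ x : Fin 2 → ZMod L,
            (if ρ < jumps (ed ∘ σ) ω (j * (q * ms 2 L)) ((j + 1) * (q * ms 2 L)) x then (1 : ℝ)
            else 0)) (fun j _ => Finset.sum_nonneg fun x _ => by split_ifs <;> norm_num)
            (Finset.mem_range.2 hj)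
        refine le_trans ?_ h2
        have h3 : (if ρ < jumps (ed ∘ σ) ω (j * (q * ms 2 L)) ((j + 1) * (q * ms 2 L)) a then
          (1 : ℝ) else 0) ≤ ∑ x : Fin 2 → ZMod L,
          (if ρ < jumps (ed ∘ σ) ω (j * (q * ms 2 L)) ((j + 1) * (q * ms 2 L)) x then (1 : ℝ)
            else 0) := by
          refine Finset.single_le_sum (f := fun x =>
            (if ρ < jumps (ed ∘ σ) ω (j * (q * ms 2 L)) ((j + 1) * (q * ms 2 L)) x then (1 : ℝ)
            else 0)) (fun x _ => by split_ifs <;> norm_num) (Finset.mem_univ a)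
        rw [if_pos ha] at h3
        exact h3
      linarith
    · push Not at h
      obtain ⟨a, b, hab, hc⟩ := h
      have h3 : (if a ≠ b then
        (if CK * (κ₀ / CK) * q < clo σ (K * q) ω a b then (1 : ℝ) else 0) else 0) ≤
          ∑ p : (Fin 2 → ZMod L) × (Fin 2 → ZMod L), (if p.1 ≠ p.2 then
        (if CK * (κ₀ / CK) * q < clo σ (K * q) ω p.1 p.2 then (1 : ℝ) else 0) else 0) := by
        refine Finset.single_le_sum (f := fun p : (Fin 2 → ZMod L) × (Fin 2 → ZMod L) =>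
          (if p.1 ≠ p.2 then
        (if CK * (κ₀ / CK) * q < clo σ (K * q) ω p.1 p.2 then (1 : ℝ) else 0) else 0))
          (fun p _ => by split_ifs <;> norm_num) (Finset.mem_univ (a, b))
      have h4 : CK * (κ₀ / CK) * q < clo σ (K * q) ω a b := by
        refine lt_of_le_of_lt ?_ hc
        exact Nat.mul_le_mul_right _ (Nat.mul_div_le _ _)
      rw [if_pos hab, if_pos h4] at h3
      linarith
  have hE : EE (K * (q * ms 2 L)) δ (fun ω => if Om σ q K ρ κ₀ ω then (0 : ℝ) else 1) ≤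
      (∑ j ∈ Finset.range K, ∑ x : Fin 2 → ZMod L, CJ * Real.exp (-(ρ : ℝ))) +
      ∑ p : (Fin 2 → ZMod L) × (Fin 2 → ZMod L), (1 / 2 : ℝ) ^ (κ₀ / CK) := by
    refine le_trans (EE_mono hδ0.le hδle hkd) ?_
    rw [EE_add, EE_sum, EE_sum]
    refine add_le_add ?_ ?_
    · refine Finset.sum_le_sum fun j hj => ?_
      rw [EE_sum]
      refine Finset.sum_le_sum fun x _ => ?_
      have := hJ2 L hL σ hσ q K j ρ δ x hδ0 hCδ hδ2 (Finset.mem_range.1 hj)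
      convert this
    · refine Finset.sum_le_sum fun p _ => ?_
      by_cases hp : p.1 ≠ p.2
      · have := htail p.1 p.2 hp (κ₀ / CK)
        simp only [if_pos hp]
        exact this
      · simp only [if_neg hp]
        rw [EE_const]
        positivity
  refine le_trans hE ?_
  simp only [Finset.sum_const, Finset.card_univ, Finset.card_range, nsmul_eq_mul,
    Fintype.card_prod]
  push_cast
  rw [hcard]
  obtain ⟨M, hM⟩ : ∃ M, M = max ⌈CJ⌉₊ (4 * C0) := ⟨_, rfl⟩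
  have hMR : max (⌈CJ⌉₊ : ℝ) (4 * (C0 : ℝ)) = (M : ℝ) := by rw [hM]; push_cast; rfl
  have hM1 : CJ ≤ (M : ℝ) := by
    rw [← hMR]
    exact le_trans (Nat.le_ceil _) (le_max_left _ _)
  have hM4 : 4 * C0 ≤ M := by rw [hM]; exact le_max_right _ _
  have hM2 : (1 : ℝ) ≤ (M : ℝ) := by exact_mod_cast (by omega : 1 ≤ M)
  have hYR : (1 : ℝ) ≤ Y := by exact_mod_cast hY
  have hKR : (K : ℝ) ≤ (L : ℝ) ^ 2 * Y := by exact_mod_cast hKL
  rw [hMR, ← hM]
  have hLd : (0 : ℝ) ≤ (L : ℝ) ^ 2 := by positivity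
  have hL4 : (L : ℝ) ^ 4 = (L : ℝ) ^ 2 * (L : ℝ) ^ 2 := by ring
  have t1 : (K : ℝ) * ((L : ℝ) ^ 2 * (CJ * Real.exp (-(ρ : ℝ)))) ≤
      (M : ℝ) * Y * ((L : ℝ) ^ 4 * Real.exp (-(ρ : ℝ))) := by
    rw [hL4]
    have he : 0 ≤ Real.exp (-(ρ : ℝ)) := (Real.exp_pos _).le
    calc (K : ℝ) * ((L : ℝ) ^ 2 * (CJ * Real.exp (-(ρ : ℝ))))
        ≤ ((L : ℝ) ^ 2 * Y) * ((L : ℝ) ^ 2 * (CJ * Real.exp (-(ρ : ℝ)))) := by
          refine mul_le_mul_of_nonneg_right hKR (by positivity)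
      _ = CJ * (Y * ((L : ℝ) ^ 2 * (L : ℝ) ^ 2 * Real.exp (-(ρ : ℝ)))) := by ring
      _ ≤ M * (Y * ((L : ℝ) ^ 2 * (L : ℝ) ^ 2 * Real.exp (-(ρ : ℝ)))) :=
          mul_le_mul_of_nonneg_right hM1 (by positivity)
      _ = _ := by ring
  have t2 : (L : ℝ) ^ 2 * (L : ℝ) ^ 2 * (1 / 2) ^ (κ₀ / CK) ≤
      (M : ℝ) * Y * ((L : ℝ) ^ 4 * (1 / 2) ^ (κ₀ / (M * Y))) := by
    rw [hL4]
    have hp : (1 / 2 : ℝ) ^ (κ₀ / CK) ≤ (1 / 2) ^ (κ₀ / (M * Y)) := by
      refine pow_le_pow_of_le_one (by norm_num) (by norm_num) ?_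
      refine Nat.div_le_div_left ?_ (by omega)
      rw [hCK]
      exact Nat.mul_le_mul_right _ hM4
    calc (L : ℝ) ^ 2 * (L : ℝ) ^ 2 * (1 / 2) ^ (κ₀ / CK)
        ≤ (L : ℝ) ^ 2 * (L : ℝ) ^ 2 * (1 / 2) ^ (κ₀ / (M * Y)) :=
          mul_le_mul_of_nonneg_left hp (by positivity)
      _ ≤ _ := by
          refine le_mul_of_one_le_left (by positivity) ?_
          nlinarith
  rw [mul_add]
  linarith

end Pool.Agent.K9h51.D2
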