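import Pool.Agent.K9h51.D2.Itr
import Pool.Agent.K9h51.D2.Ker2
import Pool.Agent.K9h51.LC.Dva

/-!
# Project D2: the resolvent form of a box in a good environment of the plane
-/

set_option autoImplicit false

namespace Pool.Agent.K9h51.D2

open Finset Equiv Matrix Q292.LC
open Pool.Agent.Q257.LC (ker_nat card_V)
open Pool.Agent.K9h51.LC (al al_nonneg al_sum al_cover)

variable {L : ℕ} [NeZero L]

/-- the uniform distribution of a box outside of `A` -/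
noncomputable def chA (R : ℕ) (A : Finset (Fin 2 → ZMod L)) (z x : Fin 2 → ZMod L) : ℝ :=
  if x ∈ A then 0 else al R z x

/-- minus the constant function outside of `A` with the same sum -/
noncomputable def phA (R : ℕ) (A : Finset (Fin 2 → ZMod L)) (z x : Fin 2 → ZMod L) : ℝ :=
  chA R A z x - if x ∈ A then 0 else (∑ y, chA R A z y) / ((univ \ A).card : ℝ)

theorem chA_nonneg (R : ℕ) (A : Finset (Fin 2 → ZMod L)) (z x : Fin 2 → ZMod L) :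
    0 ≤ chA R A z x := by
  unfold chA
  split_ifs
  · exact le_rfl
  · exact al_nonneg R z x

theorem chA_le (R : ℕ) (A : Finset (Fin 2 → ZMod L)) (z x : Fin 2 → ZMod L) :
    chA R A z x ≤ al R z x := by
  unfold chA
  split_ifs
  · exact al_nonneg R z x
  · exact le_rfl

theorem chA_sum {R : ℕ} (hR : 1 ≤ R) (hRL : R ≤ L) (A : Finset (Fin 2 → ZMod L))
    (z : Fin 2 → ZMod L) : ∑ x, chA R A z x ≤ 1 := by
  refine (Finset.sum_le_sum fun x _ => chA_le R A z x).trans ?_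
  exact (al_sum hR hRL z).le

theorem chA_sq {R : ℕ} (hR : 1 ≤ R) (hRL : R ≤ L) (A : Finset (Fin 2 → ZMod L))
    (z : Fin 2 → ZMod L) : ∑ x, chA R A z x ^ 2 ≤ 1 / (R : ℝ) ^ 2 := by
  have hR0 : (0 : ℝ) < R := by exact_mod_cast hR
  have h1 : ∀ x, chA R A z x ≤ 1 / (R : ℝ) ^ 2 := by
    intro x
    refine (chA_le R A z x).trans ?_
    unfold al
    split_ifs
    · exact le_rfl
    · positivity
  calc ∑ x, chA R A z x ^ 2 ≤ ∑ x, 1 / (R : ℝ) ^ 2 * chA R A z x := by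
        refine Finset.sum_le_sum fun x _ => ?_
        rw [sq]
        exact mul_le_mul_of_nonneg_right (h1 x) (chA_nonneg R A z x)
    _ = 1 / (R : ℝ) ^ 2 * ∑ x, chA R A z x := by rw [Finset.mul_sum]
    _ ≤ 1 / (R : ℝ) ^ 2 * 1 := mul_le_mul_of_nonneg_left (chA_sum hR hRL A z) (by positivity)
    _ = _ := mul_one _

theorem phA_zero (R : ℕ) (A : Finset (Fin 2 → ZMod L)) (z a : Fin 2 → ZMod L) (ha : a ∈ A) :
    phA R A z a = 0 := by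
  unfold phA chA
  rw [if_pos ha, if_pos ha, sub_zero]

/-- numerical estimates -/
theorem num_r (C Z K L2 R i : ℝ) (hC : 1 ≤ C) (hZ : 2 * C + 1000 ≤ Z) (hK : 1 ≤ K)
    (hL2 : 1 ≤ L2) (hKL : K ≤ L2 * Z) (hLe : L2 ≤ Real.exp Z) (hR : 0 < R) (hi1 : 1 ≤ i)
    (hi2 : L2 ≤ i * K) (hi3 : i ≤ L2 / K + 1) :
    2 * (2 * (1 / R) + 2 / (L2 / 2)) +
      (i * (2 * (C / L2) + 2 / (L2 / 2)) + 2 / (1 / (32 * Z ^ 39) * K) * (1 + Real.log i) +
        (2 * (C / L2) + 2 / (i * (1 / (32 * Z ^ 39) * K)) + 2 / (L2 / 2)) / (K / (Z ^ 18 * L2))) +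
      (i * (2 * (C / L2) + 2 / (L2 / 2)) + 2 / (1 / (32 * Z ^ 39) * K) * (1 + Real.log i) +
        (2 * (C / L2) + 2 / (i * (1 / (32 * Z ^ 39) * K)) + 2 / (L2 / 2)) / (K / (Z ^ 18 * L2))) ≤
      4 / R + Z ^ 60 / K := by
  have hZ1 : 1000 ≤ Z := by linarith
  have hZ0 : 0 < Z := by linarith
  have hK0 : 0 < K := by linarith
  have hL0 : 0 < L2 := by linarith
  have hi0 : 0 < i := by linarith
  have hz39 : 1 ≤ Z ^ 39 := one_le_pow₀ (by linarith)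
  have hlog : Real.log i ≤ Z + 1 := by
    have h1 : i ≤ 2 * L2 := by
      have h2 : L2 / K ≤ L2 := div_le_self hL0.le hK
      linarith
    have h2 : (2 : ℝ) ≤ Real.exp 1 := by linarith [Real.add_one_le_exp (1 : ℝ)]
    rw [Real.log_le_iff_le_exp hi0, Real.exp_add]
    calc i ≤ 2 * L2 := h1
      _ = L2 * 2 := by ring
      _ ≤ Real.exp Z * Real.exp 1 := mul_le_mul hLe h2 (by norm_num) (Real.exp_pos _).le
  have t1 : i * (2 * (C / L2) + 2 / (L2 / 2)) ≤ Z ^ 3 / K := by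
    rw [le_div_iff₀ hK0]
    have e1 : i * (2 * (C / L2) + 2 / (L2 / 2)) * K = (i * K) / L2 * (2 * C + 4) := by
      field_simp
      ring
    have h1 : i * K ≤ L2 * (1 + Z) := by
      calc i * K ≤ (L2 / K + 1) * K := mul_le_mul_of_nonneg_right hi3 hK0.le
        _ = L2 + K := by field_simp
        _ ≤ L2 * (1 + Z) := by linarith
    have h2 : (i * K) / L2 ≤ 1 + Z := by
      rw [div_le_iff₀ hL0]
      linarith
    rw [e1]
    calc (i * K) / L2 * (2 * C + 4) ≤ (1 + Z) * Z :=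
          mul_le_mul h2 (by linarith) (by positivity) (by positivity)
      _ ≤ (2 * Z) * Z := mul_le_mul_of_nonneg_right (by linarith) hZ0.le
      _ = 2 * Z ^ 2 := by ring
      _ ≤ Z * Z ^ 2 := mul_le_mul_of_nonneg_right (by linarith) (by positivity)
      _ = Z ^ 3 := by ring
  have t2 : 2 / (1 / (32 * Z ^ 39) * K) * (1 + Real.log i) ≤ Z ^ 41 / K := by
    have e1 : 2 / (1 / (32 * Z ^ 39) * K) = 64 * Z ^ 39 / K := by
      field_simp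
      norm_num
    rw [e1]
    have h1 : 1 + Real.log i ≤ 2 * Z := by linarith
    calc 64 * Z ^ 39 / K * (1 + Real.log i) ≤ 64 * Z ^ 39 / K * (2 * Z) :=
          mul_le_mul_of_nonneg_left h1 (by positivity)
      _ = (128 * Z ^ 40) / K := by ring
      _ ≤ Z ^ 41 / K := by
          refine div_le_div_of_nonneg_right ?_ hK0.le
          have h2 : 128 * Z ^ 40 ≤ Z * Z ^ 40 := mul_le_mul_of_nonneg_right (by linarith) (by positivity)
          calc 128 * Z ^ 40 ≤ Z * Z ^ 40 := h2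
            _ = Z ^ 41 := by ring
  have t3 : (2 * (C / L2) + 2 / (i * (1 / (32 * Z ^ 39) * K)) + 2 / (L2 / 2)) / (K / (Z ^ 18 * L2)) ≤
      Z ^ 58 / K := by
    have e1 : 2 / (i * (1 / (32 * Z ^ 39) * K)) = 64 * Z ^ 39 / (i * K) := by
      field_simp
      norm_num
    have h1 : 64 * Z ^ 39 / (i * K) ≤ 64 * Z ^ 39 / L2 :=
      div_le_div_of_nonneg_left (by positivity) hL0 hi2
    have h2 : 2 * (C / L2) + 2 / (i * (1 / (32 * Z ^ 39) * K)) + 2 / (L2 / 2) ≤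
        (65 * Z ^ 39) / L2 := by
      rw [e1]
      have e2 : 2 * (C / L2) + 2 / (L2 / 2) = (2 * C + 4) / L2 := by
        field_simp
        ring
      have h3 : (2 * C + 4) / L2 ≤ Z ^ 39 / L2 := by
        refine div_le_div_of_nonneg_right ?_ hL0.le
        have : Z ≤ Z ^ 39 := le_self_pow₀ (by linarith) (by norm_num)
        linarith
      have e3 : (65 * Z ^ 39) / L2 = 64 * Z ^ 39 / L2 + Z ^ 39 / L2 := by ring
      rw [e3]
      linarith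
    calc (2 * (C / L2) + 2 / (i * (1 / (32 * Z ^ 39) * K)) + 2 / (L2 / 2)) / (K / (Z ^ 18 * L2))
        ≤ ((65 * Z ^ 39) / L2) / (K / (Z ^ 18 * L2)) :=
          div_le_div_of_nonneg_right h2 (by positivity)
      _ = (65 * Z ^ 57) / K := by
          field_simp
      _ ≤ Z ^ 58 / K := by
          refine div_le_div_of_nonneg_right ?_ hK0.le
          have h2 : 65 * Z ^ 57 ≤ Z * Z ^ 57 := mul_le_mul_of_nonneg_right (by linarith) (by positivity)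
          calc 65 * Z ^ 57 ≤ Z * Z ^ 57 := h2
            _ = Z ^ 58 := by ring
  have t4 : 2 / (L2 / 2) ≤ 4 * Z / K := by
    rw [div_le_div_iff₀ (by positivity) hK0]
    linarith
  have p3 : Z ^ 3 ≤ Z ^ 58 := pow_le_pow_right₀ (by linarith) (by norm_num)
  have p41 : Z ^ 41 ≤ Z ^ 58 := pow_le_pow_right₀ (by linarith) (by norm_num)
  have p1 : Z ≤ Z ^ 58 := le_self_pow₀ (by linarith) (by norm_num)
  have s1 : Z ^ 3 / K ≤ Z ^ 58 / K := div_le_div_of_nonneg_right p3 hK0.le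
  have s2 : Z ^ 41 / K ≤ Z ^ 58 / K := div_le_div_of_nonneg_right p41 hK0.le
  have s3 : 4 * Z / K ≤ 4 * (Z ^ 58 / K) := by
    rw [← mul_div_assoc]
    exact div_le_div_of_nonneg_right (by linarith) hK0.le
  have s4 : 14 * (Z ^ 58 / K) ≤ Z ^ 60 / K := by
    rw [← mul_div_assoc]
    refine div_le_div_of_nonneg_right ?_ hK0.le
    have e1 : Z ^ 60 = Z ^ 2 * Z ^ 58 := by ring
    rw [e1]
    exact mul_le_mul_of_nonneg_right (by nlinarith) (by positivity)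
  have e2 : 2 * (2 * (1 / R)) = 4 / R := by ring
  linarith

theorem res2 : ∃ C : ℕ, 1 ≤ C ∧ ∀ Z : ℕ, C ≤ Z →
    ∀ (L K lam r ρ κ₀ : ℕ) [NeZero L], lam ≤ Z → ρ ≤ Z → κ₀ + 1 ≤ Z → (L : ℝ) ^ 2 ≤ Real.exp Z →
    Z ^ 46 ≤ r → 8 * Z ^ 46 ≤ L → Z ^ 46 ≤ K → K ≤ L ^ 2 * Z → ∃ q₀ : ℕ, ∀ q ≥ q₀,
    ∀ σ : ℕ → (Fin 2 → ZMod L) × Fin 2, Per σ → ∀ δ : ℝ, 1 ≤ δ * q → δ * q ≤ 2 →
    ∀ (ω : ℕ → Bool) (A : Finset (Fin 2 → ZMod L)), Gd σ q K lam r ρ κ₀ ω A →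
    Inv (gp (ed ∘ σ) ω (K * (q * ms 2 L))) A → 2 * A.card ≤ L ^ 2 →
    ∀ (R : ℕ), 1 ≤ R → R ≤ L → ∀ (z : Fin 2 → ZMod L) (w : ℝ), 0 ≤ w → w < 1 →
    phA R A z ⬝ᵥ ((1 - w • (dg (univ \ A) * TT (ed ∘ σ) ω A δ (K * (q * ms 2 L))))⁻¹ *ᵥ
      phA R A z) ≤ 4 / (R : ℝ) ^ 2 + (Z : ℝ) ^ 60 / K := by
  obtain ⟨Cl, hCl, hlap⟩ := lap2
  obtain ⟨Cm, hCm, hmz⟩ := mz2
  have hB1 := Pool.Agent.Q68.LC.bas1
  have hB2 := Pool.Agent.Q68.LC.bas2
  have hGE := Pool.Agent.Q277.LC.ge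
  have hREV := Pool.Agent.Q187.LC.Rev.rev
  refine ⟨2 * Cl + Cm + 1000, by omega, ?_⟩
  intro Z hZ L K lam r ρ κ₀ _ hlam hρ hκ hLd hr hL hK hKL
  have hZ0 : 0 < Z := by omega
  obtain ⟨n1, n2, n3, n4, n5, n6, hL3, n8, n9, n10⟩ :=
    ker_nat Z 44 r ρ K L (by omega) hρ hr hL hK
  have hp43 : Z ^ 43 ≤ Z ^ 44 := Nat.pow_le_pow_right hZ0 (by norm_num)
  obtain ⟨q1, hq1⟩ := hlap Z (by omega) L K lam (r - ρ) ρ (κ₀ + 1) hlam hρ hκ hLd
    (hp43.trans n1) (by omega) n4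
  obtain ⟨q2, hq2⟩ := hmz Z (by omega) L K lam (r - ρ) ρ (κ₀ + 1) hlam hρ hκ hLd
    (hp43.trans n1) (by omega) n4
  refine ⟨q1 + q2 + 2, ?_⟩
  intro q hq σ hσ δ h1 h2 ω A hGd hInv hA2 R hR hRL z w hw0 hw1
  have hqr : (2 : ℝ) ≤ q := by
    have : 2 ≤ q := by omega
    exact_mod_cast this
  have hδ : 0 < δ := by
    by_contra h
    push Not at h
    nlinarith
  have hδ1 : δ ≤ 1 := by nlinarith
  have hEv : Ev σ q K lam (r - ρ) ρ (κ₀ + 1) ω A :=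
    hGE 2 L hL3 σ hσ q K lam (r - ρ) ρ κ₀ ω A (by omega) n10 (by rw [n2]; exact hGd)
  obtain ⟨hσr, hEvr, hTr⟩ := hREV 2 L (by norm_num) hL3 σ hσ q K lam (r - ρ) ρ (κ₀ + 1) ω A δ
  have hB := hB2 _ (ed ∘ σ) ω A δ hδ.le hδ1
  have himg : A.image (gp (ed ∘ σ) ω (K * (q * ms 2 L))) = A := by
    refine Finset.eq_of_subset_of_card_le ?_ ?_
    · intro y hy
      obtain ⟨a, ha, rfl⟩ := Finset.mem_image.1 hy
      exact hInv a ha
    · rw [Finset.card_image_of_injective _ (gp (ed ∘ σ) ω (K * (q * ms 2 L))).injective]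
  obtain ⟨T, hT⟩ : ∃ T, T = TT (ed ∘ σ) ω A δ (K * (q * ms 2 L)) := ⟨_, rfl⟩
  rw [himg] at hEvr hTr
  have hT0 : ∀ x y, 0 ≤ T x y := by
    rw [hT]
    exact hB.1 _
  have hrow : ∀ x, ∑ y, T x y = 1 := by
    rw [hT]
    exact hB.2.1 _
  have hcol : ∀ y, ∑ x, T x y = 1 := by
    rw [hT]
    exact hB.2.2.1 _
  have hTA : ∀ x, x ∉ A → ∀ y ∈ A, T x y = 0 := by
    intro x hx y hy
    rw [hT]
    refine hB.2.2.2.2.1 _ x hx y ?_
    rw [himg]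
    exact hy
  have hAT : ∀ x ∈ A, ∀ y, y ∉ A → T x y = 0 := by
    intro x hx y hy
    rw [hT, hB.2.2.2.1 _ x hx y, if_neg]
    intro h
    exact hy (h ▸ hInv x hx)
  have hLpos : 0 < L := by omega
  have hL0 : (0 : ℝ) < L := by exact_mod_cast hLpos
  have hK0 : (0 : ℝ) < K := by exact_mod_cast n10
  have hK1 : (1 : ℝ) ≤ K := by exact_mod_cast n10
  have hZr : 2 * (Cl : ℝ) + 1000 ≤ Z := by
    have : 2 * Cl + 1000 ≤ Z := by omega
    exact_mod_cast this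
  have hClr : (1 : ℝ) ≤ Cl := by exact_mod_cast hCl
  have hZpos : (0 : ℝ) < Z := by linarith
  obtain ⟨c, hc⟩ : ∃ c : ℝ, c = 1 / (32 * (Z : ℝ) ^ 39) * K := ⟨_, rfl⟩
  have hc0 : 0 < c := by rw [hc]; positivity
  obtain ⟨β, hβ⟩ : ∃ β : ℝ, β = K / ((Z : ℝ) ^ 18 * (L : ℝ) ^ 2) := ⟨_, rfl⟩
  have hβ0 : 0 < β := by rw [hβ]; positivity
  obtain ⟨m0, hm0⟩ : ∃ m0 : ℝ, m0 = Cl / (L : ℝ) ^ 2 := ⟨_, rfl⟩
  have hm0n : 0 ≤ m0 := by
    rw [hm0]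
    positivity
  have hLap1 : ∀ f : (Fin 2 → ZMod L) → ℝ, (∀ x, 0 ≤ f x) → (∀ x ∈ A, f x = 0) →
      ∑ x, f x ≤ 1 → ∑ x, (f ᵥ* T) x ^ 2 ≤ max m0 (((∑ x, f x ^ 2)⁻¹ + c)⁻¹) := by
    intro f hf0 hfA hf1
    have h3 := hq1 q (by omega) σ hσ δ h1 h2 ω A hEv f hf0 hfA hf1
    rw [rpow_two _ _ (Finset.sum_nonneg fun x _ => sq_nonneg _) (by positivity), ← hc, ← hm0,
      ← hT] at h3
    exact h3
  have hLap2 : ∀ f : (Fin 2 → ZMod L) → ℝ, (∀ x, 0 ≤ f x) → (∀ x ∈ A, f x = 0) →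
      ∑ x, f x ≤ 1 → ∑ x, (f ᵥ* Tᵀ) x ^ 2 ≤ max m0 (((∑ x, f x ^ 2)⁻¹ + c)⁻¹) := by
    intro f hf0 hfA hf1
    have h3 := hq1 q (by omega) (rvs σ) hσr δ h1 h2 _ _ (hEvr hEv) f hf0 hfA hf1
    rw [rpow_two _ _ (Finset.sum_nonneg fun x _ => sq_nonneg _) (by positivity), ← hc, ← hm0,
      hTr, ← hT] at h3
    exact h3
  have hMz1 : ∀ f : (Fin 2 → ZMod L) → ℝ, (∀ x ∈ A, f x = 0) → ∑ x, f x = 0 →
      (1 + β) * ∑ x, (f ᵥ* T) x ^ 2 ≤ ∑ x, f x ^ 2 := by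
    intro f hfA hf1
    have h3 := hq2 q (by omega) σ hσ δ h1 h2 ω A hEv f hfA hf1
    rw [← hβ, ← hT] at h3
    exact h3
  have hMz2 : ∀ f : (Fin 2 → ZMod L) → ℝ, (∀ x ∈ A, f x = 0) → ∑ x, f x = 0 →
      (1 + β) * ∑ x, (f ᵥ* Tᵀ) x ^ 2 ≤ ∑ x, f x ^ 2 := by
    intro f hfA hf1
    have h3 := hq2 q (by omega) (rvs σ) hσr δ h1 h2 _ _ (hEvr hEv) f hfA hf1
    rw [← hβ, hTr, ← hT] at h3
    exact h3
  have hN₀ : (L : ℝ) ^ 2 / 2 ≤ ((univ \ A).card : ℝ) := by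
    have h3 : (univ \ A).card + A.card = L ^ 2 := by
      rw [Finset.card_sdiff_add_card_eq_card (Finset.subset_univ A), Finset.card_univ, card_V]
    have h4 : ((univ \ A).card : ℝ) + A.card = (L : ℝ) ^ 2 := by exact_mod_cast h3
    have h5 : (2 : ℝ) * A.card ≤ (L : ℝ) ^ 2 := by exact_mod_cast hA2
    linarith
  obtain ⟨i, hi⟩ : ∃ i : ℕ, i = L ^ 2 / K + 1 := ⟨_, rfl⟩
  have hi1 : 1 ≤ i := by rw [hi]; exact Nat.le_add_left _ _
  obtain ⟨s1, s2⟩ := sum_iter T A hT0 hrow hcol hTA hAT m0 c β ((L : ℝ) ^ 2 / 2) hm0n hc0 hβ0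
    (by positivity) hLap1 hMz1 (chA R A z) (chA_nonneg R A z)
    (fun x hx => by unfold chA; rw [if_pos hx]) (chA_sum hR hRL A z) hN₀ (phA R A z)
    (fun x => rfl) i hi1
  obtain ⟨-, s3⟩ := sum_iter Tᵀ A (fun x y => hT0 y x) hcol hrow
    (fun x hx y hy => hAT y hy x hx) (fun x hx y hy => hTA y hy x hx) m0 c β ((L : ℝ) ^ 2 / 2)
    hm0n hc0 hβ0
    (by positivity) hLap2 hMz2 (chA R A z) (chA_nonneg R A z)
    (fun x hx => by unfold chA; rw [if_pos hx]) (chA_sum hR hRL A z) hN₀ (phA R A z)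
    (fun x => rfl) i hi1
  have hmain := res_iter T ⟨hT0, fun x => (hrow x).le⟩ A w hw0 hw1 (phA R A z)
    (fun a ha => phA_zero R A z a ha) hTA _ _ s2 (fun N => by
      refine le_trans (le_of_eq ?_) (s3 N)
      refine Finset.sum_congr rfl fun k _ => Finset.sum_congr rfl fun x _ => ?_
      rw [← Matrix.transpose_pow, Matrix.vecMul_transpose])
  rw [← hT]
  have hchi := chA_sq hR hRL A z
  have hi2 : (L : ℝ) ^ 2 ≤ i * K := by
    have h3 : L ^ 2 < K * (L ^ 2 / K + 1) := Nat.lt_mul_div_succ (L ^ 2) n10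
    rw [← hi] at h3
    have h4 : L ^ 2 ≤ i * K := by rw [mul_comm]; exact h3.le
    exact_mod_cast h4
  have hi3 : (i : ℝ) ≤ (L : ℝ) ^ 2 / K + 1 := by
    rw [hi]
    push_cast
    have h3 : ((L ^ 2 / K : ℕ) : ℝ) ≤ ((L ^ 2 : ℕ) : ℝ) / K := Nat.cast_div_le
    push_cast at h3
    linarith
  have hL21 : (1 : ℝ) ≤ (L : ℝ) ^ 2 := by
    have : (1 : ℝ) ≤ L := by exact_mod_cast hLpos
    exact one_le_pow₀ this
  have hnum := num_r Cl Z K ((L : ℝ) ^ 2) ((R : ℝ) ^ 2) i hClr hZr hK1 hL21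
    (by exact_mod_cast hKL) hLd (by positivity) (by exact_mod_cast hi1) hi2 hi3
  rw [← hc, ← hm0, ← hβ] at hnum
  refine hmain.trans (le_trans ?_ hnum)
  have h3 : ∑ x, phA R A z x ^ 2 ≤ 2 * (1 / (R : ℝ) ^ 2) + 2 / ((L : ℝ) ^ 2 / 2) := by
    linarith
  linarith

end Pool.Agent.K9h51.D2
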