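import Pool.Agent.K9h51.D2.Btl2
import Pool.Agent.Q297.LC.Tlc
import Pool.Agent.Q297.LC.Lim

/-!
# Project D2: the environment of the marked particles in the plane, and long cycles for circuits
-/

set_option autoImplicit false
set_option linter.unusedSectionVars false
set_option linter.unusedVariables false

namespace Pool.Agent.K9h51.D2

open Finset Equiv Matrix Q292.LC
open Pool.Agent.Q277.LC (del_pos peb)
open Pool.Agent.Q297.LC (exists_root pow_exp PW_split)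

/-- numerical part of the failure probability -/
theorem fail2 {Cb L K Z Y r : ℕ} {κ : ℝ} (hCb : 1 ≤ Cb) (hY : 1 ≤ Y)
    (hLY : (L : ℝ) ^ 2 ≤ Real.exp Y) (hZ : 1000 * (Cb * Y) ^ 2 ≤ Z) (hK : K ≤ L ^ 2 * Y)
    (hr : (Z + 1) * (2 * r + 1) ^ 2 ≤ K) (hκ0 : 0 ≤ κ)
    (hκ : ((2 * r + 1 : ℕ) : ℝ) ^ 2 * ((Z + 2) * κ) ≤ Real.exp (-1)) :
    Cb * Y * ((L : ℝ) ^ 4 * Real.exp (-(Z : ℝ)) + (L : ℝ) ^ 4 * (1 / 2) ^ ((Z - 1) / 2 / (Cb * Y))) +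
      K * (L : ℝ) ^ 4 * (Z + 1) * ((2 * r + 1 : ℕ) : ℝ) ^ 2 *
        (((2 * r + 1 : ℕ) : ℝ) ^ 2 * ((Z + 2) * κ)) ^ Z ≤ 3 * Real.exp (-(Y : ℝ)) := by
  obtain ⟨P, hP⟩ : ∃ P, P = Cb * Y := ⟨_, rfl⟩
  have hPC : Cb ≤ P := by rw [hP]; exact Nat.le_mul_of_pos_right _ hY
  have hPY : Y ≤ P := by rw [hP]; exact Nat.le_mul_of_pos_left _ hCb
  rw [← hP] at hZ ⊢
  have hP1 : 1 ≤ P := by omega
  have hPP : P ≤ P ^ 2 := Nat.le_self_pow (by norm_num) _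
  have hZP : 1000 * P ≤ Z := by omega
  have hCbe : (Cb : ℝ) ≤ Real.exp Cb := by linarith [Real.add_one_le_exp (Cb : ℝ)]
  have hYe : (Y : ℝ) ≤ Real.exp Y := by linarith [Real.add_one_le_exp (Y : ℝ)]
  have hL4 : (L : ℝ) ^ 4 ≤ Real.exp (2 * Y) := by
    have e : (L : ℝ) ^ 4 = (L : ℝ) ^ 2 * (L : ℝ) ^ 2 := by ring
    rw [e]
    calc (L : ℝ) ^ 2 * (L : ℝ) ^ 2 ≤ Real.exp Y * Real.exp Y := by gcongr
      _ = Real.exp (2 * Y) := by rw [← Real.exp_add]; congr 1; ring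
  have hCY : (Cb : ℝ) * Y ≤ Real.exp (Cb + Y) := by
    rw [Real.exp_add]
    exact mul_le_mul hCbe hYe (by positivity) (Real.exp_pos _).le
  have hPR : (Cb : ℝ) * Y = P := by rw [hP]; push_cast; rfl
  have zr : (1000 : ℝ) * P ≤ Z := by exact_mod_cast hZP
  have cr : (Cb : ℝ) ≤ P := by exact_mod_cast hPC
  have yr : (Y : ℝ) ≤ P := by exact_mod_cast hPY
  have y0 : (0 : ℝ) ≤ Y := by positivity
  have c0 : (0 : ℝ) ≤ Cb := by positivity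
  -- first term
  have t1 : (Cb : ℝ) * Y * ((L : ℝ) ^ 4 * Real.exp (-(Z : ℝ))) ≤ Real.exp (-(Y : ℝ)) := by
    calc (Cb : ℝ) * Y * ((L : ℝ) ^ 4 * Real.exp (-(Z : ℝ)))
        ≤ Real.exp (Cb + Y) * (Real.exp (2 * Y) * Real.exp (-(Z : ℝ))) := by gcongr
      _ = Real.exp (Cb + Y + (2 * Y + -Z)) := by rw [← Real.exp_add, ← Real.exp_add]
      _ ≤ Real.exp (-(Y : ℝ)) := Real.exp_le_exp.2 (by linarith)
  have hn : 2 * Cb + 8 * Y ≤ (Z - 1) / 2 / P := by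
    rw [Nat.le_div_iff_mul_le (by omega)]
    have h1 : (2 * Cb + 8 * Y) * P ≤ 10 * P ^ 2 := by
      calc (2 * Cb + 8 * Y) * P ≤ (10 * P) * P := Nat.mul_le_mul_right _ (by omega)
        _ = 10 * P ^ 2 := by ring
    omega
  have t2 : (Cb : ℝ) * Y * ((L : ℝ) ^ 4 * (1 / 2) ^ ((Z - 1) / 2 / P)) ≤ Real.exp (-(Y : ℝ)) := by
    have h1 : (1 / 2 : ℝ) ^ ((Z - 1) / 2 / P) ≤ Real.exp (-((Cb : ℝ) + 4 * Y)) := by
      have h2 : (1 / 2 : ℝ) ≤ Real.exp (-(1 / 2)) := by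
        have := Real.add_one_le_exp (-(1 / 2) : ℝ)
        linarith
      calc (1 / 2 : ℝ) ^ ((Z - 1) / 2 / P) ≤ (1 / 2 : ℝ) ^ (2 * Cb + 8 * Y) :=
            pow_le_pow_of_le_one (by norm_num) (by norm_num) hn
        _ ≤ (Real.exp (-(1 / 2))) ^ (2 * Cb + 8 * Y) := pow_le_pow_left₀ (by norm_num) h2 _
        _ = Real.exp (-((Cb : ℝ) + 4 * Y)) := by
            rw [← Real.exp_nat_mul]
            congr 1
            push_cast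
            ring
    calc (Cb : ℝ) * Y * ((L : ℝ) ^ 4 * (1 / 2) ^ ((Z - 1) / 2 / P))
        ≤ Real.exp (Cb + Y) * (Real.exp (2 * Y) * Real.exp (-((Cb : ℝ) + 4 * Y))) := by gcongr
      _ = Real.exp (Cb + Y + (2 * Y + -((Cb : ℝ) + 4 * Y))) := by rw [← Real.exp_add, ← Real.exp_add]
      _ ≤ Real.exp (-(Y : ℝ)) := Real.exp_le_exp.2 (by linarith)
  have k1 : (K : ℝ) ≤ Real.exp (2 * Y) := by
    have e2 : (K : ℝ) ≤ (L : ℝ) ^ 2 * Y := by exact_mod_cast hK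
    calc (K : ℝ) ≤ (L : ℝ) ^ 2 * Y := e2
      _ ≤ Real.exp Y * Real.exp Y := mul_le_mul hLY hYe (by positivity) (Real.exp_pos _).le
      _ = Real.exp (2 * Y) := by rw [← Real.exp_add]; congr 1; ring
  have t3 : K * (L : ℝ) ^ 4 * (Z + 1) * ((2 * r + 1 : ℕ) : ℝ) ^ 2 *
        (((2 * r + 1 : ℕ) : ℝ) ^ 2 * ((Z + 2) * κ)) ^ Z ≤ Real.exp (-(Y : ℝ)) := by
    have k2 : ((Z : ℝ) + 1) * ((2 * r + 1 : ℕ) : ℝ) ^ 2 ≤ Real.exp (2 * Y) := by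
      refine le_trans ?_ k1
      exact_mod_cast hr
    have k3 : (((2 * r + 1 : ℕ) : ℝ) ^ 2 * ((Z + 2) * κ)) ^ Z ≤ Real.exp (-(Z : ℝ)) := by
      have h1 := pow_le_pow_left₀ (by positivity) hκ Z
      refine h1.trans (le_of_eq ?_)
      rw [← Real.exp_nat_mul]
      congr 1
      ring
    have k4 : K * (L : ℝ) ^ 4 * (Z + 1) * ((2 * r + 1 : ℕ) : ℝ) ^ 2 *
        (((2 * r + 1 : ℕ) : ℝ) ^ 2 * ((Z + 2) * κ)) ^ Z =
        K * (L : ℝ) ^ 4 * ((Z + 1) * ((2 * r + 1 : ℕ) : ℝ) ^ 2) *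
        (((2 * r + 1 : ℕ) : ℝ) ^ 2 * ((Z + 2) * κ)) ^ Z := by ring
    rw [k4]
    calc K * (L : ℝ) ^ 4 * ((Z + 1) * ((2 * r + 1 : ℕ) : ℝ) ^ 2) *
        (((2 * r + 1 : ℕ) : ℝ) ^ 2 * ((Z + 2) * κ)) ^ Z
        ≤ Real.exp (2 * Y) * Real.exp (2 * Y) * Real.exp (2 * Y) * Real.exp (-(Z : ℝ)) := by
          gcongr
      _ = Real.exp (6 * Y - Z) := by
          rw [← Real.exp_add, ← Real.exp_add, ← Real.exp_add]
          congr 1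
          ring
      _ ≤ Real.exp (-(Y : ℝ)) := by
          rw [Real.exp_le_exp]
          linarith
  rw [mul_add]
  linarith

open Classical in
/-- the environment of the marked particles in the plane is good with large probability -/
theorem env2 : ∃ C : ℕ, 1000 ≤ C ∧ ∀ (a Z L K Y : ℕ) [NeZero L], C ≤ Z → 1 ≤ Y →
    (L : ℝ) ^ 2 ≤ Real.exp Y → C * Y ^ 2 ≤ Z → Z ^ (a + 140) ≤ K → K ≤ L ^ 2 * Y →
    8 * Z ^ 46 ≤ L ∧ (L : ℝ) ^ 2 ≤ Real.exp Z ∧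
    ∃ q₀ : ℕ, ∀ q ≥ q₀, ∀ σ : ℕ → (Fin 2 → ZMod L) × Fin 2, Per σ → ∀ δ : ℝ, 1 ≤ δ * q →
    δ * q ≤ 2 → ∀ w : ℝ, 0 ≤ w → w < 1 → 1 / ((L : ℝ) ^ 2 * (1 - w)) ≤ (Z : ℝ) ^ a / K →
    PW (ed ∘ σ) (K * (q * ms 2 L)) δ w
      (fun ω A => ¬ Gd σ q K Z (Z ^ 46) Z (2 * ((Z - 1) / 2)) ω A) ≤ 3 * Real.exp (-(Y : ℝ)) ∧
    ∀ x, PW (ed ∘ σ) (K * (q * ms 2 L)) δ w
      (fun ω A => x ∈ A ∧ Gd σ q K Z (Z ^ 46) Z (2 * ((Z - 1) / 2)) ω A) ≤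
      (Z : ℝ) ^ 41 * (1 / K + 1 / ((L : ℝ) ^ 2 * (1 - w))) := by
  obtain ⟨Cb, hCb, hB⟩ := btl2
  refine ⟨1000 * Cb ^ 2, ?_, ?_⟩
  · have : 1 ≤ Cb ^ 2 := Nat.one_le_pow _ _ hCb
    omega
  intro a Z L K Y _ hCZ hY hLY hYZ hZK hKL
  have hCb2 : Cb ≤ Cb ^ 2 := Nat.le_self_pow (by norm_num) _
  have hY2 : Y ≤ Y ^ 2 := Nat.le_self_pow (by norm_num) _
  have hZ1000 : 1000 ≤ Z := by omega
  have hYZ' : 1000 * (Cb * Y) ^ 2 ≤ Z := by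
    have : 1000 * (Cb * Y) ^ 2 = 1000 * Cb ^ 2 * Y ^ 2 := by ring
    omega
  have hYleZ : Y ≤ Z := by
    have h1 : 1 * Y ^ 2 ≤ 1000 * Cb ^ 2 * Y ^ 2 := Nat.mul_le_mul_right _ (by omega)
    omega
  have hZ0 : 0 < Z := by omega
  have hZr : (1000 : ℝ) ≤ Z := by exact_mod_cast hZ1000
  have hLZ : (L : ℝ) ^ 2 ≤ Real.exp Z := hLY.trans (Real.exp_le_exp.2 (by exact_mod_cast hYleZ))
  have hpa : Z ^ 140 ≤ K := (Nat.pow_le_pow_right hZ0 (by omega)).trans hZK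
  have hL2 : Z ^ 139 ≤ L ^ 2 := by
    have h1 : Z ^ 139 * Z ≤ L ^ 2 * Z := by
      calc Z ^ 139 * Z = Z ^ 140 := by ring
        _ ≤ K := hpa
        _ ≤ L ^ 2 * Y := hKL
        _ ≤ L ^ 2 * Z := Nat.mul_le_mul_left _ hYleZ
    exact Nat.le_of_mul_le_mul_right h1 hZ0
  have hL8 : 8 * Z ^ 46 ≤ L := by
    by_contra hcon
    push Not at hcon
    have h2 : L ^ 2 < (8 * Z ^ 46) ^ 2 := Nat.pow_lt_pow_left hcon (by norm_num)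
    have h3 : (8 * Z ^ 46) ^ 2 = 64 * Z ^ 92 := by ring
    have h4 : 64 * Z ^ 92 ≤ Z * Z ^ 92 := Nat.mul_le_mul_right _ (by omega)
    have h5 : Z * Z ^ 92 ≤ Z ^ 139 := by
      rw [← pow_succ']
      exact Nat.pow_le_pow_right hZ0 (by norm_num)
    omega
  refine ⟨hL8, hLZ, ?_⟩
  obtain ⟨q₀, hq₀⟩ := hB Z (by omega) L K Y Z (Z ^ 46) Z ((Z - 1) / 2) le_rfl le_rfl (by omega)
    hY hYleZ hLY le_rfl hL8 ((Nat.pow_le_pow_right hZ0 (by norm_num)).trans hpa) hKL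
  refine ⟨q₀, fun q hq σ hσ δ h1 h2 w hw0 hw1 hwK => ?_⟩
  obtain ⟨r, hr⟩ : ∃ r, r = Z ^ 46 := ⟨_, rfl⟩
  obtain ⟨κ, hκ⟩ : ∃ κ, κ = (Z : ℝ) ^ 41 * (1 / K + 1 / ((L : ℝ) ^ 2 * (1 - w))) := ⟨_, rfl⟩
  have hKr : (0 : ℝ) < K := by
    have : 0 < K := lt_of_lt_of_le (by positivity) hpa
    exact_mod_cast this
  have hL0 : (0 : ℝ) < L := by exact_mod_cast Nat.pos_of_ne_zero (NeZero.ne L)
  have hκ0 : 0 ≤ κ := by
    have : 0 < 1 - w := by linarith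
    rw [hκ]
    positivity
  have hr1 : 1 ≤ r := by rw [hr]; exact Nat.one_le_pow _ _ hZ0
  have hκK : κ * K ≤ 2 * (Z : ℝ) ^ (a + 41) := by
    have h3 : κ ≤ (Z : ℝ) ^ 41 * (1 / K + (Z : ℝ) ^ a / K) := by
      rw [hκ]
      exact mul_le_mul_of_nonneg_left (by linarith) (by positivity)
    have h4 : (Z : ℝ) ^ 41 * (1 / (K : ℝ) + (Z : ℝ) ^ a / K) * K =
        (Z : ℝ) ^ 41 * (1 + (Z : ℝ) ^ a) := by field_simp
    have h5 : (1 : ℝ) ≤ (Z : ℝ) ^ a := one_le_pow₀ (by linarith)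
    calc κ * K ≤ (Z : ℝ) ^ 41 * (1 / (K : ℝ) + (Z : ℝ) ^ a / K) * K :=
          mul_le_mul_of_nonneg_right h3 hKr.le
      _ = (Z : ℝ) ^ 41 * (1 + (Z : ℝ) ^ a) := h4
      _ ≤ (Z : ℝ) ^ 41 * (2 * (Z : ℝ) ^ a) := by
          refine mul_le_mul_of_nonneg_left (by linarith) (by positivity)
      _ = 2 * (Z : ℝ) ^ (a + 41) := by rw [pow_add]; ring
  have hr3 : ((2 * r + 1 : ℕ) : ℝ) ≤ 3 * (Z : ℝ) ^ 46 := by
    have h3 : 2 * r + 1 ≤ 3 * Z ^ 46 := by rw [← hr]; omega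
    exact_mod_cast h3
  have hkey : ((2 * r + 1 : ℕ) : ℝ) ^ 2 * ((Z + 2) * κ) ≤ Real.exp (-1) := by
    have h3 : ((2 * r + 1 : ℕ) : ℝ) ^ 2 ≤ 9 * (Z : ℝ) ^ 92 := by
      calc ((2 * r + 1 : ℕ) : ℝ) ^ 2 ≤ (3 * (Z : ℝ) ^ 46) ^ 2 :=
            pow_le_pow_left₀ (by positivity) hr3 2
        _ = 9 * (Z : ℝ) ^ 92 := by ring
    have h4 : ((2 * r + 1 : ℕ) : ℝ) ^ 2 * ((Z + 2) * κ) * K ≤ 54 * (Z : ℝ) ^ (a + 134) := by
      calc ((2 * r + 1 : ℕ) : ℝ) ^ 2 * ((Z + 2) * κ) * K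
          = ((2 * r + 1 : ℕ) : ℝ) ^ 2 * (Z + 2) * (κ * K) := by ring
        _ ≤ (9 * (Z : ℝ) ^ 92) * (3 * Z) * (2 * (Z : ℝ) ^ (a + 41)) := by
            gcongr
            linarith
        _ = 54 * (Z : ℝ) ^ (a + 134) := by
            rw [pow_add, pow_add]; ring
    have h5 : (Z : ℝ) ^ (a + 134) * (Z : ℝ) ^ 6 ≤ K := by
      rw [← pow_add]
      have : a + 134 + 6 = a + 140 := by ring
      rw [this]
      exact_mod_cast hZK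
    have h6 : (162 : ℝ) ≤ (Z : ℝ) ^ 6 := by
      have : (Z : ℝ) ≤ (Z : ℝ) ^ 6 := le_self_pow₀ (by linarith) (by norm_num)
      linarith
    have h7 : 54 * (Z : ℝ) ^ (a + 134) ≤ 1 / 3 * K := by
      have h8 : 0 ≤ (Z : ℝ) ^ (a + 134) := by positivity
      have h9 : (Z : ℝ) ^ (a + 134) * 162 ≤ (Z : ℝ) ^ (a + 134) * (Z : ℝ) ^ 6 :=
        mul_le_mul_of_nonneg_left h6 h8
      linarith
    have h10 : ((2 * r + 1 : ℕ) : ℝ) ^ 2 * ((Z + 2) * κ) ≤ 1 / 3 :=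
      le_of_mul_le_mul_right (h4.trans h7) hKr
    refine h10.trans ?_
    rw [Real.exp_neg, one_div]
    refine inv_anti₀ (Real.exp_pos 1) ?_
    have := Real.exp_one_lt_d9
    linarith
  have hκZ : ((Z : ℝ) + 2) * κ ≤ 1 := by
    have h1 : 1 ≤ ((2 * r + 1 : ℕ) : ℝ) ^ 2 := one_le_pow₀ (by
      have : 1 ≤ 2 * r + 1 := by omega
      exact_mod_cast this)
    have h2 : Real.exp (-1) ≤ 1 := Real.exp_le_one_iff.2 (by norm_num)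
    have h3 : 0 ≤ ((Z : ℝ) + 2) * κ := by positivity
    nlinarith
  have hrL : (Z + 1) * (2 * r + 1) ^ 2 ≤ K := by
    have h3 : 2 * r + 1 ≤ 3 * Z ^ 46 := by rw [← hr]; omega
    calc (Z + 1) * (2 * r + 1) ^ 2 ≤ (2 * Z) * (3 * Z ^ 46) ^ 2 :=
          Nat.mul_le_mul (by omega) (Nat.pow_le_pow_left h3 2)
      _ = 18 * Z ^ 93 := by ring
      _ ≤ Z * Z ^ 93 := Nat.mul_le_mul_right _ (by omega)
      _ = Z ^ 94 := by ring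
      _ ≤ Z ^ 140 := Nat.pow_le_pow_right hZ0 (by norm_num)
      _ ≤ K := hpa
  obtain ⟨b1, b2⟩ := hq₀ q hq σ hσ δ h1 h2 w hw0 hw1 κ hκ hκZ
  rw [← hr] at b1 b2 ⊢
  refine ⟨b1.trans (fail2 hCb hY hLY hYZ' hKL hrL hκ0 hkey), fun x => ?_⟩
  rw [← hκ]
  exact b2 x

end Pool.Agent.K9h51.D2
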